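import Pool.Agent.Helper39.KT.DHomeoB

/-!
# KT-11: the realisation is the torus

PROOF.  Define f : Rl X.facets → (Fin 4 → AddCircle 1): for x choose k with x supported in
univ.image (lab k) and put f(x)_l = (∑_j x (lab k j) pos k j l) / N mod 1.
(a) independent of k: if x is supported in the labels of k and of k', then for a label u in the
support, u = lab k i0 = lab k' i0', lat gives pos k i0 - pos k' i0' = N ζ, and cons gives
pos k i - pos k' i' = N ζ for all common labels; so the two sums differ by N ζ (∑ x = 1).
(b) f is continuous: Rl X.facets is the finite union of the closed sets of x supported in the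
labels of k, on each of them f is given by one formula (LocallyFinite.continuous, or
continuousOn / IsClosed induction over the finite family).
(c) f is surjective: given θ choose y : Fin 4 → ℝ with y_l / N mod 1 = θ_l, (k, z) minimal for y;
x = co k (y - N z) is nonnegative, supported in the labels of k, of sum one (br_sum), and
f(x)_l = (y_l - N z_l)/N mod 1 (br_rep).
(d) f is injective: x, x' with simplices k, k', y_l = ∑ x (lab k j) pos k j l, y' similarly; then
y = y' + N z for some z; br k j y = x (lab k j) (br_unique), br k' j (y - N z) = x' (lab k' j), so
co k y = x and co k' (y - N z) = x', and co_eq gives x = x'.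
(e) Rl X.facets is compact (closed subset of the compact set of functions ℕ → [0,1],
isCompact_univ_pi) and the torus is Hausdorff: Continuous.homeoOfEquivCompactToT2.
-/

namespace Pool.Agent.Helper39.KT.DD

open Finset

variable {X : DD}

theorem isCompact_Rl (F : Finset (Finset ℕ)) : IsCompact (Rl F) :=
  isCompact_RlB F

theorem homeo (h : X.Good) : Nonempty (Rl X.facets ≃ₜ (Fin 4 → AddCircle (1 : ℝ))) :=
  homeoB h

end Pool.Agent.Helper39.KT.DD
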