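import Pool.Agent.Helper39.KT.MaskD

/-!
# KT-14b: the face count cntI
-/

namespace Pool.Agent.Helper39.KT

open Finset

theorem incM_testBit_b (v : ℕ) (L : List ℕ) (k : ℕ) :
    (incM v L).testBit k = ((L[k]?).map (fun s => s.testBit v)).getD false := by
  induction L generalizing k with
  | nil => simp [incM]
  | cons s L ih =>
    have h0 : incM v (s :: L) = (s >>> v) % 2 + 2 * incM v L := by
      show ((s >>> v) &&& 1) + 2 * incM v L = _
      rw [Nat.and_one_is_mod]
    cases k with
    | zero =>
      rw [h0, Nat.testBit_zero]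
      have h1 : ((s >>> v) % 2 + 2 * incM v L) % 2 = (s >>> v) % 2 := by omega
      rw [h1]
      have h2 : s.testBit v = (s >>> v).testBit 0 := by
        rw [Nat.testBit_shiftRight]; rfl
      rw [List.getElem?_cons_zero, Option.map_some, Option.getD_some, h2, Nat.testBit_zero]
    | succ k =>
      rw [h0, Nat.testBit_succ]
      have h1 : ((s >>> v) % 2 + 2 * incM v L) / 2 = incM v L := by omega
      rw [h1, ih k]
      simp

theorem incOK_get_b (L : List ℕ) : ∀ (I : List ℕ) (v : ℕ), incOK L v I = true →
    ∀ j, (h : j < I.length) → I[j] = incM (v + j) L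
  | [], _, _, j, h => by simp at h
  | i :: I, v, hh, j, h => by
    have hh' : Nat.beq (incM v L) i = true ∧ incOK L (v + 1) I = true := by
      simpa [incOK] using hh
    cases j with
    | zero => simpa using (Nat.eq_of_beq_eq_true hh'.1).symm
    | succ j =>
      have := incOK_get_b L I (v + 1) hh'.2 j (by simpa using h)
      simpa [Nat.add_assoc, Nat.add_comm 1 j] using this

/-- bits of the incidence masks -/
theorem Inc.getD_testBit_b {V : List (List ℕ)} {L I : List ℕ} (h : Inc V L I) {v : ℕ}
    (hv : v < 32) (k : ℕ) :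
    (I.getD v 0).testBit k = ((L[k]?).map (fun s => s.testBit v)).getD false := by
  have h1 : v < I.length := by rw [h.len]; exact hv
  have h2 := incOK_get_b L I 0 h.inc v h1
  rw [List.getD_eq_getElem _ _ h1, h2, Nat.zero_add]
  exact incM_testBit_b v L k

theorem mod_two_pow_b (x k : ℕ) : x % 2 ^ k = 0 ↔ ∀ j < k, x.testBit j = false := by
  constructor
  · intro h j hj
    have h1 : (x % 2 ^ k).testBit j = (decide (j < k) && x.testBit j) :=
      Nat.testBit_mod_two_pow x k j
    rw [h] at h1
    simpa [hj] using h1.symm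
  · intro h
    apply Nat.eq_of_testBit_eq
    intro j
    rw [Nat.testBit_mod_two_pow, Nat.zero_testBit]
    by_cases hj : j < k
    · simp [h j hj]
    · simp [hj]

/-- the condition counted by cs -/
def Cb (f : ℕ → ℕ) (k acc : ℕ) (t : Finset ℕ) : Prop :=
  ∀ j < k, ¬ (acc.testBit j = true ∧ ∀ v ∈ t, (f v).testBit j = true)

theorem Cb_insert (f : ℕ → ℕ) (k acc a : ℕ) (t : Finset ℕ) :
    Cb f k acc (insert a t) ↔ Cb f k (Nat.land acc (f a)) t := by
  unfold Cb
  refine forall_congr' fun j => forall_congr' fun _ => not_congr ?_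
  have : (Nat.land acc (f a)).testBit j = (acc.testBit j && (f a).testBit j) :=
    Nat.testBit_and acc (f a) j
  rw [this]
  simp only [Finset.mem_insert, forall_eq_or_imp, Bool.and_eq_true]
  tauto

open Classical in
theorem cs_spec_b (f : ℕ → ℕ) (k : ℕ) : ∀ (l : List ℕ) (i acc : ℕ), l.Nodup →
    cs (2 ^ k) i acc (l.map f) = ((l.toFinset.powersetCard i).filter (Cb f k acc)).card := by
  have base : ∀ (acc : ℕ) (ls : List ℕ) (s : Finset ℕ),
      cs (2 ^ k) 0 acc ls = ((s.powersetCard 0).filter (Cb f k acc)).card := by
    intro acc ls s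
    have h1 : cs (2 ^ k) 0 acc ls = cond (Nat.beq (Nat.mod acc (2 ^ k)) 0) 1 0 := by
      cases ls <;> rfl
    rw [h1, Finset.powersetCard_zero, Finset.filter_singleton]
    have h2 : Cb f k acc ∅ ↔ acc % 2 ^ k = 0 := by
      rw [mod_two_pow_b]
      unfold Cb
      simp
    by_cases h3 : acc % 2 ^ k = 0
    · rw [if_pos (h2.2 h3)]
      have : Nat.beq (Nat.mod acc (2 ^ k)) 0 = true := by
        show Nat.beq (acc % 2 ^ k) 0 = true
        rw [h3]; rfl
      rw [this]; rfl
    · rw [if_neg (fun h => h3 (h2.1 h))]
      have : Nat.beq (Nat.mod acc (2 ^ k)) 0 = false := by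
        show Nat.beq (acc % 2 ^ k) 0 = false
        rw [← Bool.not_eq_true]
        intro h
        exact h3 (Nat.eq_of_beq_eq_true h)
      rw [this]; rfl
  intro l
  induction l with
  | nil =>
    intro i acc _
    cases i with
    | zero => exact base acc _ _
    | succ i =>
      have h1 : (∅ : Finset ℕ).powersetCard (i + 1) = ∅ :=
        Finset.powersetCard_eq_empty.2 (by simp)
      simp [cs, h1]
  | cons a r ih =>
    intro i acc hn
    cases i with
    | zero => exact base acc _ _
    | succ i =>
      have ha : a ∉ r.toFinset := by simpa using (List.nodup_cons.1 hn).1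
      have hr := (List.nodup_cons.1 hn).2
      show cs (2 ^ k) i (Nat.land acc (f a)) (r.map f) + cs (2 ^ k) (i + 1) acc (r.map f) = _
      rw [ih i _ hr, ih (i + 1) _ hr, List.toFinset_cons, Finset.powersetCard_succ_insert ha,
        Finset.filter_union, Finset.card_union_of_disjoint, add_comm]
      · congr 1
        rw [Finset.filter_image, Finset.card_image_of_injOn]
        · congr 1
          ext t
          simp only [Finset.mem_filter, Cb_insert]
        · intro s hs t ht hst
          simp only [Finset.coe_filter, Finset.mem_powersetCard, Set.mem_ofPred_eq] at hs ht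
          have h1 : a ∉ s := fun h => ha (hs.1.1 h)
          have h2 : a ∉ t := fun h => ha (ht.1.1 h)
          have := congrArg (fun u => Finset.erase u a) hst
          simpa [Finset.erase_insert h1, Finset.erase_insert h2] using this
      · rw [Finset.disjoint_left]
        intro s hs hs'
        simp only [Finset.mem_filter, Finset.mem_powersetCard, Finset.mem_image] at hs hs'
        obtain ⟨⟨u, hu, rfl⟩, _⟩ := hs'
        exact ha (hs.1.1 (Finset.mem_insert_self a u))

open Classical in
/-- number of sets of i + 1 elements in a member of R and in no member of P -/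
noncomputable def Nb (P R : List (Finset ℕ)) (i : ℕ) : ℕ :=
  ((R.toFinset.biUnion Finset.powerset).filter
    (fun t => t.card = i + 1 ∧ ∀ s ∈ P, ¬ t ⊆ s)).card

open Classical in
theorem Nb_cons (P R : List (Finset ℕ)) (s : Finset ℕ) (i : ℕ) :
    Nb P (s :: R) i = ((s.powersetCard (i + 1)).filter (fun t => ∀ s' ∈ P, ¬ t ⊆ s')).card +
      Nb (P ++ [s]) R i := by
  unfold Nb
  rw [← Finset.card_union_of_disjoint]
  · congr 1
    ext t
    simp only [Finset.mem_filter, Finset.mem_biUnion, List.mem_toFinset, Finset.mem_powerset,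
      List.mem_cons, Finset.mem_union, Finset.mem_powersetCard, List.mem_append,
      List.mem_singleton]
    constructor
    · rintro ⟨⟨u, hu, htu⟩, hc, hP⟩
      by_cases hs : t ⊆ s
      · exact Or.inl ⟨⟨hs, hc⟩, hP⟩
      · right
        refine ⟨⟨u, ?_, htu⟩, hc, ?_⟩
        · rcases hu with rfl | hu
          · exact absurd htu hs
          · exact hu
        · intro s' h
          rcases h with h | h | h
          · exact hP s' h
          · rw [h]; exact hs
          · exact absurd h (by simp)
    · rintro (⟨⟨hs, hc⟩, hP⟩ | ⟨⟨u, hu, htu⟩, hc, hP⟩)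
      · exact ⟨⟨s, Or.inl rfl, hs⟩, hc, hP⟩
      · exact ⟨⟨u, Or.inr hu, htu⟩, hc, fun s' h => hP s' (Or.inl h)⟩
  · rw [Finset.disjoint_left]
    intro t h1 h2
    simp only [Finset.mem_filter, Finset.mem_powersetCard, List.mem_append,
      List.mem_singleton] at h1 h2
    exact h2.2.2 s (Or.inr rfl) h1.1.1

theorem fv_eq_Nb (R : List (Finset ℕ)) (i : ℕ) : fv R.toFinset i = Nb [] R i := by
  unfold fv Nb
  congr 1
  ext t
  simp

theorem vOK_spec_b {V : List (List ℕ)} (h : vOK V = true) {l : List ℕ} (hl : l ∈ V) :
    (∀ v ∈ l, v < 32) ∧ (l.zip l.tail).all (fun p => Nat.blt p.1 p.2) = true := by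
  unfold vOK at h
  rw [List.all_eq_true] at h
  have := h l hl
  simp only [Bool.and_eq_true, List.all_eq_true] at this
  refine ⟨fun v hv => ?_, ?_⟩
  · have h2 := this.1.2 v hv
    exact (Nat.blt_eq ▸ h2)
  · rw [List.all_eq_true]; exact this.2

theorem nodup_of_incr_b : ∀ (l : List ℕ), (l.zip l.tail).all (fun p => Nat.blt p.1 p.2) = true →
    l.IsChain (· < ·)
  | [], _ => List.IsChain.nil
  | [a], _ => List.IsChain.singleton a
  | a :: b :: r, h => by
    have h' : Nat.blt a b = true ∧ ((b :: r).zip r).all (fun p => Nat.blt p.1 p.2) = true := by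
      simpa using h
    exact List.IsChain.cons_cons (Nat.blt_eq ▸ h'.1) (nodup_of_incr_b (b :: r) h'.2)

theorem msk_testBit_b (l : List ℕ) (v : ℕ) : (msk l).testBit v = decide (v ∈ l) := by
  induction l with
  | nil => simp [msk]
  | cons a r ih =>
    have h1 : msk (a :: r) = 2 ^ a ||| msk r := rfl
    rw [h1, Nat.testBit_or, ih, Nat.testBit_two_pow]
    by_cases h : a = v
    · simp [h]
    · simp [h, Ne.symm h]

theorem cntI_aux_b {V : List (List ℕ)} {L I : List ℕ} (h : Inc V L I) (i : ℕ) :
    ∀ (R P : List (List ℕ)), V = P ++ R →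
    Nb (P.map List.toFinset) (R.map List.toFinset) i =
      cntI I (2 ^ V.length - 1) i (2 ^ P.length) R := by
  classical
  intro R
  induction R with
  | nil =>
    intro P _
    simp [Nb, cntI]
  | cons l R ih =>
    intro P hV
    have hl : l ∈ V := by rw [hV]; simp
    have hlt := (vOK_spec_b h.v hl).1
    have hnd : l.Nodup :=
      (List.isChain_iff_pairwise.1 (nodup_of_incr_b l (vOK_spec_b h.v hl).2)).imp
        (fun h => ne_of_lt h)
    have hP := ih (P ++ [l]) (by rw [hV]; simp)
    rw [List.map_cons, Nb_cons]
    have h2 : cntI I (2 ^ V.length - 1) i (2 ^ P.length) (l :: R) =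
        cs (2 ^ P.length) (i + 1) (2 ^ V.length - 1) (l.map (fun v => I.getD v 0)) +
          cntI I (2 ^ V.length - 1) i (2 * 2 ^ P.length) R := rfl
    rw [h2, cs_spec_b _ _ _ _ _ hnd]
    congr 1
    · congr 1
      refine Finset.filter_congr fun t ht => ?_
      have ht' : t ⊆ l.toFinset := (Finset.mem_powersetCard.1 ht).1
      have key : ∀ j, (hj : j < P.length) →
          (((2 ^ V.length - 1).testBit j = true ∧ ∀ v ∈ t, (I.getD v 0).testBit j = true) ↔
            t ⊆ (P[j]).toFinset) := by
        intro j hj
        have hjV : j < V.length := by rw [hV]; simp; omega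
        have hVj : V[j]? = some P[j] := by
          rw [hV, List.getElem?_append_left hj, List.getElem?_eq_getElem hj]
        have hLj : L[j]? = some (msk P[j]) := by
          rw [← h.l, List.getElem?_map, hVj]; rfl
        constructor
        · rintro ⟨_, h4⟩ v hv
          have h5 := h4 v hv
          have hv32 : v < 32 := hlt v (List.mem_toFinset.1 (ht' hv))
          rw [h.getD_testBit_b hv32, hLj] at h5
          simp only [Option.map_some, Option.getD_some, msk_testBit_b, decide_eq_true_eq] at h5
          exact List.mem_toFinset.2 h5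
        · intro h4
          refine ⟨?_, fun v hv => ?_⟩
          · rw [Nat.testBit_two_pow_sub_one]; simpa using hjV
          · have hv32 : v < 32 := hlt v (List.mem_toFinset.1 (ht' hv))
            rw [h.getD_testBit_b hv32, hLj]
            simp only [Option.map_some, Option.getD_some, msk_testBit_b, decide_eq_true_eq]
            exact List.mem_toFinset.1 (h4 hv)
      unfold Cb
      constructor
      · intro h3 j hj h4
        exact h3 _ (List.mem_map.2 ⟨P[j], List.getElem_mem hj, rfl⟩) ((key j hj).1 h4)
      · intro h3 s hs hts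
        obtain ⟨q, hq, rfl⟩ := List.mem_map.1 hs
        obtain ⟨j, hj, rfl⟩ := List.getElem_of_mem hq
        exact h3 j hj ((key j hj).2 hts)
    · rw [List.map_append, List.length_append] at hP
      simp only [List.map_cons, List.map_nil, List.length_cons, List.length_nil] at hP
      rw [hP]
      congr 1
      rw [pow_succ, mul_comm]

theorem dec_msk_b {V : List (List ℕ)} {L I : List ℕ} (h : Inc V L I) :
    ∀ l ∈ V, dec (msk l) = l.toFinset := by
  intro l hl
  ext v
  simp only [dec, Finset.mem_filter, Finset.mem_range, msk_testBit_b, decide_eq_true_eq,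
    List.mem_toFinset]
  exact ⟨fun h => h.2, fun hv => ⟨(vOK_spec_b h.v hl).1 v hv, hv⟩⟩

theorem decF_eq_b {V : List (List ℕ)} {L I : List ℕ} (h : Inc V L I) :
    decF L = (V.map List.toFinset).toFinset := by
  unfold decF
  rw [← h.l, List.map_map]
  congr 1
  exact List.map_congr_left (fun l hl => dec_msk_b h l hl)

theorem cntI_spec_b {V : List (List ℕ)} {L I : List ℕ} (h : Inc V L I) (i : ℕ) :
    fv (decF L) i = cntI I (2 ^ V.length - 1) i 1 V := by
  rw [decF_eq_b h, fv_eq_Nb]
  have := cntI_aux_b h i V [] rfl
  simpa using this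

end Pool.Agent.Helper39.KT
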