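import Pool.Agent.Helper39.KT.DGood
import Pool.Agent.Helper39.KT.DHomeo
import Pool.Agent.Helper39.KT.MaskFb
import Pool.Agent.Helper39.KT.DataP0
import Pool.Agent.Helper39.KT.DataP1
import Pool.Agent.Helper39.KT.DataP2
import Pool.Agent.Helper39.KT.DataP3
import Pool.Agent.Helper39.KT.DataP4
import Pool.Agent.Helper39.KT.DataP5
import Pool.Agent.Helper39.KT.DataP6
import Pool.Agent.Helper39.KT.DataP7

/-! # The 32-vertex torus (project KT) -/

namespace Pool.Agent.Helper39.KT

open Finset

def pks : List ℕ := pk0 ++ pk1 ++ pk2 ++ pk3 ++ pk4 ++ pk5 ++ pk6 ++ pk7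

def R0 : List Rc := pks.map ofPack

theorem R0_chk : ∀ r ∈ R0, chk π0 r = true := by
  intro r hr
  obtain ⟨n, hn, rfl⟩ := List.mem_map.1 hr
  simp only [pks, List.mem_append] at hn
  rcases hn with ((((((hn | hn) | hn) | hn) | hn) | hn) | hn) | hn
  · exact List.all_eq_true.1 pk0_ok n hn
  · exact List.all_eq_true.1 pk1_ok n hn
  · exact List.all_eq_true.1 pk2_ok n hn
  · exact List.all_eq_true.1 pk3_ok n hn
  · exact List.all_eq_true.1 pk4_ok n hn
  · exact List.all_eq_true.1 pk5_ok n hn
  · exact List.all_eq_true.1 pk6_ok n hn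
  · exact List.all_eq_true.1 pk7_ok n hn

set_option maxRecDepth 100000 in
theorem verts0 : R0.map verts = V0 := by decide +kernel

set_option maxRecDepth 100000 in
theorem R0_ne : R0 ≠ [] := by
  intro h
  have : (R0.map verts).length = 0 := by rw [h]; rfl
  rw [verts0] at this
  exact absurd this (by decide +kernel)

set_option maxRecDepth 100000 in
theorem inc0 : Inc V0 L0 I0 where
  v := by decide +kernel
  l := by decide +kernel
  incr := by decide +kernel
  len := by decide +kernel
  inc := by decide +kernel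

set_option maxRecDepth 100000 in
theorem len0 : V0.length = 704 := by decide +kernel

theorem good0 : (mkDD π0 R0).Good :=
  good (by decide +kernel) (by decide +kernel) R0_ne (incProp (V := V0) (L := L0) inc0 verts0) R0_chk

theorem facets0 : (mkDD π0 R0).facets = decF L0 := by
  rw [facets_eq verts0, inc0.decF_eq]

theorem homeo0 : Nonempty (Rl (decF L0) ≃ₜ (Fin 4 → AddCircle (1 : ℝ))) := by
  rw [← facets0]; exact DD.homeo good0

set_option maxRecDepth 100000 in
theorem pm0 : PM (decF L0) := pmI_spec inc0 (NB := NB0) (by decide +kernel)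

set_option maxRecDepth 100000 in
theorem f0_0 : fv (decF L0) 0 = 32 := by
  rw [cntI_spec_b inc0]; decide +kernel

set_option maxRecDepth 100000 in
theorem f0_1 : fv (decF L0) 1 = 448 := by
  rw [cntI_spec_b inc0]; decide +kernel

set_option maxRecDepth 100000 in
theorem f0_2 : fv (decF L0) 2 = 1472 := by
  rw [cntI_spec_b inc0]; decide +kernel

set_option maxRecDepth 100000 in
theorem f0_3 : fv (decF L0) 3 = 1760 := by
  rw [cntI_spec_b inc0]; decide +kernel

set_option maxRecDepth 100000 in
theorem f0_4 : fv (decF L0) 4 = 704 := by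
  rw [cntI_spec_b inc0]; decide +kernel

theorem tor0 : Tor (decF L0) 32 448 where
  homeo := homeo0
  nonempty := by
    obtain ⟨l, hl⟩ := List.exists_mem_of_ne_nil V0 (by
      intro h
      have := len0
      rw [h] at this
      exact absurd this (by decide))
    rw [inc0.decF_eq]
    exact ⟨l.toFinset, by rw [List.mem_toFinset]; exact List.mem_map_of_mem hl⟩
  pure5 := inc0.card5
  pm := pm0
  range := by
    intro σ hσ v hv
    obtain ⟨m, hm, rfl⟩ := mem_decF.1 hσ
    exact Finset.mem_range.1 (Finset.mem_of_mem_filter v hv)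
  f0 := f0_0
  f1 := f0_1
  f2 := by rw [f0_2]
  f3 := by rw [f0_3]
  f4 := by rw [f0_4]

end Pool.Agent.Helper39.KT
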