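import Pool.Agent.Helper39.KT.Mask

/-!
# KT-13: a chain of 1-moves, and the marking, checked by the kernel

A chain is a list of (A, v, x): flip with B = {v, x}.  chainOK runs through it.
PROOF: Tor.move1 with flipOK_spec at each step (dec (2^v ||| 2^x) = {v, x}).
markOK w L K: K = [(T_1, x_1), ...] latest first; the last entry is the first tetrahedron.
-/

namespace Pool.Agent.Helper39.KT

open Finset

def chainOK : List ℕ → List (ℕ × ℕ × ℕ) → Bool
  | _, [] => true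
  | L, (A, v, x) :: r =>
    Nat.blt v 32 && Nat.blt x 32 && !(Nat.beq v x) &&
      flipOK L A (Nat.lor (2 ^ v) (2 ^ x)) &&
      chainOK (flipL L A (Nat.lor (2 ^ v) (2 ^ x))) r

def chainL : List ℕ → List (ℕ × ℕ × ℕ) → List ℕ
  | L, [] => L
  | L, (A, v, x) :: r => chainL (flipL L A (Nat.lor (2 ^ v) (2 ^ x))) r

private lemma chain_step {L : List ℕ} (hL : ∀ s ∈ L, s < 2 ^ 32) {A v x e : ℕ}
    {r : List (ℕ × ℕ × ℕ)} (h : Tor (decF L) 32 e) (hc : chainOK L ((A, v, x) :: r) = true) :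
    (∀ s ∈ flipL L A (Nat.lor (2 ^ v) (2 ^ x)), s < 2 ^ 32) ∧
      Tor (decF (flipL L A (Nat.lor (2 ^ v) (2 ^ x)))) 32 (e + 1) ∧
      chainOK (flipL L A (Nat.lor (2 ^ v) (2 ^ x))) r = true := by
  rw [chainOK] at hc
  simp only [Bool.and_eq_true] at hc
  obtain ⟨⟨⟨⟨hv, hx⟩, hvx⟩, hf⟩, hr⟩ := hc
  have hv' : v < 32 := Nat.blt_eq.mp hv
  have hx' : x < 32 := Nat.blt_eq.mp hx
  have hvx' : v ≠ x := by
    intro h0
    rw [h0] at hvx
    simp at hvx
  have h1 := flipOK_spec hL hf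
  have h2 : dec (Nat.lor (2 ^ v) (2 ^ x)) = {v, x} := by
    rw [dec_lor, dec_pow hv', dec_pow hx']
    rfl
  rw [h2] at h1
  exact ⟨flipL_lt hL hf, Tor.move1 h h1 hvx' hv' hx', hr⟩

theorem chain_final {L : List ℕ} {ch : List (ℕ × ℕ × ℕ)} (hL : ∀ s ∈ L, s < 2 ^ 32) {e : ℕ}
    (h : Tor (decF L) 32 e) (hc : chainOK L ch = true) :
    Tor (decF (chainL L ch)) 32 (e + ch.length) := by
  induction ch generalizing L e with
  | nil => simpa [chainL] using h
  | cons a r ih =>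
    obtain ⟨A, v, x⟩ := a
    obtain ⟨h1, h2, h3⟩ := chain_step hL h hc
    have h4 := ih h1 h2 h3
    have h5 : e + 1 + r.length = e + ((A, v, x) :: r).length := by
      rw [List.length_cons]
      omega
    rw [h5] at h4
    exact h4

theorem chain_all {L : List ℕ} {ch : List (ℕ × ℕ × ℕ)} (hL : ∀ s ∈ L, s < 2 ^ 32) {e : ℕ}
    (h : Tor (decF L) 32 e) (hc : chainOK L ch = true) {i : ℕ} (hi : i ≤ ch.length) :
    ∃ F, Tor F 32 (e + i) := by
  induction ch generalizing L e i with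
  | nil =>
    have h0 : i = 0 := Nat.le_zero.1 hi
    subst h0
    exact ⟨decF L, h⟩
  | cons a r ih =>
    obtain ⟨A, v, x⟩ := a
    rcases Nat.eq_zero_or_pos i with h0 | h0
    · subst h0
      exact ⟨decF L, h⟩
    · obtain ⟨h1, h2, h3⟩ := chain_step hL h hc
      rw [List.length_cons] at hi
      obtain ⟨F, hF⟩ := ih h1 h2 h3 (i := i - 1) (by omega)
      have h5 : e + 1 + (i - 1) = e + i := by omega
      rw [h5] at hF
      exact ⟨F, hF⟩

/-- K: list of (mask of the tetrahedron, its new vertex), latest first (the new vertex of the last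
entry, the first tetrahedron, is not used). -/
def stkOK : List (ℕ × ℕ) → Bool
  | [] => false
  | [(T, _)] => Nat.blt T (2 ^ 32) && Nat.beq (bitsOf T).length 4
  | (T, x) :: K =>
    Nat.blt T (2 ^ 32) && Nat.beq (bitsOf T).length 4 && T.testBit x && Nat.blt x 32 &&
      K.all (fun p => !(p.1.testBit x)) &&
      K.any (fun p => sub (Nat.xor T (2 ^ x)) p.1) && stkOK K

def markOK (L : List ℕ) (w : ℕ) (K : List (ℕ × ℕ)) : Bool :=
  stkOK K && Nat.blt w 32 && K.all (fun p => !(p.1.testBit w)) &&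
    K.all (fun p => L.any (fun s => Nat.beq s (Nat.lor (2 ^ w) p.1)))

private lemma mem_dec_c {m i : ℕ} : i ∈ dec m ↔ i < 32 ∧ m.testBit i = true := by
  rw [dec, Finset.mem_filter, Finset.mem_range]

private lemma dec_xor_c {T x : ℕ} (hx : T.testBit x = true) :
    dec (Nat.xor T (2 ^ x)) = (dec T).erase x := by
  ext i
  rw [mem_dec_c, Finset.mem_erase, mem_dec_c]
  change i < 32 ∧ (T ^^^ 2 ^ x).testBit i = true ↔ _
  rw [Nat.testBit_xor, Nat.testBit_two_pow]
  by_cases hi : x = i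
  · subst hi
    simp [hx]
  · have hi' : i ≠ x := fun h => hi h.symm
    simp [hi, hi']

private lemma stk_of : ∀ K : List (ℕ × ℕ), stkOK K = true → Stk (K.map (fun p => dec p.1))
  | [], h => by simp [stkOK] at h
  | [(T, y)], h => by
    simp only [stkOK, Bool.and_eq_true] at h
    refine Stk.one _ ?_
    rw [dec_card]
    exact Nat.eq_of_beq_eq_true h.2
  | (T, x) :: p :: K, h => by
    simp only [stkOK, Bool.and_eq_true] at h
    obtain ⟨⟨⟨⟨⟨⟨h1, h2⟩, h3⟩, h4⟩, h5⟩, h6⟩, h7⟩ := h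
    have hT : T < 2 ^ 32 := Nat.blt_eq.mp h1
    have hx : x < 32 := Nat.blt_eq.mp h4
    rw [List.map_cons]
    refine Stk.cons _ _ ?_ (stk_of (p :: K) h7) x (mem_dec_c.2 ⟨hx, h3⟩) ?_ ?_
    · rw [dec_card]
      exact Nat.eq_of_beq_eq_true h2
    · intro T' hT' hxT
      obtain ⟨q, hq, rfl⟩ := List.mem_map.1 hT'
      have h8 := List.all_eq_true.1 h5 q hq
      rw [(mem_dec_c.1 hxT).2] at h8
      simp at h8
    · obtain ⟨q, hq, h8⟩ := List.any_eq_true.1 h6
      refine ⟨dec q.1, List.mem_map.2 ⟨q, hq, rfl⟩, ?_⟩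
      have hlt : Nat.xor T (2 ^ x) < 2 ^ 32 :=
        Nat.xor_lt_two_pow hT (Nat.pow_lt_pow_right (by norm_num) hx)
      have h9 := (sub_iff hlt).1 h8
      rwa [dec_xor_c h3] at h9

theorem markOK_spec {L : List ℕ} {w : ℕ} {K : List (ℕ × ℕ)} (h : markOK L w K = true) {n : ℕ}
    (hn : K.length + 4 = n) : Marked (decF L) n w (K.map (fun p => dec p.1)) := by
  simp only [markOK, Bool.and_eq_true] at h
  obtain ⟨⟨⟨h1, h2⟩, h3⟩, h4⟩ := h
  have hw : w < 32 := Nat.blt_eq.mp h2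
  refine ⟨stk_of K h1, ?_, ?_, ?_⟩
  · intro T hT hwT
    obtain ⟨q, hq, rfl⟩ := List.mem_map.1 hT
    have h8 := List.all_eq_true.1 h3 q hq
    rw [(mem_dec_c.1 hwT).2] at h8
    simp at h8
  · intro T hT
    obtain ⟨q, hq, rfl⟩ := List.mem_map.1 hT
    obtain ⟨s, hs, h8⟩ := List.any_eq_true.1 (List.all_eq_true.1 h4 q hq)
    refine mem_decF.2 ⟨s, hs, ?_⟩
    rw [Nat.eq_of_beq_eq_true h8, dec_lor, dec_pow hw]
    rfl
  · rw [List.length_map]
    exact hn

end Pool.Agent.Helper39.KT
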