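import Pool.Agent.Helper39.KT.DDefs

/-!
# KT-7: basic identities for Delaunay data

All are short computations (expand, swap sums, sum_c, sum_g, rep_c, rep_g, delta; field_simp).
br_sum, br_rep: barycentric coordinates sum to one and represent the point.
br_delta: br k j (pos k i) = 1 or 0.   br_unique: if the w_j sum to one and represent y then
w_j = br k j y (br k j is affine, use delta).
br_aff: an affine function a + sum_l b_l y_l is the combination of its values at the vertices.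
Er_translate: the power of y with respect to the simplex k + N z, written with the translated
vertices, is Er k (y - N z) (bilinear expansion of Q, and br_sum, br_rep).
Er_nonpos: Q is convex: if all br k j y ≥ 0 then Er k y = - sum_j br k j y Q(pos k j - y) ≤ 0.
Er_vertex: Er k (pos k i) = 0 (delta).
cast lemmas: br and Er at integer points are bz / D and Ez / D.
-/

namespace Pool.Agent.Helper39.KT.DD

open Finset

variable {X : DD}

theorem br_sum (h : X.Good) (k : Fin X.m) (y : Fin 4 → ℝ) : ∑ j, X.br k j y = 1 := by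
  have hD : (X.D k : ℝ) ≠ 0 := by exact_mod_cast (h.D_pos k).ne'
  unfold br
  rw [← Finset.sum_div, div_eq_one_iff_eq hD, Finset.sum_add_distrib, Finset.sum_comm]
  have h1 : ∀ i, ∑ j, (X.g k j i : ℝ) * y i = 0 := by
    intro i
    rw [← Finset.sum_mul]
    have h2 : (∑ j, (X.g k j i : ℝ)) = 0 := by exact_mod_cast h.sum_g k i
    rw [h2, zero_mul]
  rw [Finset.sum_congr rfl (fun i _ => h1 i), Finset.sum_const_zero, add_zero]
  exact_mod_cast h.sum_c k

theorem br_rep (h : X.Good) (k : Fin X.m) (y : Fin 4 → ℝ) (l : Fin 4) :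
    ∑ j, X.br k j y * (X.pos k j l : ℝ) = y l := by
  have hD : (X.D k : ℝ) ≠ 0 := by exact_mod_cast (h.D_pos k).ne'
  have e1 : ∀ j, X.br k j y * (X.pos k j l : ℝ)
      = ((X.c k j : ℝ) * X.pos k j l + ∑ i, y i * ((X.g k j i : ℝ) * X.pos k j l)) / X.D k := by
    intro j
    unfold br
    rw [div_mul_eq_mul_div, add_mul, Finset.sum_mul]
    congr 2
    exact Finset.sum_congr rfl (fun i _ => by ring)
  rw [Finset.sum_congr rfl (fun j _ => e1 j), ← Finset.sum_div, div_eq_iff hD,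
    Finset.sum_add_distrib, Finset.sum_comm]
  have h0 : (∑ j, (X.c k j : ℝ) * X.pos k j l) = 0 := by exact_mod_cast h.rep_c k l
  have h1 : ∀ i, ∑ j, y i * ((X.g k j i : ℝ) * X.pos k j l)
      = y i * (if i = l then (X.D k : ℝ) else 0) := by
    intro i
    rw [← Finset.mul_sum]
    have h2 : (∑ j, (X.g k j i : ℝ) * X.pos k j l) = if i = l then (X.D k : ℝ) else 0 := by
      have := h.rep_g k i l
      by_cases hi : i = l
      · rw [if_pos hi] at this ⊢; exact_mod_cast this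
      · rw [if_neg hi] at this ⊢; exact_mod_cast this
    rw [h2]
  rw [h0, zero_add, Finset.sum_congr rfl (fun i _ => h1 i)]
  simp

theorem br_cast (X : DD) (k : Fin X.m) (j : Fin 5) (y : Fin 4 → ℤ) :
    X.br k j (cr y) = (X.bz k j y : ℝ) / X.D k := by
  unfold br bz cr
  push_cast
  rfl

/-- a linear form is the combination of its values at the vertices -/
theorem br_lin (h : X.Good) (k : Fin X.m) (y : Fin 4 → ℝ) (b : Fin 4 → ℝ) :
    ∑ j, X.br k j y * (∑ l, b l * (X.pos k j l : ℝ)) = ∑ l, b l * y l := by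
  have e1 : ∀ j, X.br k j y * (∑ l, b l * (X.pos k j l : ℝ))
      = ∑ l, b l * (X.br k j y * (X.pos k j l : ℝ)) := by
    intro j
    rw [Finset.mul_sum]
    exact Finset.sum_congr rfl (fun l _ => by ring)
  rw [Finset.sum_congr rfl (fun j _ => e1 j), Finset.sum_comm]
  refine Finset.sum_congr rfl (fun l _ => ?_)
  rw [← Finset.mul_sum, br_rep h]

theorem br_delta (h : X.Good) (k : Fin X.m) (j i : Fin 5) :
    X.br k j (cr (X.pos k i)) = if j = i then 1 else 0 := by
  have hD : (X.D k : ℝ) ≠ 0 := by exact_mod_cast (h.D_pos k).ne'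
  rw [br_cast, h.delta k j i]
  split_ifs
  · exact div_self hD
  · simp

theorem br_unique (h : X.Good) (k : Fin X.m) (w : Fin 5 → ℝ) (y : Fin 4 → ℝ)
    (h1 : ∑ j, w j = 1) (h2 : ∀ l, ∑ j, w j * (X.pos k j l : ℝ) = y l) (j : Fin 5) :
    X.br k j y = w j := by
  have e1 : X.br k j y = ∑ t, w t * X.br k j (cr (X.pos k t)) := by
    unfold br cr
    rw [← Finset.sum_congr rfl (fun t _ => (mul_div_assoc (w t) _ _)), ← Finset.sum_div]
    congr 1
    have e2 : ∀ t, w t * ((X.c k j : ℝ) + ∑ i, (X.g k j i : ℝ) * (X.pos k t i : ℝ))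
        = (X.c k j : ℝ) * w t + ∑ i, (X.g k j i : ℝ) * (w t * (X.pos k t i : ℝ)) := by
      intro t
      rw [mul_add, Finset.mul_sum]
      congr 1
      · ring
      · exact Finset.sum_congr rfl (fun i _ => by ring)
    rw [Finset.sum_congr rfl (fun t _ => e2 t), Finset.sum_add_distrib, ← Finset.mul_sum, h1,
      mul_one, Finset.sum_comm]
    congr 1
    refine Finset.sum_congr rfl (fun i _ => ?_)
    rw [← Finset.mul_sum, h2 i]
  rw [e1, Finset.sum_congr rfl (fun t _ => by rw [br_delta h])]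
  simp

theorem br_aff (h : X.Good) (k : Fin X.m) (z : Fin 4 → ℤ) (a : ℝ) (b : Fin 4 → ℝ)
    (y : Fin 4 → ℝ) :
    a + ∑ l, b l * y l
      = ∑ j, X.br k j (X.sh y z) * (a + ∑ l, b l * ((X.pos k j l : ℝ) + X.N * z l)) := by
  have e1 : ∀ j, X.br k j (X.sh y z) * (a + ∑ l, b l * ((X.pos k j l : ℝ) + X.N * z l))
      = (a + ∑ l, b l * (X.N * z l)) * X.br k j (X.sh y z)
        + X.br k j (X.sh y z) * (∑ l, b l * (X.pos k j l : ℝ)) := by
    intro j
    have e2 : (∑ l, b l * ((X.pos k j l : ℝ) + X.N * z l))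
        = (∑ l, b l * (X.pos k j l : ℝ)) + ∑ l, b l * (X.N * z l) := by
      rw [← Finset.sum_add_distrib]
      exact Finset.sum_congr rfl (fun l _ => by ring)
    rw [e2]
    ring
  rw [Finset.sum_congr rfl (fun j _ => e1 j), Finset.sum_add_distrib, ← Finset.mul_sum,
    br_sum h, br_lin h, mul_one, add_assoc, ← Finset.sum_add_distrib]
  congr 1
  refine Finset.sum_congr rfl (fun l _ => ?_)
  unfold sh
  ring

/-- br is an affine function of y, also after translation -/
theorem br_form (X : DD) (k : Fin X.m) (j : Fin 5) (z : Fin 4 → ℤ) :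
    ∃ (a : ℝ) (b : Fin 4 → ℝ), ∀ y, X.br k j (X.sh y z) = a + ∑ l, b l * y l := by
  refine ⟨((X.c k j : ℝ) - ∑ i, (X.g k j i : ℝ) * (X.N * z i)) / X.D k,
    fun l => (X.g k j l : ℝ) / X.D k, fun y => ?_⟩
  unfold br sh
  have e1 : (∑ l, (X.g k j l : ℝ) / X.D k * y l) = (∑ l, (X.g k j l : ℝ) * y l) / X.D k := by
    rw [Finset.sum_div]
    exact Finset.sum_congr rfl (fun l _ => by ring)
  have e2 : (∑ i, (X.g k j i : ℝ) * (y i - X.N * z i))
      = (∑ i, (X.g k j i : ℝ) * y i) - ∑ i, (X.g k j i : ℝ) * (X.N * z i) := by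
    rw [← Finset.sum_sub_distrib]
    exact Finset.sum_congr rfl (fun i _ => by ring)
  rw [e1, e2]
  ring

/-- the power as a sum of squares with weights -/
theorem Qr_sub (h : X.Good) (k : Fin X.m) (y t : Fin 4 → ℝ) :
    X.Qr (fun l => y l + t l) - ∑ j, X.br k j y * X.Qr (fun l => (X.pos k j l : ℝ) + t l)
      = - ∑ r, ∑ j, X.br k j y
          * (∑ i, (X.q r i : ℝ) * (X.pos k j i : ℝ) - ∑ i, (X.q r i : ℝ) * y i) ^ 2 := by
  unfold Qr
  have e0 : ∀ j, X.br k j y * (∑ r, (∑ i, (X.q r i : ℝ) * ((X.pos k j i : ℝ) + t i)) ^ 2)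
      = ∑ r, X.br k j y * (∑ i, (X.q r i : ℝ) * ((X.pos k j i : ℝ) + t i)) ^ 2 := by
    intro j
    rw [Finset.mul_sum]
  rw [Finset.sum_congr rfl (fun j _ => e0 j), Finset.sum_comm, ← Finset.sum_sub_distrib,
    ← Finset.sum_neg_distrib]
  refine Finset.sum_congr rfl (fun r _ => ?_)
  set b : Fin 4 → ℝ := fun i => (X.q r i : ℝ) with hb
  have hl : ∑ j, X.br k j y * (∑ i, b i * (X.pos k j i : ℝ)) = ∑ i, b i * y i := br_lin h k y b
  have hs := br_sum h k y
  set T : ℝ := ∑ i, b i * t i with hT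
  set Y : ℝ := ∑ i, b i * y i with hY
  have e1 : (∑ i, b i * (y i + t i)) = Y + T := by
    rw [hY, hT, ← Finset.sum_add_distrib]
    exact Finset.sum_congr rfl (fun i _ => by ring)
  have e2 : ∀ j, (∑ i, b i * ((X.pos k j i : ℝ) + t i))
      = (∑ i, b i * (X.pos k j i : ℝ)) + T := by
    intro j
    rw [hT, ← Finset.sum_add_distrib]
    exact Finset.sum_congr rfl (fun i _ => by ring)
  have e3 : ∀ j, X.br k j y * (∑ i, b i * ((X.pos k j i : ℝ) + t i)) ^ 2
      = X.br k j y * ((∑ i, b i * (X.pos k j i : ℝ)) - Y) ^ 2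
        + (2 * (Y + T)) * (X.br k j y * (∑ i, b i * (X.pos k j i : ℝ)))
        + (T ^ 2 - Y ^ 2) * X.br k j y := by
    intro j
    rw [e2]
    ring
  rw [e1, Finset.sum_congr rfl (fun j _ => e3 j), Finset.sum_add_distrib, Finset.sum_add_distrib,
    ← Finset.mul_sum, ← Finset.mul_sum, hl, hs]
  ring

theorem Er_eq (h : X.Good) (k : Fin X.m) (y : Fin 4 → ℝ) :
    X.Er k y = - ∑ r, ∑ j, X.br k j y
          * (∑ i, (X.q r i : ℝ) * (X.pos k j i : ℝ) - ∑ i, (X.q r i : ℝ) * y i) ^ 2 := by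
  rw [← Qr_sub h k y (fun _ => 0)]
  simp only [add_zero]
  rfl

theorem Er_translate (h : X.Good) (k : Fin X.m) (z : Fin 4 → ℤ) (y : Fin 4 → ℝ) :
    X.Er k (X.sh y z)
      = X.Qr y - ∑ j, X.br k j (X.sh y z) * X.Qr (fun l => (X.pos k j l : ℝ) + X.N * z l) := by
  rw [Er_eq h, ← Qr_sub h k (X.sh y z) (fun l => X.N * z l)]
  congr 2
  funext l
  unfold sh
  ring

theorem Er_nonpos (h : X.Good) (k : Fin X.m) (y : Fin 4 → ℝ) (hy : ∀ j, 0 ≤ X.br k j y) :
    X.Er k y ≤ 0 := by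
  rw [Er_eq h, neg_nonpos]
  exact Finset.sum_nonneg (fun r _ => Finset.sum_nonneg (fun j _ =>
    mul_nonneg (hy j) (sq_nonneg _)))

theorem Er_vertex (h : X.Good) (k : Fin X.m) (i : Fin 5) : X.Er k (cr (X.pos k i)) = 0 := by
  unfold Er
  rw [Finset.sum_congr rfl (fun j _ => by rw [br_delta h])]
  simp

theorem Er_cast (h : X.Good) (k : Fin X.m) (y : Fin 4 → ℤ) :
    X.Er k (cr y) = (X.Ez k y : ℝ) / X.D k := by
  have hD : (X.D k : ℝ) ≠ 0 := by exact_mod_cast (h.D_pos k).ne'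
  have hQ : ∀ u : Fin 4 → ℤ, X.Qr (cr u) = (X.Qz u : ℝ) := by
    intro u
    unfold Qr Qz cr
    push_cast
    rfl
  unfold Er Ez
  rw [eq_div_iff hD, sub_mul, Finset.sum_mul, hQ]
  push_cast
  rw [mul_comm (X.Qz y : ℝ)]
  congr 1
  refine Finset.sum_congr rfl (fun j _ => ?_)
  rw [br_cast, hQ]
  field_simp

theorem br_cast_nonneg (h : X.Good) (k : Fin X.m) (j : Fin 5) (y : Fin 4 → ℤ) :
    0 ≤ X.br k j (cr y) ↔ 0 ≤ X.bz k j y := by
  have hD : (0 : ℝ) < (X.D k : ℝ) := by exact_mod_cast h.D_pos k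
  rw [br_cast, le_div_iff₀ hD, zero_mul]
  exact_mod_cast Iff.rfl

theorem sh_cr (X : DD) (y z : Fin 4 → ℤ) : X.sh (cr y) z = cr (fun l => y l - X.N * z l) := by
  funext l
  unfold sh cr
  push_cast
  rfl

end Pool.Agent.Helper39.KT.DD
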