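import Pool.Agent.Helper39.KT.MaskFb

/-!
# KT-14a: ridge condition; the definitions are in MaskD, the face count in MaskFb
-/

namespace Pool.Agent.Helper39.KT

open Finset

theorem Inc.lt {V : List (List ℕ)} {L I : List ℕ} (h : Inc V L I) : ∀ s ∈ L, s < 2 ^ 32 := by
  intro s hs
  rw [← h.l] at hs
  obtain ⟨l, hl, rfl⟩ := List.mem_map.1 hs
  apply Nat.lt_pow_two_of_testBit
  intro i hi
  rw [msk_testBit_b]
  simp only [decide_eq_false_iff_not]
  intro hil
  have := (vOK_spec_b h.v hl).1 i hil
  omega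

theorem Inc.nodup_a {V : List (List ℕ)} {L I : List ℕ} (h : Inc V L I) {l : List ℕ}
    (hl : l ∈ V) : l.Nodup :=
  (List.isChain_iff_pairwise.1 (nodup_of_incr_b l (vOK_spec_b h.v hl).2)).imp
    (fun h => ne_of_lt h)

theorem Inc.len_a {V : List (List ℕ)} {L I : List ℕ} (h : Inc V L I) {l : List ℕ}
    (hl : l ∈ V) : l.length = 5 := by
  have h1 := h.v
  unfold vOK at h1
  rw [List.all_eq_true] at h1
  have := h1 l hl
  simp only [Bool.and_eq_true] at this
  exact Nat.eq_of_beq_eq_true this.1.1

theorem Inc.dec_msk {V : List (List ℕ)} {L I : List ℕ} (h : Inc V L I) :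
    ∀ l ∈ V, dec (msk l) = l.toFinset :=
  dec_msk_b h

theorem Inc.decF_eq {V : List (List ℕ)} {L I : List ℕ} (h : Inc V L I) :
    decF L = (V.map List.toFinset).toFinset :=
  decF_eq_b h

theorem Inc.card5 {V : List (List ℕ)} {L I : List ℕ} (h : Inc V L I) :
    ∀ σ ∈ decF L, σ.card = 5 := by
  intro σ hσ
  rw [h.decF_eq, List.mem_toFinset] at hσ
  obtain ⟨l, hl, rfl⟩ := List.mem_map.1 hσ
  rw [List.toFinset_card_of_nodup (h.nodup_a hl), h.len_a hl]

theorem foldl_land_a (g : ℕ → ℕ) (j : ℕ) : ∀ (r : List ℕ) (full : ℕ),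
    (List.foldl Nat.land full (r.map g)).testBit j = true ↔
      (full.testBit j = true ∧ ∀ v ∈ r, (g v).testBit j = true)
  | [], full => by simp
  | a :: r, full => by
    have h1 : List.foldl Nat.land full ((a :: r).map g) =
        List.foldl Nat.land (Nat.land full (g a)) (r.map g) := rfl
    have h2 : (Nat.land full (g a)).testBit j = (full.testBit j && (g a).testBit j) :=
      Nat.testBit_and full (g a) j
    rw [h1, foldl_land_a g j r, h2]
    simp only [Bool.and_eq_true, List.mem_cons, forall_eq_or_imp]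
    tauto

theorem pmC_spec_a (g : ℕ → ℕ) (full p : ℕ) : ∀ (r : List ℕ) (acc : ℕ) (nbs : List ℕ),
    r.Nodup → pmC full p acc (r.map g) nbs = true → ∀ y ∈ r, ∃ nb, p ≠ 2 ^ nb ∧
      ∀ j, (p ||| 2 ^ nb).testBit j = true ↔
        (acc.testBit j = true ∧ full.testBit j = true ∧
          ∀ v ∈ r, v ≠ y → (g v).testBit j = true)
  | [], _, _, _, _, y, hy => by simp at hy
  | a :: r, acc, [], _, h, _, _ => by simp [pmC] at h
  | a :: r, acc, nb :: rn, hn, h, y, hy => by
    have hh : (Nat.beq (Nat.land acc (List.foldl Nat.land full (r.map g)))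
        (Nat.lor p (Nat.pow 2 nb)) = true ∧ (!(Nat.beq p (Nat.pow 2 nb))) = true) ∧
        pmC full p (Nat.land acc (g a)) (r.map g) rn = true := by
      have h' : (Nat.beq (Nat.land acc (List.foldl Nat.land full (r.map g)))
        (Nat.lor p (Nat.pow 2 nb)) && !(Nat.beq p (Nat.pow 2 nb)) &&
          pmC full p (Nat.land acc (g a)) (r.map g) rn) = true := h
      simpa only [Bool.and_eq_true] using h'
    have har : a ∉ r := (List.nodup_cons.1 hn).1
    by_cases hya : y = a
    · subst hya
      refine ⟨nb, ?_, fun j => ?_⟩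
      · intro hp
        have h1 := hh.1.2
        have h2 : Nat.beq p (Nat.pow 2 nb) = true := by
          rw [hp]; exact Nat.beq_refl _
        rw [h2] at h1
        simp at h1
      · have h3 : Nat.land acc (List.foldl Nat.land full (r.map g)) = (p ||| 2 ^ nb) :=
          Nat.eq_of_beq_eq_true hh.1.1
        rw [← h3]
        have h4 : (Nat.land acc (List.foldl Nat.land full (r.map g))).testBit j =
            (acc.testBit j && (List.foldl Nat.land full (r.map g)).testBit j) :=
          Nat.testBit_and _ _ j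
        rw [h4, Bool.and_eq_true, foldl_land_a]
        constructor
        · rintro ⟨h5, h6, h7⟩
          refine ⟨h5, h6, fun v hv hvy => ?_⟩
          rcases List.mem_cons.1 hv with h8 | h8
          · exact absurd h8 hvy
          · exact h7 v h8
        · rintro ⟨h5, h6, h7⟩
          refine ⟨h5, h6, fun v hv => h7 v (List.mem_cons_of_mem _ hv) ?_⟩
          intro h8
          rw [h8] at hv
          exact har hv
    · have hyr : y ∈ r := by
        rcases List.mem_cons.1 hy with h1 | h1
        · exact absurd h1 hya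
        · exact h1
      obtain ⟨nb', h1, h2⟩ := pmC_spec_a g full p r (Nat.land acc (g a)) rn
        (List.nodup_cons.1 hn).2 hh.2 y hyr
      refine ⟨nb', h1, fun j => ?_⟩
      rw [h2 j]
      have h3 : (Nat.land acc (g a)).testBit j = (acc.testBit j && (g a).testBit j) :=
        Nat.testBit_and _ _ j
      rw [h3, Bool.and_eq_true]
      constructor
      · rintro ⟨⟨h5, h5'⟩, h6, h7⟩
        refine ⟨h5, h6, fun v hv hvy => ?_⟩
        rcases List.mem_cons.1 hv with h8 | h8
        · rw [h8]; exact h5'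
        · exact h7 v h8 hvy
      · rintro ⟨h5, h6, h7⟩
        exact ⟨⟨h5, h7 a List.mem_cons_self (Ne.symm hya)⟩, h6,
          fun v hv hvy => h7 v (List.mem_cons_of_mem _ hv) hvy⟩

theorem pmI_get_a (I : List ℕ) (full : ℕ) : ∀ (R NB : List (List ℕ)) (p : ℕ),
    pmI I full p R NB = true → ∀ i, (h : i < R.length) →
      ∃ nbs, pmC full (p * 2 ^ i) full ((R[i]).map (fun v => I.getD v 0)) nbs = true
  | [], _, _, _, i, h => by simp at h
  | l :: R, [], _, hh, _, _ => by simp [pmI] at hh
  | l :: R, nb :: NB, p, hh, i, h => by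
    have h1 : pmC full p full (l.map (fun v => I.getD v 0)) nb = true ∧
        pmI I full (Nat.mul 2 p) R NB = true := by
      have h' : (pmC full p full (l.map (fun v => I.getD v 0)) nb &&
        pmI I full (Nat.mul 2 p) R NB) = true := hh
      simpa only [Bool.and_eq_true] using h'
    cases i with
    | zero => exact ⟨nb, by simpa using h1.1⟩
    | succ i =>
      obtain ⟨nbs, h2⟩ := pmI_get_a I full R NB (Nat.mul 2 p) h1.2 i (by simpa using h)
      refine ⟨nbs, ?_⟩
      have h3 : Nat.mul 2 p * 2 ^ i = p * 2 ^ (i + 1) := by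
        show 2 * p * 2 ^ i = p * 2 ^ (i + 1)
        ring
      rw [h3] at h2
      simpa using h2

theorem Inc.inj_a {V : List (List ℕ)} {L I : List ℕ} (h : Inc V L I) {i j : ℕ}
    (hi : i < V.length) (hj : j < V.length) (he : (V[i]).toFinset = (V[j]).toFinset) :
    i = j := by
  have h1 : msk V[i] = msk V[j] := by
    apply Nat.eq_of_testBit_eq
    intro v
    rw [msk_testBit_b, msk_testBit_b]
    have : v ∈ V[i] ↔ v ∈ V[j] := by
      rw [← List.mem_toFinset, he, List.mem_toFinset]
    simp [this]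
  have hnd : L.Nodup :=
    (List.isChain_iff_pairwise.1 (nodup_of_incr_b L h.incr)).imp (fun h => ne_of_lt h)
  have hLi : i < L.length := by rw [← h.l, List.length_map]; exact hi
  have hLj : j < L.length := by rw [← h.l, List.length_map]; exact hj
  have h2 : L[i] = L[j] := by
    have e1 : L[i] = msk V[i] := by simp [← h.l]
    have e2 : L[j] = msk V[j] := by simp [← h.l]
    rw [e1, e2, h1]
  exact (List.Nodup.getElem_inj_iff hnd).1 h2

theorem pmI_spec {V : List (List ℕ)} {L I : List ℕ} (h : Inc V L I) {NB : List (List ℕ)}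
    (hp : pmI I (2 ^ V.length - 1) 1 V NB = true) : PM (decF L) := by
  intro σ hσ y hy
  rw [h.decF_eq] at hσ ⊢
  rw [List.mem_toFinset] at hσ
  obtain ⟨l, hl, rfl⟩ := List.mem_map.1 hσ
  obtain ⟨k, hk, rfl⟩ := List.getElem_of_mem hl
  obtain ⟨nbs, h1⟩ := pmI_get_a I _ V NB 1 hp k hk
  rw [one_mul] at h1
  have hyl : y ∈ V[k] := List.mem_toFinset.1 hy
  obtain ⟨nb, h2, h3⟩ := pmC_spec_a (fun v => I.getD v 0) _ _ _ _ _ (h.nodup_a hl) h1 y hyl
  have hkn : k ≠ nb := fun e => h2 (by rw [e])
  have h4 : ∀ j, ((j < V.length) ∧ ∀ v ∈ V[k], v ≠ y → (I.getD v 0).testBit j = true) ↔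
      (j = k ∨ j = nb) := by
    intro j
    have h5 := h3 j
    rw [Nat.testBit_or, Nat.testBit_two_pow, Nat.testBit_two_pow,
      Nat.testBit_two_pow_sub_one] at h5
    simp only [Bool.or_eq_true, decide_eq_true_eq] at h5
    constructor
    · rintro ⟨h6, h7⟩
      rcases h5.2 ⟨h6, h6, h7⟩ with h8 | h8
      · exact Or.inl h8.symm
      · exact Or.inr h8.symm
    · intro h6
      have h7 := h5.1 (by rcases h6 with h6 | h6; exacts [Or.inl h6.symm, Or.inr h6.symm])
      exact ⟨h7.1, h7.2.2⟩
  have key : ∀ j, (hj : j < V.length) →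
      ((∀ v ∈ V[k], v ≠ y → (I.getD v 0).testBit j = true) ↔
        (V[k]).toFinset.erase y ⊆ (V[j]).toFinset) := by
    intro j hj
    have hLj : L[j]? = some (msk V[j]) := by
      rw [← h.l, List.getElem?_map, List.getElem?_eq_getElem hj]; rfl
    have hbit : ∀ v ∈ V[k], ((I.getD v 0).testBit j = true ↔ v ∈ V[j]) := by
      intro v hv
      rw [h.getD_testBit_b ((vOK_spec_b h.v hl).1 v hv), hLj]
      simp only [Option.map_some, Option.getD_some, msk_testBit_b, decide_eq_true_eq]
    constructor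
    · intro h6 v hv
      rw [Finset.mem_erase, List.mem_toFinset] at hv
      rw [List.mem_toFinset]
      exact (hbit v hv.2).1 (h6 v hv.2 hv.1)
    · intro h6 v hv hvy
      rw [hbit v hv]
      exact List.mem_toFinset.1 (h6 (Finset.mem_erase.2 ⟨hvy, List.mem_toFinset.2 hv⟩))
  have hnb : nb < V.length := ((h4 nb).2 (Or.inr rfl)).1
  have hset : ((V.map List.toFinset).toFinset).filter
      (fun τ => (V[k]).toFinset.erase y ⊆ τ) = {(V[k]).toFinset, (V[nb]).toFinset} := by
    ext τ
    simp only [Finset.mem_filter, List.mem_toFinset, List.mem_map, Finset.mem_insert,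
      Finset.mem_singleton]
    constructor
    · rintro ⟨⟨q, hq, rfl⟩, hsub⟩
      obtain ⟨j, hj, rfl⟩ := List.getElem_of_mem hq
      rcases (h4 j).1 ⟨hj, (key j hj).2 hsub⟩ with h5 | h5
      · subst h5; exact Or.inl rfl
      · subst h5; exact Or.inr rfl
    · rintro (rfl | rfl)
      · exact ⟨⟨_, hl, rfl⟩, Finset.erase_subset _ _⟩
      · exact ⟨⟨_, List.getElem_mem hnb, rfl⟩,
          (key nb hnb).1 ((h4 nb).2 (Or.inr rfl)).2⟩
  rw [hset]
  apply Finset.card_pair
  intro he
  exact hkn (h.inj_a hk hnb he)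

theorem cntI_spec {V : List (List ℕ)} {L I : List ℕ} (h : Inc V L I) (i : ℕ) :
    fv (decF L) i = cntI I (2 ^ V.length - 1) i 1 V :=
  cntI_spec_b h i

end Pool.Agent.Helper39.KT
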