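import Pool.Agent.Helper39.KT.DDefs
import Pool.Agent.Helper39.KT.MaskF

/-!
# Kernel check of Delaunay data (project KT)

All numbers are natural; functionals are stored with offsets (π.M for the linear coefficients,
π.Mc for the constants, π.MA, π.MB for the interpolation of Q).
-/

namespace Pool.Agent.Helper39.KT

structure V4 where
  a : ℕ
  b : ℕ
  c : ℕ
  d : ℕ

structure T5 (α : Type) where
  p0 : α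
  p1 : α
  p2 : α
  p3 : α
  p4 : α

def V4.f (x : V4) : Fin 4 → ℕ
  | 0 => x.a
  | 1 => x.b
  | 2 => x.c
  | 3 => x.d

def T5.f {α : Type} (x : T5 α) : Fin 5 → α
  | 0 => x.p0
  | 1 => x.p1
  | 2 => x.p2
  | 3 => x.p3
  | 4 => x.p4

def V4.sum (x : V4) : ℕ := Nat.add (Nat.add x.a x.b) (Nat.add x.c x.d)

def V4.dot (x y : V4) : ℕ :=
  Nat.add (Nat.add (Nat.mul x.a y.a) (Nat.mul x.b y.b)) (Nat.add (Nat.mul x.c y.c) (Nat.mul x.d y.d))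

/-- parameters: lattice N, offsets, table P of the positions, table Z of the displacements
(Z_u = sum over v of 256^v * (code of (u,v)), code = four fields of two bits, displacement + 1) -/
structure Par where
  N : ℕ
  M : ℕ
  Mc : ℕ
  MA : ℕ
  MB : ℕ
  P : List V4
  Z : List ℕ
  I : List ℕ

/-- one simplex: labels v, lattice parts z, for each j the opposite label o and its lattice part w,
determinant D, functionals g, c (with offset), interpolation A, B of Q (with offset), bounding box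
lo, hi -/
structure Rc where
  v : T5 ℕ
  z : T5 V4
  o : T5 ℕ
  w : T5 V4
  D : ℕ
  g : T5 V4
  c : T5 ℕ
  A : V4
  B : ℕ
  lo : V4
  hi : V4

/-- position of the vertex with label v and lattice part z -/
def ps (π : Par) (v : ℕ) (z : V4) : V4 :=
  ⟨Nat.add (π.P.getD v ⟨0, 0, 0, 0⟩).a (Nat.mul π.N z.a),
   Nat.add (π.P.getD v ⟨0, 0, 0, 0⟩).b (Nat.mul π.N z.b),
   Nat.add (π.P.getD v ⟨0, 0, 0, 0⟩).c (Nat.mul π.N z.c),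
   Nat.add (π.P.getD v ⟨0, 0, 0, 0⟩).d (Nat.mul π.N z.d)⟩

def Rc.x (π : Par) (r : Rc) : T5 V4 :=
  ⟨ps π r.v.p0 r.z.p0, ps π r.v.p1 r.z.p1, ps π r.v.p2 r.z.p2, ps π r.v.p3 r.z.p3,
   ps π r.v.p4 r.z.p4⟩

def Rc.y (π : Par) (r : Rc) : T5 V4 :=
  ⟨ps π r.o.p0 r.w.p0, ps π r.o.p1 r.w.p1, ps π r.o.p2 r.w.p2, ps π r.o.p3 r.w.p3,
   ps π r.o.p4 r.w.p4⟩

def Qn (x : V4) : ℕ :=
  Nat.add (Nat.add (Nat.pow (Nat.add x.a (Nat.add x.b x.c)) 2) (Nat.pow (Nat.add x.a x.d) 2))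
    (Nat.add (Nat.pow (Nat.add x.b x.d) 2) (Nat.pow x.c 2))

/-- functional plus offset -/
def ev (g : V4) (c : ℕ) (y : V4) : ℕ := Nat.add c (V4.dot g y)

def of (π : Par) (y : V4) : ℕ := Nat.add π.Mc (Nat.mul π.M (V4.sum y))

def row (π : Par) (g : V4) (c : ℕ) (x : T5 V4) (e0 e1 e2 e3 e4 : ℕ) : Bool :=
  Nat.beq (ev g c x.p0) (Nat.add (of π x.p0) e0) && Nat.beq (ev g c x.p1) (Nat.add (of π x.p1) e1) &&
  Nat.beq (ev g c x.p2) (Nat.add (of π x.p2) e2) && Nat.beq (ev g c x.p3) (Nat.add (of π x.p3) e3) &&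
  Nat.beq (ev g c x.p4) (Nat.add (of π x.p4) e4)

def cDelta (π : Par) (r : Rc) : Bool :=
  row π r.g.p0 r.c.p0 (r.x π) r.D 0 0 0 0 && row π r.g.p1 r.c.p1 (r.x π) 0 r.D 0 0 0 &&
  row π r.g.p2 r.c.p2 (r.x π) 0 0 r.D 0 0 && row π r.g.p3 r.c.p3 (r.x π) 0 0 0 r.D 0 &&
  row π r.g.p4 r.c.p4 (r.x π) 0 0 0 0 r.D

def s5 (x0 x1 x2 x3 x4 : ℕ) : ℕ := Nat.add (Nat.add (Nat.add x0 x1) (Nat.add x2 x3)) x4

def d5 (a0 a1 a2 a3 a4 x0 x1 x2 x3 x4 : ℕ) : ℕ :=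
  s5 (Nat.mul a0 x0) (Nat.mul a1 x1) (Nat.mul a2 x2) (Nat.mul a3 x3) (Nat.mul a4 x4)

def cSum (π : Par) (r : Rc) : Bool :=
  Nat.beq (s5 r.c.p0 r.c.p1 r.c.p2 r.c.p3 r.c.p4) (Nat.add (Nat.mul 5 π.Mc) r.D) &&
  Nat.beq (s5 r.g.p0.a r.g.p1.a r.g.p2.a r.g.p3.a r.g.p4.a) (Nat.mul 5 π.M) &&
  Nat.beq (s5 r.g.p0.b r.g.p1.b r.g.p2.b r.g.p3.b r.g.p4.b) (Nat.mul 5 π.M) &&
  Nat.beq (s5 r.g.p0.c r.g.p1.c r.g.p2.c r.g.p3.c r.g.p4.c) (Nat.mul 5 π.M) &&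
  Nat.beq (s5 r.g.p0.d r.g.p1.d r.g.p2.d r.g.p3.d r.g.p4.d) (Nat.mul 5 π.M)

/-- coefficients a_j (offset m) against the coordinate x_j: sum (a_j - m) x_j = e -/
def rp (m a0 a1 a2 a3 a4 x0 x1 x2 x3 x4 e : ℕ) : Bool :=
  Nat.beq (d5 a0 a1 a2 a3 a4 x0 x1 x2 x3 x4) (Nat.add (Nat.mul m (s5 x0 x1 x2 x3 x4)) e)

def rp4 (m a0 a1 a2 a3 a4 : ℕ) (x : T5 V4) (e0 e1 e2 e3 : ℕ) : Bool :=
  rp m a0 a1 a2 a3 a4 x.p0.a x.p1.a x.p2.a x.p3.a x.p4.a e0 &&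
  rp m a0 a1 a2 a3 a4 x.p0.b x.p1.b x.p2.b x.p3.b x.p4.b e1 &&
  rp m a0 a1 a2 a3 a4 x.p0.c x.p1.c x.p2.c x.p3.c x.p4.c e2 &&
  rp m a0 a1 a2 a3 a4 x.p0.d x.p1.d x.p2.d x.p3.d x.p4.d e3

def cRep (π : Par) (r : Rc) : Bool :=
  rp4 π.Mc r.c.p0 r.c.p1 r.c.p2 r.c.p3 r.c.p4 (r.x π) 0 0 0 0 &&
  rp4 π.M r.g.p0.a r.g.p1.a r.g.p2.a r.g.p3.a r.g.p4.a (r.x π) r.D 0 0 0 &&
  rp4 π.M r.g.p0.b r.g.p1.b r.g.p2.b r.g.p3.b r.g.p4.b (r.x π) 0 r.D 0 0 &&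
  rp4 π.M r.g.p0.c r.g.p1.c r.g.p2.c r.g.p3.c r.g.p4.c (r.x π) 0 0 r.D 0 &&
  rp4 π.M r.g.p0.d r.g.p1.d r.g.p2.d r.g.p3.d r.g.p4.d (r.x π) 0 0 0 r.D

/-- A, B interpolate Q: sum_j (g_j - M) Q_j = A - MA etc. -/
def ip (m mA a0 a1 a2 a3 a4 q0 q1 q2 q3 q4 A : ℕ) : Bool :=
  Nat.beq (Nat.add (d5 a0 a1 a2 a3 a4 q0 q1 q2 q3 q4) mA) (Nat.add (Nat.mul m (s5 q0 q1 q2 q3 q4)) A)

def cIp' (π : Par) (r : Rc) (q0 q1 q2 q3 q4 : ℕ) : Bool :=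
  ip π.Mc π.MB r.c.p0 r.c.p1 r.c.p2 r.c.p3 r.c.p4 q0 q1 q2 q3 q4 r.B &&
  ip π.M π.MA r.g.p0.a r.g.p1.a r.g.p2.a r.g.p3.a r.g.p4.a q0 q1 q2 q3 q4 r.A.a &&
  ip π.M π.MA r.g.p0.b r.g.p1.b r.g.p2.b r.g.p3.b r.g.p4.b q0 q1 q2 q3 q4 r.A.b &&
  ip π.M π.MA r.g.p0.c r.g.p1.c r.g.p2.c r.g.p3.c r.g.p4.c q0 q1 q2 q3 q4 r.A.c &&
  ip π.M π.MA r.g.p0.d r.g.p1.d r.g.p2.d r.g.p3.d r.g.p4.d q0 q1 q2 q3 q4 r.A.d

def cIp (π : Par) (r : Rc) : Bool :=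
  cIp' π r (Qn (r.x π).p0) (Qn (r.x π).p1) (Qn (r.x π).p2) (Qn (r.x π).p3) (Qn (r.x π).p4)

/-- the power of y is positive -/
def pw (π : Par) (r : Rc) (y : V4) : Bool :=
  Nat.blt (Nat.add r.B (V4.dot r.A y))
    (Nat.add (Nat.add (Nat.mul r.D (Qn y)) π.MB) (Nat.mul π.MA (V4.sum y)))

/-- the displacement from (u, z) to (v, w) is the one of the table, n = code of (u, v) -/
def dz' (n : ℕ) (z w : V4) : Bool :=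
  Nat.beq (Nat.add z.a (Nat.land n 3)) (Nat.add w.a 1) &&
  Nat.beq (Nat.add z.b (Nat.land (Nat.shiftRight n 2) 3)) (Nat.add w.b 1) &&
  Nat.beq (Nat.add z.c (Nat.land (Nat.shiftRight n 4) 3)) (Nat.add w.c 1) &&
  Nat.beq (Nat.add z.d (Nat.land (Nat.shiftRight n 6) 3)) (Nat.add w.d 1)

def code (π : Par) (u v : ℕ) : ℕ := Nat.shiftRight (π.Z.getD u 0) (Nat.mul 8 v)

def dz (π : Par) (u : ℕ) (z : V4) (v : ℕ) (w : V4) : Bool := dz' (code π u v) z w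

/-- the same for unordered pairs -/
def dzs (π : Par) (u : ℕ) (z : V4) (v : ℕ) (w : V4) : Bool :=
  cond (Nat.blt u v) (dz π u z v w) (dz π v w u z)

/-- labels increasing and below 32, displacements as in the table -/
def cLab (π : Par) (r : Rc) : Bool :=
  Nat.blt r.v.p0 r.v.p1 && Nat.blt r.v.p1 r.v.p2 && Nat.blt r.v.p2 r.v.p3 &&
  Nat.blt r.v.p3 r.v.p4 && Nat.blt r.v.p4 32 &&
  dz π r.v.p0 r.z.p0 r.v.p1 r.z.p1 && dz π r.v.p0 r.z.p0 r.v.p2 r.z.p2 &&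
  dz π r.v.p0 r.z.p0 r.v.p3 r.z.p3 && dz π r.v.p0 r.z.p0 r.v.p4 r.z.p4 &&
  dz π r.v.p1 r.z.p1 r.v.p2 r.z.p2 && dz π r.v.p1 r.z.p1 r.v.p3 r.z.p3 &&
  dz π r.v.p1 r.z.p1 r.v.p4 r.z.p4 && dz π r.v.p2 r.z.p2 r.v.p3 r.z.p3 &&
  dz π r.v.p2 r.z.p2 r.v.p4 r.z.p4 && dz π r.v.p3 r.z.p3 r.v.p4 r.z.p4

/-- one neighbour: ridge with labels v1 .. v4, lattice parts z1 .. z4, opposite vertex o, w, at y,
functional g, c of the vertex which is replaced -/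
def nb1 (π : Par) (r : Rc) (v1 v2 v3 v4 : ℕ) (z1 z2 z3 z4 : V4) (o : ℕ) (w y : V4) (g : V4) (c : ℕ) :
    Bool :=
  Nat.blt o 32 &&
  !(Nat.beq (Nat.land (Nat.land (Nat.land (π.I.getD v1 0) (π.I.getD v2 0))
    (Nat.land (π.I.getD v3 0) (π.I.getD v4 0))) (π.I.getD o 0)) 0) &&
  !(Nat.beq o v1) && !(Nat.beq o v2) && !(Nat.beq o v3) && !(Nat.beq o v4) &&
  dzs π v1 z1 o w && dzs π v2 z2 o w && dzs π v3 z3 o w && dzs π v4 z4 o w &&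
  Nat.blt (ev g c y) (of π y) && pw π r y

def cNb (π : Par) (r : Rc) : Bool :=
  nb1 π r r.v.p1 r.v.p2 r.v.p3 r.v.p4 r.z.p1 r.z.p2 r.z.p3 r.z.p4 r.o.p0 r.w.p0 (r.y π).p0 r.g.p0
    r.c.p0 &&
  nb1 π r r.v.p0 r.v.p2 r.v.p3 r.v.p4 r.z.p0 r.z.p2 r.z.p3 r.z.p4 r.o.p1 r.w.p1 (r.y π).p1 r.g.p1
    r.c.p1 &&
  nb1 π r r.v.p0 r.v.p1 r.v.p3 r.v.p4 r.z.p0 r.z.p1 r.z.p3 r.z.p4 r.o.p2 r.w.p2 (r.y π).p2 r.g.p2
    r.c.p2 &&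
  nb1 π r r.v.p0 r.v.p1 r.v.p2 r.v.p4 r.z.p0 r.z.p1 r.z.p2 r.z.p4 r.o.p3 r.w.p3 (r.y π).p3 r.g.p3
    r.c.p3 &&
  nb1 π r r.v.p0 r.v.p1 r.v.p2 r.v.p3 r.z.p0 r.z.p1 r.z.p2 r.z.p3 r.o.p4 r.w.p4 (r.y π).p4 r.g.p4
    r.c.p4

def le4 (x y : V4) : Bool :=
  Nat.ble x.a y.a && Nat.ble x.b y.b && Nat.ble x.c y.c && Nat.ble x.d y.d

def beq4 (x y : V4) : Bool :=
  Nat.beq x.a y.a && Nat.beq x.b y.b && Nat.beq x.c y.c && Nat.beq x.d y.d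

/-- the bounding box; its sides are shorter than N, and lo ≤ 4 N -/
def cBox (π : Par) (r : Rc) : Bool :=
  le4 r.lo (r.x π).p0 && le4 r.lo (r.x π).p1 && le4 r.lo (r.x π).p2 && le4 r.lo (r.x π).p3 &&
  le4 r.lo (r.x π).p4 && le4 (r.x π).p0 r.hi && le4 (r.x π).p1 r.hi && le4 (r.x π).p2 r.hi &&
  le4 (r.x π).p3 r.hi && le4 (r.x π).p4 r.hi &&
  Nat.blt r.hi.a (Nat.add r.lo.a π.N) && Nat.blt r.hi.b (Nat.add r.lo.b π.N) &&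
  Nat.blt r.hi.c (Nat.add r.lo.c π.N) && Nat.blt r.hi.d (Nat.add r.lo.d π.N) &&
  Nat.ble r.lo.a (Nat.mul 4 π.N) && Nat.ble r.lo.b (Nat.mul 4 π.N) &&
  Nat.ble r.lo.c (Nat.mul 4 π.N) && Nat.ble r.lo.d (Nat.mul 4 π.N)

/-- the only number congruent to p modulo N in [lo, lo + N) -/
def cn (N p lo : ℕ) : ℕ := Nat.add lo (Nat.mod (Nat.sub (Nat.add p (Nat.mul 4 N)) lo) N)

def inF (π : Par) (r : Rc) (u : ℕ) (y : V4) : Bool :=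
  (Nat.beq u r.v.p0 && beq4 y (r.x π).p0) || (Nat.beq u r.v.p1 && beq4 y (r.x π).p1) ||
  (Nat.beq u r.v.p2 && beq4 y (r.x π).p2) || (Nat.beq u r.v.p3 && beq4 y (r.x π).p3) ||
  (Nat.beq u r.v.p4 && beq4 y (r.x π).p4)

def cPt' (π : Par) (r : Rc) (u : ℕ) (y : V4) : Bool := pw π r y || inF π r u y

def cPt (π : Par) (r : Rc) (u : ℕ) (p : V4) : Bool :=
  Nat.blt r.hi.a (cn π.N p.a r.lo.a) || Nat.blt r.hi.b (cn π.N p.b r.lo.b) ||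
  Nat.blt r.hi.c (cn π.N p.c r.lo.c) || Nat.blt r.hi.d (cn π.N p.d r.lo.d) ||
  cPt' π r u ⟨cn π.N p.a r.lo.a, cn π.N p.b r.lo.b, cn π.N p.c r.lo.c, cn π.N p.d r.lo.d⟩

def cPts (π : Par) (r : Rc) : ℕ → List V4 → Bool
  | _, [] => true
  | u, p :: l => cPt π r u p && cPts π r (u + 1) l

/-- the full check of one simplex -/
def chk (π : Par) (r : Rc) : Bool :=
  Nat.blt 0 r.D && cLab π r && cDelta π r && cSum π r && cRep π r && cIp π r && cNb π r &&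
  cBox π r && cPts π r 0 π.P

end Pool.Agent.Helper39.KT
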