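import Pool.Agent.Helper39.KT.DDefs

/-!
# KT-8: for every y some (k, z) minimises the power

PROOF.  Fix y.  There are finitely many k; for each k, Er k (x) = Qr x - (affine function of x)
≥ C⁻¹ ∑ x_i² - A ∑ |x_i| - A ≥ C⁻¹ x_i² - A |x_i| - A' for each i (complete squares in the other
coordinates), by coer, with one A for all k.  So for every real M the set of (k, z) with
Er k (sh y z) ≤ M is finite: it is contained in univ ×ˢ {z : ∀ i, |z i| ≤ R}, a subset of an
Icc (-R) R in Fin 4 → ℤ (Set.finite_Icc, locally finite order on functions from Fin 4).  Take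
M = Er k0 (sh y 0) and a minimum on this finite nonempty set (Set.exists_min_image).
-/

namespace Pool.Agent.Helper39.KT.DD

open Finset

variable {X : DD}

theorem Er_affine (k : Fin X.m) : ∃ (a0 : ℝ) (a : Fin 4 → ℝ), ∀ x : Fin 4 → ℝ,
    X.Er k x = X.Qr x - (a0 + ∑ i, a i * x i) := by
  refine ⟨∑ j, (X.c k j : ℝ) / X.D k * X.Qr (cr (X.pos k j)),
    fun i => ∑ j, (X.g k j i : ℝ) / X.D k * X.Qr (cr (X.pos k j)), fun x => ?_⟩
  unfold Er br
  congr 1
  have h1 : ∀ j : Fin 5, (X.c k j + ∑ i, (X.g k j i : ℝ) * x i) / X.D k * X.Qr (cr (X.pos k j))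
      = (X.c k j : ℝ) / X.D k * X.Qr (cr (X.pos k j))
        + ∑ i, (X.g k j i : ℝ) / X.D k * X.Qr (cr (X.pos k j)) * x i := by
    intro j
    rw [add_div, add_mul, Finset.sum_div, Finset.sum_mul]
    congr 1
    refine Finset.sum_congr rfl fun i _ => ?_
    ring
  rw [Finset.sum_congr rfl fun j _ => h1 j, Finset.sum_add_distrib, Finset.sum_comm]
  congr 1
  refine Finset.sum_congr rfl fun i _ => ?_
  rw [Finset.sum_mul]

theorem finite_le (h : X.Good) (y : Fin 4 → ℝ) (k : Fin X.m) (M : ℝ) :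
    {z : Fin 4 → ℤ | X.Er k (X.sh y z) ≤ M}.Finite := by
  obtain ⟨C, hC, hco⟩ := h.coer
  obtain ⟨a0, a, ha⟩ := Er_affine (X := X) k
  set B : ℝ := |M| + |a0| + C / 2 * ∑ i, a i ^ 2 with hB
  have hB0 : 0 ≤ B := by positivity
  set R : ℤ := ⌈(∑ i, |y i|) + (1 + 2 * C * B)⌉ with hR
  have hsub : {z : Fin 4 → ℤ | X.Er k (X.sh y z) ≤ M} ⊆ Set.Icc (fun _ => -R) (fun _ => R) := by
    intro z hz
    have hz : X.Er k (X.sh y z) ≤ M := hz
    set x : Fin 4 → ℝ := X.sh y z with hx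
    rw [ha x] at hz
    have hq : ∑ i, x i ^ 2 ≤ C * X.Qr x := hco x
    have hlin : ∑ i, a i * x i ≤ 1 / (2 * C) * ∑ i, x i ^ 2 + C / 2 * ∑ i, a i ^ 2 := by
      rw [Finset.mul_sum, Finset.mul_sum, ← Finset.sum_add_distrib]
      refine Finset.sum_le_sum fun i _ => ?_
      have h1 : 0 ≤ 1 / (2 * C) * (x i - C * a i) ^ 2 := by positivity
      have h2 : 1 / (2 * C) * (x i - C * a i) ^ 2
          = 1 / (2 * C) * x i ^ 2 + C / 2 * a i ^ 2 - a i * x i := by
        field_simp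
        ring
      linarith
    have hQ : 1 / C * ∑ i, x i ^ 2 ≤ X.Qr x := by
      rw [one_div, inv_mul_le_iff₀ hC]
      exact hq
    have hS : 1 / (2 * C) * ∑ i, x i ^ 2 ≤ B := by
      have e : 1 / C * ∑ i, x i ^ 2 = 1 / (2 * C) * ∑ i, x i ^ 2 + 1 / (2 * C) * ∑ i, x i ^ 2 := by
        field_simp
        ring
      have hM := le_abs_self M
      have ha0 := le_abs_self a0
      rw [hB]
      linarith
    have hS2 : ∑ i, x i ^ 2 ≤ 2 * C * B := by
      rw [one_div, inv_mul_le_iff₀ (by positivity)] at hS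
      exact hS
    have hxi : ∀ i, |x i| ≤ 1 + 2 * C * B := by
      intro i
      have h1 : x i ^ 2 ≤ ∑ i, x i ^ 2 :=
        Finset.single_le_sum (f := fun i => x i ^ 2) (fun j _ => sq_nonneg _) (Finset.mem_univ i)
      have h2 : |x i| ^ 2 = x i ^ 2 := sq_abs _
      nlinarith [abs_nonneg (x i), sq_nonneg (|x i| - 1)]
    have hzi : ∀ i, |(z i : ℝ)| ≤ R := by
      intro i
      have hN : (1 : ℝ) ≤ X.N := by exact_mod_cast h.N_pos
      have h1 : (X.N : ℝ) * z i = y i - x i := by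
        rw [hx]
        unfold sh
        ring
      have h2 : |(z i : ℝ)| ≤ |(X.N : ℝ) * z i| := by
        rw [abs_mul, abs_of_pos (by linarith : (0 : ℝ) < X.N)]
        nlinarith [abs_nonneg (z i : ℝ)]
      have h3 : |y i - x i| ≤ |y i| + |x i| := abs_sub _ _
      have h4 : |y i| ≤ ∑ i, |y i| :=
        Finset.single_le_sum (f := fun i => |y i|) (fun j _ => abs_nonneg _) (Finset.mem_univ i)
      have h5 := hxi i
      have h6 : (∑ i, |y i|) + (1 + 2 * C * B) ≤ (R : ℝ) := Int.le_ceil _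
      rw [h1] at h2
      linarith
    rw [Set.mem_Icc, Pi.le_def, Pi.le_def]
    refine ⟨fun i => ?_, fun i => ?_⟩
    · have := (abs_le.mp (hzi i)).1
      have h7 : ((-R : ℤ) : ℝ) ≤ (z i : ℝ) := by push_cast; exact this
      exact_mod_cast h7
    · have := (abs_le.mp (hzi i)).2
      exact_mod_cast this
  exact (Set.finite_Icc _ _).subset hsub

theorem exists_isMin (h : X.Good) (y : Fin 4 → ℝ) : ∃ k z, X.IsMin y k z := by
  set k0 : Fin X.m := ⟨0, h.m_pos⟩ with hk0
  set M : ℝ := X.Er k0 (X.sh y 0) with hM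
  set S : Set (Fin X.m × (Fin 4 → ℤ)) := {p | X.Er p.1 (X.sh y p.2) ≤ M} with hS
  have hfin : S.Finite := by
    have hsub : S ⊆ ⋃ k : Fin X.m,
        (fun z : Fin 4 → ℤ => (k, z)) '' {z : Fin 4 → ℤ | X.Er k (X.sh y z) ≤ M} := by
      rintro ⟨k, z⟩ hp
      exact Set.mem_iUnion.mpr ⟨k, z, hp, rfl⟩
    exact (Set.finite_iUnion fun k => (finite_le h y k M).image _).subset hsub
  obtain ⟨p, hp, hmin⟩ := Set.exists_min_image S (fun p => X.Er p.1 (X.sh y p.2)) hfin
    ⟨(k0, 0), show X.Er k0 (X.sh y 0) ≤ M from le_refl _⟩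
  refine ⟨p.1, p.2, fun k' z' => ?_⟩
  by_cases hq : (k', z') ∈ S
  · exact hmin (k', z') hq
  · have h1 : ¬ X.Er k' (X.sh y z') ≤ M := hq
    exact le_trans hp (le_of_lt (not_le.mp h1))

end Pool.Agent.Helper39.KT.DD
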