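import Pool.Agent.Helper39.KT.DBasic
import Pool.Agent.Helper39.KT.DMin

/-!
# KT-9: minimising simplices contain the point; vertices have nonnegative power

PROOF of isMin_nonneg.  Let (k, z) be minimal for y and suppose b := br k j (y - N z) < 0 for some
j.  Take k', j', ζ from adj k j and put z' = z + ζ... precisely: adj says, with ζ for its z, that
the vertices i ≠ j of k are the vertices i' ≠ j' of k' translated by N ζ, and x' = pos k' j' + N ζ
has bz k j x' < 0 < Ez k x'.  Let (by Er_translate)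
 L(v)  = Qr v - Er k  (v - N z)        = ∑_i  br k i (v - N z)  Qr (pos k i + N z),
 L'(v) = Qr v - Er k' (v - N (z + ζ))  = ∑_i' br k' i' (..)     Qr (pos k' i' + N (z + ζ)).
Both are affine in v (br_form).  G = L' - L is affine and vanishes at the vertices pos k i + N z,
i ≠ j (both equal Qr there, Er_vertex).  So G(v) = br k j (v - N z) * G(P), P = pos k j + N z
(br_aff), for all v.  At v = x' + N z (a vertex of k' + N (z + ζ)): G(v) = Qr v - L(v)
= Er k (x') > 0, and br k j x' < 0, so G(P) < 0.  Hence G(y) = b G(P) > 0, i.e.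
Er k' (y - N(z+ζ)) < Er k (y - N z), contradiction.

PROOF of vertex_nonneg: p = pos k0 j0 (lattice translates are included in the statement through z).
Let (k1, z1) be minimal for y = cr p (exists_isMin).  By isMin_nonneg, br_cast_nonneg, sh_cr and chk
(with z := - z1) p - N z1 is the vertex of k1 with label lab k0 j0, so the minimum is 0
(Er_vertex).  So Er k (p - N z) ≥ 0 for all (k, z); if it is 0 then (k, z) is minimal too and the
same argument gives the vertex.
-/

namespace Pool.Agent.Helper39.KT.DD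

open Finset

variable {X : DD}

private theorem aff_form (h : X.Good) (k : Fin X.m) (z : Fin 4 → ℤ) :
    ∃ (a : ℝ) (b : Fin 4 → ℝ), ∀ v : Fin 4 → ℝ,
      X.Qr v - X.Er k (X.sh v z) = a + ∑ l, b l * v l := by
  choose a b hab using fun j => br_form X k j z
  refine ⟨∑ j, a j * X.Qr (fun l => (X.pos k j l : ℝ) + X.N * z l),
    fun l => ∑ j, b j l * X.Qr (fun l => (X.pos k j l : ℝ) + X.N * z l), fun v => ?_⟩
  rw [Er_translate h, sub_sub_cancel]
  have e1 : ∀ j, X.br k j (X.sh v z) * X.Qr (fun l => (X.pos k j l : ℝ) + X.N * z l)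
      = a j * X.Qr (fun l => (X.pos k j l : ℝ) + X.N * z l)
        + ∑ l, b j l * X.Qr (fun l => (X.pos k j l : ℝ) + X.N * z l) * v l := by
    intro j
    rw [hab j v, add_mul, Finset.sum_mul]
    congr 1
    exact Finset.sum_congr rfl (fun l _ => by ring)
  rw [Finset.sum_congr rfl (fun j _ => e1 j), Finset.sum_add_distrib, Finset.sum_comm]
  congr 1
  refine Finset.sum_congr rfl (fun l _ => ?_)
  rw [Finset.sum_mul]

private theorem sh_eq (X : DD) (p : Fin 4 → ℤ) (v : Fin 4 → ℝ) (z : Fin 4 → ℤ)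
    (hv : ∀ l, v l = (p l : ℝ) + X.N * z l) : X.sh v z = cr p := by
  funext l
  unfold sh cr
  rw [hv l]
  ring

theorem isMin_nonneg (h : X.Good) {y : Fin 4 → ℝ} {k : Fin X.m} {z : Fin 4 → ℤ}
    (hm : X.IsMin y k z) (j : Fin 5) : 0 ≤ X.br k j (X.sh y z) := by
  by_contra hneg
  rw [not_le] at hneg
  obtain ⟨k', j', ζ, hvert, hb, hE⟩ := h.adj k j
  have hD : (0 : ℝ) < (X.D k : ℝ) := by exact_mod_cast h.D_pos k
  set z' : Fin 4 → ℤ := fun l => z l + ζ l with hz'
  obtain ⟨a, b, hab⟩ := aff_form h k z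
  obtain ⟨a', b', hab'⟩ := aff_form h k' z'
  have hG : ∀ v : Fin 4 → ℝ, X.Er k (X.sh v z) - X.Er k' (X.sh v z')
      = (a' - a) + ∑ l, (b' l - b l) * v l := by
    intro v
    have h1 := hab v
    have h2 := hab' v
    have h3 : ∑ l, (b' l - b l) * v l = ∑ l, b' l * v l - ∑ l, b l * v l := by
      rw [← Finset.sum_sub_distrib]
      exact Finset.sum_congr rfl (fun l _ => by ring)
    rw [h3]
    linarith
  set V : Fin 5 → Fin 4 → ℝ := fun i l => (X.pos k i l : ℝ) + X.N * z l with hV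
  have hV0 : ∀ i, i ≠ j → (a' - a) + ∑ l, (b' l - b l) * V i l = 0 := by
    intro i hi
    obtain ⟨i', _, hi'⟩ := hvert i hi
    rw [← hG (V i), sh_eq X (X.pos k i) (V i) z (fun l => rfl), Er_vertex h,
      sh_eq X (X.pos k' i') (V i) z' (fun l => ?_), Er_vertex h, sub_zero]
    have h1 : (X.pos k i l : ℝ) = (X.pos k' i' l : ℝ) + X.N * ζ l := by
      rw [← hi']
      unfold tz
      push_cast
      ring
    simp only [hV, hz']
    rw [h1]
    push_cast
    ring
  have hfac : ∀ v : Fin 4 → ℝ, X.Er k (X.sh v z) - X.Er k' (X.sh v z')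
      = X.br k j (X.sh v z) * ((a' - a) + ∑ l, (b' l - b l) * V j l) := by
    intro v
    rw [hG v, br_aff h k z (a' - a) (fun l => b' l - b l) v]
    refine Finset.sum_eq_single j (fun i _ hi => ?_) (fun hj => absurd (Finset.mem_univ j) hj)
    have := hV0 i hi
    simp only [hV] at this
    rw [this, mul_zero]
  have hx := hfac (fun l => (X.tz (X.pos k' j') ζ l : ℝ) + X.N * z l)
  rw [sh_eq X (X.tz (X.pos k' j') ζ) _ z (fun l => rfl),
    sh_eq X (X.pos k' j') _ z' (fun l => ?_), Er_vertex h, sub_zero, Er_cast h, br_cast] at hx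
  · have h1 : (0 : ℝ) < (X.Ez k (X.tz (X.pos k' j') ζ) : ℝ) / X.D k :=
      div_pos (by exact_mod_cast hE) hD
    have h2 : (X.bz k j (X.tz (X.pos k' j') ζ) : ℝ) / X.D k < 0 :=
      div_neg_of_neg_of_pos (by exact_mod_cast hb) hD
    rw [hx] at h1
    have h3 : (a' - a) + ∑ l, (b' l - b l) * V j l < 0 := by
      by_contra hc
      rw [not_lt] at hc
      exact absurd h1 (not_lt.mpr (mul_nonpos_of_nonpos_of_nonneg h2.le hc))
    have h4 := hfac y
    have h5 : 0 < X.br k j (X.sh y z) * ((a' - a) + ∑ l, (b' l - b l) * V j l) :=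
      mul_pos_of_neg_of_neg hneg h3
    have h6 := hm k' z'
    linarith
  · unfold tz
    simp only [hz']
    push_cast
    ring

private theorem min_vertex (h : X.Good) (k0 : Fin X.m) (j0 : Fin 5) (k : Fin X.m)
    (z : Fin 4 → ℤ) (hm : X.IsMin (cr (X.pos k0 j0)) k z) :
    ∃ j, X.lab k j = X.lab k0 j0 ∧ ∀ l, X.pos k j l + X.N * z l = X.pos k0 j0 l := by
  have hs : X.sh (cr (X.pos k0 j0)) z = cr (X.tz (X.pos k0 j0) (fun l => - z l)) := by
    rw [sh_cr]
    congr 1
    funext l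
    unfold tz
    ring
  have hb : ∀ j, 0 ≤ X.bz k j (X.tz (X.pos k0 j0) (fun l => - z l)) := by
    intro j
    rw [← br_cast_nonneg h, ← hs]
    exact isMin_nonneg h hm j
  obtain ⟨j, hj1, hj2⟩ := h.chk k k0 j0 (fun l => - z l) hb
  refine ⟨j, hj1, fun l => ?_⟩
  rw [hj2]
  unfold tz
  ring

private theorem min_zero (h : X.Good) (k0 : Fin X.m) (j0 : Fin 5) (k : Fin X.m)
    (z : Fin 4 → ℤ) (hm : X.IsMin (cr (X.pos k0 j0)) k z) :
    X.Er k (X.sh (cr (X.pos k0 j0)) z) = 0 := by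
  obtain ⟨j, _, hj⟩ := min_vertex h k0 j0 k z hm
  rw [sh_eq X (X.pos k j) _ z (fun l => ?_), Er_vertex h]
  unfold cr
  rw [← hj l]
  push_cast
  ring

theorem vertex_nonneg (h : X.Good) (k0 : Fin X.m) (j0 : Fin 5) (k : Fin X.m) (z : Fin 4 → ℤ) :
    0 ≤ X.Er k (X.sh (cr (X.pos k0 j0)) z) := by
  obtain ⟨k1, z1, hm⟩ := exists_isMin h (cr (X.pos k0 j0))
  rw [← min_zero h k0 j0 k1 z1 hm]
  exact hm k z

theorem vertex_zero (h : X.Good) (k0 : Fin X.m) (j0 : Fin 5) (k : Fin X.m) (z : Fin 4 → ℤ)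
    (h0 : X.Er k (X.sh (cr (X.pos k0 j0)) z) = 0) :
    ∃ j, X.lab k j = X.lab k0 j0 ∧ ∀ l, X.pos k j l + X.N * z l = X.pos k0 j0 l := by
  refine min_vertex h k0 j0 k z (fun k' z' => ?_)
  rw [h0]
  exact vertex_nonneg h k0 j0 k' z'

end Pool.Agent.Helper39.KT.DD
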