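import Pool.Agent.Helper39.KT.Defs

/-!
# Periodic Delaunay data in dimension 4 (project KT)

m simplices in R^4, simplex k has the integer vertices pos k j (j < 5) with labels lab k j; the
lattice is N Z^4; q gives the quadratic form Q(y) = sum_k (sum_i q k i y_i)^2.
(bz k j y) / D k is the j-th barycentric coordinate of y with respect to the simplex k,
Ez k y / D k = Q(y) - sum_j (bz k j y / D k) Q(pos k j), the value of Q minus its affine
interpolation on the simplex k (power of y with respect to the circumsphere).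
-/

namespace Pool.Agent.Helper39.KT

open Finset

structure DD where
  m : ℕ
  N : ℕ
  q : Fin 4 → Fin 4 → ℤ
  lab : Fin m → Fin 5 → ℕ
  pos : Fin m → Fin 5 → Fin 4 → ℤ
  D : Fin m → ℤ
  g : Fin m → Fin 5 → Fin 4 → ℤ
  c : Fin m → Fin 5 → ℤ

namespace DD

variable (X : DD)

def bz (k : Fin X.m) (j : Fin 5) (y : Fin 4 → ℤ) : ℤ := X.c k j + ∑ i, X.g k j i * y i

def Qz (y : Fin 4 → ℤ) : ℤ := ∑ k, (∑ i, X.q k i * y i) ^ 2

def Ez (k : Fin X.m) (y : Fin 4 → ℤ) : ℤ := X.D k * X.Qz y - ∑ j, X.bz k j y * X.Qz (X.pos k j)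

/-- translate by N z -/
def tz (y z : Fin 4 → ℤ) : Fin 4 → ℤ := fun l => y l + X.N * z l

/-- facets of the abstract complex -/
def facets : Finset (Finset ℕ) := Finset.univ.image (fun k => Finset.univ.image (X.lab k))

structure Good : Prop where
  m_pos : 0 < X.m
  N_pos : 0 < X.N
  coer : ∃ C : ℝ, 0 < C ∧ ∀ x : Fin 4 → ℝ,
    ∑ i, x i ^ 2 ≤ C * ∑ k, (∑ i, (X.q k i : ℝ) * x i) ^ 2
  D_pos : ∀ k, 0 < X.D k
  sum_c : ∀ k, ∑ j, X.c k j = X.D k
  sum_g : ∀ k i, ∑ j, X.g k j i = 0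
  rep_c : ∀ k l, ∑ j, X.c k j * X.pos k j l = 0
  rep_g : ∀ k i l, ∑ j, X.g k j i * X.pos k j l = if i = l then X.D k else 0
  delta : ∀ k j i, X.bz k j (X.pos k i) = if j = i then X.D k else 0
  lab_inj : ∀ k, Function.Injective (X.lab k)
  lat : ∀ k j k' j', X.lab k j = X.lab k' j' → ∀ l, (X.N : ℤ) ∣ X.pos k j l - X.pos k' j' l
  cons : ∀ k i j k' i' j', X.lab k i = X.lab k' i' → X.lab k j = X.lab k' j' →
    ∀ l, X.pos k j l - X.pos k i l = X.pos k' j' l - X.pos k' i' l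
  adj : ∀ k j, ∃ k' j' z, (∀ i, i ≠ j → ∃ i', i' ≠ j' ∧ X.tz (X.pos k' i') z = X.pos k i) ∧
    X.bz k j (X.tz (X.pos k' j') z) < 0 ∧ 0 < X.Ez k (X.tz (X.pos k' j') z)
  chk : ∀ k k' j' z, (∀ j, 0 ≤ X.bz k j (X.tz (X.pos k' j') z)) →
    ∃ j, X.lab k j = X.lab k' j' ∧ X.pos k j = X.tz (X.pos k' j') z

/-- real barycentric coordinates -/
noncomputable def br (k : Fin X.m) (j : Fin 5) (y : Fin 4 → ℝ) : ℝ :=
  (X.c k j + ∑ i, X.g k j i * y i) / X.D k

noncomputable def Qr (y : Fin 4 → ℝ) : ℝ := ∑ k, (∑ i, (X.q k i : ℝ) * y i) ^ 2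

/-- integer point as real point -/
def cr (y : Fin 4 → ℤ) : Fin 4 → ℝ := fun l => (y l : ℝ)

noncomputable def Er (k : Fin X.m) (y : Fin 4 → ℝ) : ℝ :=
  X.Qr y - ∑ j, X.br k j y * X.Qr (cr (X.pos k j))

/-- y minus N z -/
def sh (y : Fin 4 → ℝ) (z : Fin 4 → ℤ) : Fin 4 → ℝ := fun l => y l - X.N * z l

/-- (k, z) minimises the power of y -/
def IsMin (y : Fin 4 → ℝ) (k : Fin X.m) (z : Fin 4 → ℤ) : Prop :=
  ∀ k' z', X.Er k (X.sh y z) ≤ X.Er k' (X.sh y z')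

end DD

end Pool.Agent.Helper39.KT
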