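import Pool.Agent.Helper39.KT.DSpecD

/-! # The checked records give good Delaunay data (project KT) -/

namespace Pool.Agent.Helper39.KT

open Finset

theorem coer_spec (π : Par) (R : List Rc) : ∃ C : ℝ, 0 < C ∧ ∀ x : Fin 4 → ℝ,
    ∑ i, x i ^ 2 ≤ C * ∑ k, (∑ i, ((mkDD π R).q k i : ℝ) * x i) ^ 2 := by
  refine ⟨3, by norm_num, fun x => ?_⟩
  simp only [mkDD, qf, Fin.sum_univ_four]
  simp
  nlinarith [sq_nonneg (5 * x 0 + 3 * x 1 + 3 * x 2 + 3 * x 3),
    sq_nonneg (8 * x 1 + 3 * x 2 + 3 * x 3), sq_nonneg (x 2 - x 3), sq_nonneg (x 2),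
    sq_nonneg (x 3)]

theorem good {π : Par} {R : List Rc} (hN : 0 < π.N) (hP : π.P.length = 32) (hR : R ≠ [])
    (hI : IncProp π R) (hc : ∀ r ∈ R, chk π r = true) : (mkDD π R).Good := by
  have H : ∀ r ∈ R, 0 < r.D ∧ cLab π r = true ∧ cDelta π r = true ∧ cSum π r = true ∧
      cRep π r = true ∧ cIp π r = true ∧ cNb π r = true := by
    intro r hr
    have h := hc r hr
    simp only [chk, Bool.and_eq_true, natblt] at h
    obtain ⟨⟨⟨⟨⟨⟨⟨⟨hD, hLab⟩, hDel⟩, hSum⟩, hRep⟩, hIp⟩, hNb⟩, -⟩, -⟩ := h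
    exact ⟨hD, hLab, hDel, hSum, hRep, hIp, hNb⟩
  have hm := fun k => H _ (List.get_mem R k)
  exact
    { m_pos := List.length_pos_of_ne_nil hR
      N_pos := hN
      coer := coer_spec π R
      D_pos := fun k => by
        show (0 : ℤ) < ((R.get k).D : ℤ)
        exact_mod_cast (hm k).1
      sum_c := fun k => cSum_c (hm k).2.2.2.1
      sum_g := fun k i => cSum_g (hm k).2.2.2.1 i
      rep_c := fun k l => cRep_c (hm k).2.2.2.2.1 l
      rep_g := fun k i l => cRep_g (hm k).2.2.2.2.1 i l
      delta := fun k j i => by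
        rw [mkDD_pos, bz_z, cDelta_spec (hm k).2.2.1 j i]
        show _ = if j = i then ((R.get k).D : ℤ) else 0
        push_cast
        split <;> ring
      lab_inj := fun k => lab_inj' (hm k).2.1
      lat := fun k j k' j' h l => lat_spec k j k' j' h l
      cons := fun k i j k' i' j' h1 h2 l => cons_spec (fun r hr => (H r hr).2.1) k i j k' i' j' h1 h2 l
      adj := fun k j => adj_spec hI (fun r hr => (H r hr).2.1) (fun r hr => (H r hr).2.2.2.2.2.1)
        (fun r hr => (H r hr).2.2.2.2.2.2) k j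
      chk := fun k k' j' z hz => chk_spec hP hc k k' j' z hz }

def verts (r : Rc) : List ℕ := [r.v.p0, r.v.p1, r.v.p2, r.v.p3, r.v.p4]

theorem mem_verts {r : Rc} {u : ℕ} : u ∈ verts r ↔ ∃ j, r.v.f j = u := by
  simp only [verts, List.mem_cons, List.not_mem_nil, or_false]
  constructor
  · rintro (h | h | h | h | h)
    · exact ⟨0, h.symm⟩
    · exact ⟨1, h.symm⟩
    · exact ⟨2, h.symm⟩
    · exact ⟨3, h.symm⟩
    · exact ⟨4, h.symm⟩
  · rintro ⟨j, rfl⟩
    fin_cases j <;> simp [T5.f]

theorem testBit_msk {l : List ℕ} {u : ℕ} : (msk l).testBit u = true ↔ u ∈ l := by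
  induction l with
  | nil => simp [msk]
  | cons v l ih =>
    have e : msk (v :: l) = (2 ^ v) ||| msk l := rfl
    rw [e, Nat.testBit_lor, Bool.or_eq_true, ih, Nat.testBit_two_pow, List.mem_cons]
    simp [eq_comm]

theorem testBit_incM (v : ℕ) : ∀ (L : List ℕ) (b : ℕ),
    (incM v L).testBit b = (L.getD b 0).testBit v
  | [], b => by simp [incM]
  | s :: L, b => by
    have e : incM v (s :: L) = ((s >>> v) &&& 1) + 2 * incM v L := rfl
    have h1 : ((s >>> v) &&& 1) = (s >>> v) % 2 := by simp [Nat.and_one_is_mod]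
    have h2 : (s >>> v) % 2 < 2 := Nat.mod_lt _ (by norm_num)
    cases b with
    | zero =>
      rw [e, h1, Nat.testBit_zero, Nat.add_mul_mod_self_left, Nat.mod_mod]
      simp [Nat.testBit]
    | succ b =>
      rw [e, h1, Nat.testBit_succ, Nat.add_mul_div_left _ _ (by norm_num : 0 < 2),
        Nat.div_eq_of_lt h2, Nat.zero_add, testBit_incM v L b]
      simp

theorem incOK_spec (L : List ℕ) : ∀ (v : ℕ) (I : List ℕ), incOK L v I = true →
    ∀ i < I.length, I.getD i 0 = incM (v + i) L
  | _, [], _, i, hi => absurd hi (by simp)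
  | v, x :: I, h, 0, _ => by
    simp only [incOK, Bool.and_eq_true, natbeq] at h
    simpa using h.1.symm
  | v, x :: I, h, i + 1, hi => by
    simp only [incOK, Bool.and_eq_true, natbeq] at h
    have := incOK_spec L (v + 1) I h.2 i (by simpa using hi)
    rw [show v + (i + 1) = v + 1 + i by ring]
    simpa using this

theorem incProp {π : Par} {R : List Rc} {V : List (List ℕ)} {L : List ℕ} (h : Inc V L π.I)
    (hV : R.map verts = V) : IncProp π R := by
  intro u hu b hb
  have h1 := incOK_spec L 0 π.I h.inc u (by rw [h.len]; exact hu)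
  rw [h1, Nat.zero_add, testBit_incM, ← h.l, ← hV] at hb
  by_cases hlt : b < R.length
  · refine ⟨⟨b, hlt⟩, rfl, ?_⟩
    rw [List.map_map, List.getD_eq_getElem?_getD, List.getElem?_map,
      List.getElem?_eq_getElem hlt] at hb
    simp only [Option.map_some, Option.getD_some, Function.comp_apply] at hb
    exact mem_verts.1 (testBit_msk.1 hb)
  · rw [List.map_map, List.getD_eq_default _ _ (by simpa using hlt)] at hb
    simp at hb

theorem facets_eq {π : Par} {R : List Rc} {V : List (List ℕ)} (hV : R.map verts = V) :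
    (mkDD π R).facets = (V.map List.toFinset).toFinset := by
  have key : ∀ k : Fin R.length, Finset.univ.image ((mkDD π R).lab k)
      = (verts (R.get k)).toFinset := by
    intro k
    ext u
    rw [List.mem_toFinset, mem_verts, Finset.mem_image]
    simp only [Finset.mem_univ, true_and]
    rfl
  ext s
  rw [List.mem_toFinset, ← hV, List.map_map, List.mem_map]
  unfold DD.facets
  rw [Finset.mem_image]
  constructor
  · rintro ⟨k, -, rfl⟩
    exact ⟨R.get k, List.get_mem R k, (key k).symm⟩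
  · rintro ⟨r, hr, rfl⟩
    obtain ⟨k, hk⟩ := List.get_of_mem hr
    exact ⟨k, Finset.mem_univ _, by rw [key k, hk]; rfl⟩

end Pool.Agent.Helper39.KT
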