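import Pool.Agent.Helper39.KT.DInj

/-! # The realisation is the torus (project KT, KT-11) -/

namespace Pool.Agent.Helper39.KT.DD

open Finset

variable {X : DD}

theorem isClosed_piece (σ : Finset ℕ) :
    IsClosed {x : ℕ → ℝ | (∀ v, 0 ≤ x v) ∧ (∀ v, v ∉ σ → x v = 0) ∧ ∑ v ∈ σ, x v = 1} := by
  have h1 : IsClosed {x : ℕ → ℝ | ∀ v, 0 ≤ x v} := by
    simp only [Set.setOf_forall]
    exact isClosed_iInter fun v => isClosed_le continuous_const (continuous_apply v)
  have h2 : IsClosed {x : ℕ → ℝ | ∀ v, v ∉ σ → x v = 0} := by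
    simp only [Set.setOf_forall]
    exact isClosed_iInter fun v => isClosed_iInter fun _ =>
      isClosed_eq (continuous_apply v) continuous_const
  have h3 : IsClosed {x : ℕ → ℝ | ∑ v ∈ σ, x v = 1} :=
    isClosed_eq (continuous_finset_sum _ fun v _ => continuous_apply v) continuous_const
  exact h1.inter (h2.inter h3)

theorem isCompact_RlB (F : Finset (Finset ℕ)) : IsCompact (Rl F) := by
  have e : Rl F = ⋃ σ ∈ (F : Set (Finset ℕ)),
      {x : ℕ → ℝ | (∀ v, 0 ≤ x v) ∧ (∀ v, v ∉ σ → x v = 0) ∧ ∑ v ∈ σ, x v = 1} := by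
    ext x
    simp only [Rl, Set.mem_setOf_eq, Set.mem_iUnion, Finset.mem_coe, exists_prop]
    constructor
    · rintro ⟨h0, σ, hσ, h1, h2⟩
      exact ⟨σ, hσ, h0, h1, h2⟩
    · rintro ⟨σ, hσ, h0, h1, h2⟩
      exact ⟨h0, σ, hσ, h1, h2⟩
  have hc : IsClosed (Rl F) := by
    rw [e]
    exact F.finite_toSet.isClosed_biUnion fun σ _ => isClosed_piece σ
  refine IsCompact.of_isClosed_subset (isCompact_univ_pi fun _ : ℕ => isCompact_Icc (a := (0 : ℝ))
    (b := 1)) hc ?_
  rintro x ⟨h0, σ, hσ, h1, h2⟩ v -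
  refine ⟨h0 v, ?_⟩
  by_cases hv : v ∈ σ
  · rw [← h2]
    exact Finset.single_le_sum (fun w _ => h0 w) hv
  · rw [h1 v hv]; exact zero_le_one

/-- x is supported in the labels of k, with sum one -/
def Sup (X : DD) (k : Fin X.m) (x : ℕ → ℝ) : Prop :=
  (∀ v, (∀ j, X.lab k j ≠ v) → x v = 0) ∧ ∑ j, x (X.lab k j) = 1

theorem mem_Rl (h : X.Good) {x : ℕ → ℝ} :
    x ∈ Rl X.facets ↔ (∀ v, 0 ≤ x v) ∧ ∃ k, X.Sup k x := by
  unfold Rl facets
  simp only [Set.mem_setOf_eq, Finset.mem_image, Finset.mem_univ, true_and]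
  constructor
  · rintro ⟨h0, σ, ⟨k, rfl⟩, h1, h2⟩
    refine ⟨h0, k, fun v hv => h1 v ?_, ?_⟩
    · rw [Finset.mem_image]
      rintro ⟨j, -, hj⟩
      exact hv j hj
    · rw [← h2, Finset.sum_image fun a _ b _ hab => h.lab_inj k hab]
  · rintro ⟨h0, k, h1, h2⟩
    refine ⟨h0, _, ⟨k, rfl⟩, fun v hv => h1 v fun j hj => hv ?_, ?_⟩
    · rw [Finset.mem_image]
      exact ⟨j, Finset.mem_univ _, hj⟩
    · rw [← h2, Finset.sum_image fun a _ b _ hab => h.lab_inj k hab]

/-- the point of R^4 -/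
noncomputable def yk (X : DD) (k : Fin X.m) (x : ℕ → ℝ) : Fin 4 → ℝ :=
  fun l => ∑ j, x (X.lab k j) * (X.pos k j l : ℝ)

/-- the coordinate l of the vertex with label v of k -/
noncomputable def Gk (X : DD) (k : Fin X.m) (l : Fin 4) (v : ℕ) : ℝ :=
  ∑ j, if X.lab k j = v then (X.pos k j l : ℝ) else 0

theorem Gk_lab (h : X.Good) (k : Fin X.m) (l : Fin 4) (j : Fin 5) :
    X.Gk k l (X.lab k j) = X.pos k j l := by
  unfold Gk
  rw [Finset.sum_eq_single j]
  · rw [if_pos rfl]
  · intro i _ hi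
    rw [if_neg fun e => hi (h.lab_inj k e)]
  · intro hj
    exact absurd (Finset.mem_univ _) hj

theorem yk_sum (h : X.Good) {k : Fin X.m} {x : ℕ → ℝ} (hx : X.Sup k x) (l : Fin 4)
    {S : Finset ℕ} (hS : ∀ j, X.lab k j ∈ S) : X.yk k x l = ∑ v ∈ S, x v * X.Gk k l v := by
  have e1 : X.yk k x l = ∑ v ∈ Finset.univ.image (X.lab k), x v * X.Gk k l v := by
    rw [Finset.sum_image fun a _ b _ hab => h.lab_inj k hab]
    exact Finset.sum_congr rfl fun j _ => by rw [Gk_lab h]
  rw [e1]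
  refine Finset.sum_subset ?_ ?_
  · intro v hv
    obtain ⟨j, -, rfl⟩ := Finset.mem_image.1 hv
    exact hS j
  · intro v _ hv
    rw [hx.1 v fun j hj => hv (Finset.mem_image.2 ⟨j, Finset.mem_univ _, hj⟩), zero_mul]

theorem one_sum (h : X.Good) {k : Fin X.m} {x : ℕ → ℝ} (hx : X.Sup k x)
    {S : Finset ℕ} (hS : ∀ j, X.lab k j ∈ S) : ∑ v ∈ S, x v = 1 := by
  rw [← hx.2]
  have e1 : ∑ j, x (X.lab k j) = ∑ v ∈ Finset.univ.image (X.lab k), x v := by
    rw [Finset.sum_image fun a _ b _ hab => h.lab_inj k hab]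
  rw [e1]
  symm
  refine Finset.sum_subset ?_ ?_
  · intro v hv
    obtain ⟨j, -, rfl⟩ := Finset.mem_image.1 hv
    exact hS j
  · intro v _ hv
    exact hx.1 v fun j hj => hv (Finset.mem_image.2 ⟨j, Finset.mem_univ _, hj⟩)

theorem yk_diff (h : X.Good) {k k' : Fin X.m} {x : ℕ → ℝ} (hx : X.Sup k x) (hx' : X.Sup k' x) :
    ∃ z : Fin 4 → ℤ, ∀ l, X.yk k x l = X.yk k' x l + X.N * z l := by
  obtain ⟨j0, hj0⟩ : ∃ j, x (X.lab k j) ≠ 0 := by
    by_contra hcon
    push Not at hcon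
    have := hx.2
    rw [Finset.sum_eq_zero fun j _ => hcon j] at this
    exact zero_ne_one this
  have find : ∀ v, x v ≠ 0 → ∃ j, X.lab k j = v := by
    intro v hv
    by_contra hcon
    push Not at hcon
    exact hv (hx.1 v hcon)
  have find' : ∀ v, x v ≠ 0 → ∃ j, X.lab k' j = v := by
    intro v hv
    by_contra hcon
    push Not at hcon
    exact hv (hx'.1 v hcon)
  obtain ⟨j0', hj0'⟩ := find' _ hj0
  choose z hz using fun l => h.lat k j0 k' j0' hj0'.symm l
  refine ⟨z, fun l => ?_⟩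
  set S : Finset ℕ := Finset.univ.image (X.lab k) ∪ Finset.univ.image (X.lab k') with hS
  have hS1 : ∀ j, X.lab k j ∈ S := fun j =>
    Finset.mem_union_left _ (Finset.mem_image_of_mem _ (Finset.mem_univ j))
  have hS2 : ∀ j, X.lab k' j ∈ S := fun j =>
    Finset.mem_union_right _ (Finset.mem_image_of_mem _ (Finset.mem_univ j))
  rw [yk_sum h hx l hS1, yk_sum h hx' l hS2]
  have e2 : (X.N : ℝ) * z l = ∑ v ∈ S, x v * (X.N * z l) := by
    rw [← Finset.sum_mul, one_sum h hx hS1, one_mul]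
  rw [e2, ← Finset.sum_add_distrib]
  refine Finset.sum_congr rfl fun v _ => ?_
  by_cases hv : x v = 0
  · rw [hv]; ring
  · obtain ⟨j, rfl⟩ := find v hv
    obtain ⟨j', hj'⟩ := find' _ hv
    have h3 := h.cons k j0 j k' j0' j' hj0'.symm hj'.symm l
    have h4 := hz l
    have h5 : X.pos k j l = X.pos k' j' l + X.N * z l := by linarith
    have h6 : X.Gk k' l (X.lab k j) = X.pos k' j' l := by rw [← hj', Gk_lab h]
    rw [Gk_lab h, h6, h5]
    push_cast
    ring

theorem coe_eq_of {a b : ℝ} {n : ℤ} (h : a = b + n) : (a : AddCircle (1 : ℝ)) = b := by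
  rw [h, AddCircle.coe_add]
  have : ((n : ℝ) : AddCircle (1 : ℝ)) = 0 := by
    rw [AddCircle.coe_eq_zero_iff]
    exact ⟨n, by simp⟩
  rw [this, add_zero]

theorem exists_of_coe_eq {a b : ℝ} (h : (a : AddCircle (1 : ℝ)) = b) : ∃ n : ℤ, a = b + n := by
  have : ((a - b : ℝ) : AddCircle (1 : ℝ)) = 0 := by
    rw [AddCircle.coe_sub, h, sub_self]
  rw [AddCircle.coe_eq_zero_iff] at this
  obtain ⟨n, hn⟩ := this
  refine ⟨n, ?_⟩
  simp at hn
  linarith

/-- the value in the torus -/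
noncomputable def tk (X : DD) (k : Fin X.m) (x : ℕ → ℝ) : Fin 4 → AddCircle (1 : ℝ) :=
  fun l => ((X.yk k x l / X.N : ℝ) : AddCircle (1 : ℝ))

theorem tk_eq (h : X.Good) {k k' : Fin X.m} {x : ℕ → ℝ} (hx : X.Sup k x) (hx' : X.Sup k' x) :
    X.tk k x = X.tk k' x := by
  obtain ⟨z, hz⟩ := yk_diff h hx hx'
  funext l
  have hN : (X.N : ℝ) ≠ 0 := by
    have := h.N_pos
    positivity
  refine coe_eq_of (n := z l) ?_
  rw [hz l]
  field_simp

theorem tk_cont (X : DD) (k : Fin X.m) : Continuous (X.tk k) := by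
  refine continuous_pi fun l => ?_
  refine (AddCircle.continuous_mk' (1 : ℝ)).comp ?_
  have h1 : Continuous fun x : ℕ → ℝ => X.yk k x l := by
    unfold yk
    refine continuous_finset_sum _ fun j _ => ?_
    have h2 : Continuous fun x : ℕ → ℝ => x (X.lab k j) := continuous_apply _
    exact h2.mul continuous_const
  exact h1.div_const _

theorem isClosed_Sup (X : DD) (k : Fin X.m) : IsClosed {x : ℕ → ℝ | X.Sup k x} := by
  have h2 : IsClosed {x : ℕ → ℝ | ∀ v, (∀ j, X.lab k j ≠ v) → x v = 0} := by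
    simp only [Set.setOf_forall]
    exact isClosed_iInter fun v => isClosed_iInter fun _ =>
      isClosed_eq (continuous_apply v) continuous_const
  have h3 : IsClosed {x : ℕ → ℝ | ∑ j, x (X.lab k j) = 1} :=
    isClosed_eq (continuous_finset_sum _ fun j _ => continuous_apply _) continuous_const
  exact h2.inter h3

theorem co_lab (h : X.Good) (k : Fin X.m) (y : Fin 4 → ℝ) (j : Fin 5) :
    X.co k y (X.lab k j) = X.br k j y := by
  unfold co
  rw [Finset.sum_eq_single j]
  · rw [if_pos rfl]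
  · intro i _ hi
    rw [if_neg fun e => hi (h.lab_inj k e)]
  · intro hj
    exact absurd (Finset.mem_univ _) hj

theorem co_off (X : DD) (k : Fin X.m) (y : Fin 4 → ℝ) {v : ℕ} (hv : ∀ j, X.lab k j ≠ v) :
    X.co k y v = 0 := by
  unfold co
  exact Finset.sum_eq_zero fun j _ => if_neg (hv j)

theorem sup_co (h : X.Good) (k : Fin X.m) (y : Fin 4 → ℝ) : X.Sup k (X.co k y) := by
  refine ⟨fun v hv => co_off X k y hv, ?_⟩
  simp only [co_lab h]
  exact br_sum h k y

theorem co_nonneg (X : DD) (k : Fin X.m) (y : Fin 4 → ℝ) (hy : ∀ j, 0 ≤ X.br k j y) (v : ℕ) :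
    0 ≤ X.co k y v := by
  unfold co
  refine Finset.sum_nonneg fun j _ => ?_
  split
  · exact hy j
  · exact le_rfl

theorem br_yk (h : X.Good) {k : Fin X.m} {x : ℕ → ℝ} (hx : X.Sup k x) (j : Fin 5) :
    X.br k j (X.yk k x) = x (X.lab k j) :=
  br_unique h k (fun j => x (X.lab k j)) _ hx.2 (fun _ => rfl) j

theorem co_yk (h : X.Good) {k : Fin X.m} {x : ℕ → ℝ} (hx : X.Sup k x) :
    X.co k (X.yk k x) = x := by
  funext v
  by_cases hv : ∃ j, X.lab k j = v
  · obtain ⟨j, rfl⟩ := hv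
    rw [co_lab h, br_yk h hx]
  · push Not at hv
    rw [co_off X k _ hv, hx.1 v hv]

theorem homeoB (h : X.Good) : Nonempty (Rl X.facets ≃ₜ (Fin 4 → AddCircle (1 : ℝ))) := by
  classical
  have hN : (X.N : ℝ) ≠ 0 := by
    have := h.N_pos
    positivity
  choose kk hkk using fun x : Rl X.facets => ((mem_Rl h).1 x.2).2
  let f : Rl X.facets → (Fin 4 → AddCircle (1 : ℝ)) := fun x => X.tk (kk x) x.1
  have hf : ∀ (x : Rl X.facets) (k : Fin X.m), X.Sup k x.1 → f x = X.tk k x.1 :=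
    fun x k hk => tk_eq h (hkk x) hk
  have hcont : Continuous f := by
    refine LocallyFinite.continuous (f := fun k : Fin X.m => {x : Rl X.facets | X.Sup k x.1})
      (locallyFinite_of_finite _) ?_ ?_ ?_
    · ext x
      simp only [Set.mem_iUnion, Set.mem_setOf_eq, Set.mem_univ, iff_true]
      exact ⟨kk x, hkk x⟩
    · intro k
      exact (isClosed_Sup X k).preimage continuous_subtype_val
    · intro k
      refine ContinuousOn.congr (f := fun x : Rl X.facets => X.tk k x.1)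
        ((tk_cont X k).comp continuous_subtype_val).continuousOn ?_
      intro x hx
      exact hf x k hx
  have hinj : Function.Injective f := by
    intro x x' hxx
    have hx := hkk x
    have hx' := hkk x'
    have h1 : ∀ l, ∃ n : ℤ, X.yk (kk x) x.1 l / X.N = X.yk (kk x') x'.1 l / X.N + n := fun l =>
      exists_of_coe_eq (congrFun hxx l)
    choose z hz using h1
    have h2 : X.sh (X.yk (kk x) x.1) z = X.yk (kk x') x'.1 := by
      funext l
      unfold sh
      have := hz l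
      field_simp at this
      linarith
    have h3 := co_eq h (kk x) (kk x') z (X.yk (kk x) x.1)
      (fun j => by rw [br_yk h hx]; exact ((mem_Rl h).1 x.2).1 _)
      (fun j => by rw [h2, br_yk h hx']; exact ((mem_Rl h).1 x'.2).1 _)
    rw [h2, co_yk h hx, co_yk h hx'] at h3
    exact Subtype.ext h3
  have hsurj : Function.Surjective f := by
    intro θ
    choose r hr using fun l => QuotientAddGroup.mk_surjective (θ l)
    let y : Fin 4 → ℝ := fun l => X.N * r l
    obtain ⟨k, z, hm⟩ := exists_isMin h y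
    have hnn := isMin_nonneg h hm
    have hs := sup_co h k (X.sh y z)
    refine ⟨⟨X.co k (X.sh y z), (mem_Rl h).2 ⟨co_nonneg X k _ hnn, k, hs⟩⟩, ?_⟩
    rw [hf _ k hs]
    funext l
    have e1 : X.yk k (X.co k (X.sh y z)) l = X.sh y z l := by
      unfold yk
      simp only [co_lab h]
      exact br_rep h k _ l
    show ((X.yk k (X.co k (X.sh y z)) l / X.N : ℝ) : AddCircle (1 : ℝ)) = θ l
    rw [e1, ← hr l]
    show _ = ((r l : ℝ) : AddCircle (1 : ℝ))
    refine coe_eq_of (n := - z l) ?_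
    simp only [sh, y]
    push_cast
    field_simp
    ring
  haveI : CompactSpace (Rl X.facets) := isCompact_iff_compactSpace.1 (isCompact_RlB _)
  exact ⟨Continuous.homeoOfEquivCompactToT2 (f := Equiv.ofBijective f ⟨hinj, hsurj⟩) hcont⟩

end Pool.Agent.Helper39.KT.DD
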