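import Pool.Agent.Helper39.KT.DCont

/-!
# KT-10: two simplices meet in a common labelled face

PROOF.  Let y lie in the closed simplices k and k' + N z.  With L(v) = Qr v - Er k v and
L'(v) = Qr v - Er k' (v - N z) (affine, see KT-7 Er_translate, br_form, br_aff):
 y = ∑ β_j P_j, β_j = br k j y, P_j = pos k j:
   L'(y) = ∑ β_j L'(P_j) = ∑ β_j (Qr P_j - Er k' (P_j - N z)) = L(y) - ∑ β_j Er k' (P_j - N z),
 in the same way, y = ∑ γ_i R_i, R_i = pos k' i + N z, γ_i = br k' i (y - N z):
   L(y) = L'(y) - ∑ γ_i Er k (R_i).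
 Adding: ∑ β_j Er k' (P_j - N z) + ∑ γ_i Er k (R_i) = 0, all terms ≥ 0 (vertex_nonneg; for R_i use
 sh (cr (pos k' i)) (-z)).  So β_j > 0 implies Er k' (P_j - N z) = 0, and vertex_zero gives i with
 lab k' i = lab k j and pos k' i + N z = pos k j.
(2) inj: both families of coordinates, read as functions on the labels, agree: put
 w_i = x(lab k' i), where x(u) = ∑_j [lab k j = u] β_j.  By the first part the w_i sum to one and
 represent y with respect to k' + N z, so w_i = γ_i (br_unique).
-/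

namespace Pool.Agent.Helper39.KT.DD

open Finset

variable {X : DD}

/-- Q minus the power is affine -/
theorem L_form (h : X.Good) (k : Fin X.m) (z : Fin 4 → ℤ) :
    ∃ (a : ℝ) (b : Fin 4 → ℝ), ∀ v, X.Qr v - X.Er k (X.sh v z) = a + ∑ l, b l * v l := by
  choose a b hab using fun j : Fin 5 => br_form X k j z
  refine ⟨∑ j, a j * X.Qr (fun l => (X.pos k j l : ℝ) + X.N * z l),
    fun l => ∑ j, b j l * X.Qr (fun l => (X.pos k j l : ℝ) + X.N * z l), fun v => ?_⟩
  rw [Er_translate h]
  have e1 : (∑ l, (∑ j, b j l * X.Qr (fun l => (X.pos k j l : ℝ) + X.N * z l)) * v l)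
      = ∑ j, (∑ l, b j l * v l) * X.Qr (fun l => (X.pos k j l : ℝ) + X.N * z l) := by
    rw [Finset.sum_congr rfl (fun l _ => Finset.sum_mul _ _ _), Finset.sum_comm]
    refine Finset.sum_congr rfl (fun j _ => ?_)
    rw [Finset.sum_mul]
    exact Finset.sum_congr rfl (fun l _ => by ring)
  rw [e1, sub_sub_cancel, ← Finset.sum_add_distrib]
  refine Finset.sum_congr rfl (fun j _ => ?_)
  rw [hab j v]
  ring

theorem sh_zero (X : DD) (y : Fin 4 → ℝ) : X.sh y 0 = y := by
  funext l
  simp [sh]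

/-- the values of Q minus the power interpolate -/
theorem L_comb (h : X.Good) (k k' : Fin X.m) (z z' : Fin 4 → ℤ) (y : Fin 4 → ℝ) :
    X.Qr y - X.Er k' (X.sh y z') = ∑ j, X.br k j (X.sh y z)
      * (X.Qr (fun l => (X.pos k j l : ℝ) + X.N * z l)
        - X.Er k' (X.sh (fun l => (X.pos k j l : ℝ) + X.N * z l) z')) := by
  obtain ⟨a, b, hab⟩ := L_form h k' z'
  rw [hab y, br_aff h k z a b y]
  exact Finset.sum_congr rfl (fun j _ => by rw [hab])

theorem common (h : X.Good) (k k' : Fin X.m) (z : Fin 4 → ℤ) (y : Fin 4 → ℝ)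
    (h1 : ∀ j, 0 ≤ X.br k j y) (h2 : ∀ j, 0 ≤ X.br k' j (X.sh y z)) (j : Fin 5)
    (hj : 0 < X.br k j y) :
    ∃ i, X.lab k' i = X.lab k j ∧ ∀ l, X.pos k' i l + X.N * z l = X.pos k j l := by
  have A := L_comb h k k' 0 z y
  have B := L_comb h k' k z 0 y
  have C := Er_translate h k 0 y
  have D := Er_translate h k' z y
  simp only [sh_zero, Pi.zero_apply, Int.cast_zero, mul_zero, add_zero, mul_sub,
    Finset.sum_sub_distrib] at A B C D
  have nn1 : ∀ t, 0 ≤ X.br k t y * X.Er k' (X.sh (fun l => (X.pos k t l : ℝ)) z) := by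
    intro t
    exact mul_nonneg (h1 t) (vertex_nonneg h k t k' z)
  have nn2 : ∀ t, 0 ≤ X.br k' t (X.sh y z)
      * X.Er k (fun l => (X.pos k' t l : ℝ) + X.N * z l) := by
    intro t
    have e := vertex_nonneg h k' t k (-z)
    have e2 : X.sh (cr (X.pos k' t)) (-z) = (fun l => (X.pos k' t l : ℝ) + X.N * z l) := by
      funext l
      simp [sh, cr]
    rw [e2] at e
    exact mul_nonneg (h2 t) e
  have s2 := Finset.sum_nonneg (fun t (_ : t ∈ (Finset.univ : Finset (Fin 5))) => nn2 t)
  have s1 := Finset.sum_nonneg (fun t (_ : t ∈ (Finset.univ : Finset (Fin 5))) => nn1 t)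
  have s0 : ∑ t, X.br k t y * X.Er k' (X.sh (fun l => (X.pos k t l : ℝ)) z) = 0 := by
    linarith
  have s3 := (Finset.sum_eq_zero_iff_of_nonneg (fun t _ => nn1 t)).1 s0 j (Finset.mem_univ j)
  rcases mul_eq_zero.1 s3 with s4 | s4
  · exact absurd s4 hj.ne'
  · exact vertex_zero h k j k' z s4

/-- coordinates as a function on the labels -/
noncomputable def co (X : DD) (k : Fin X.m) (y : Fin 4 → ℝ) (u : ℕ) : ℝ :=
  ∑ j, if X.lab k j = u then X.br k j y else 0

theorem co_eq (h : X.Good) (k k' : Fin X.m) (z : Fin 4 → ℤ) (y : Fin 4 → ℝ)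
    (h1 : ∀ j, 0 ≤ X.br k j y) (h2 : ∀ j, 0 ≤ X.br k' j (X.sh y z)) :
    X.co k y = X.co k' (X.sh y z) := by
  -- for a vertex of k with positive coordinate, the matching vertex of k'
  have key : ∀ (f : Fin 5 → ℝ) (j : Fin 5) (c : ℝ),
      (0 < X.br k j y → ∀ i, X.lab k' i = X.lab k j →
        (∀ l, X.pos k' i l + X.N * z l = X.pos k j l) → f i = c) →
      ∑ i, (if X.lab k j = X.lab k' i then X.br k j y else 0) * f i = X.br k j y * c := by
    intro f j c hf
    rcases (h1 j).lt_or_eq with hp | hp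
    · obtain ⟨i, hi, hl⟩ := common h k k' z y h1 h2 j hp
      rw [Finset.sum_eq_single i]
      · rw [if_pos hi.symm, hf hp i hi hl]
      · intro t _ ht
        rw [if_neg, zero_mul]
        intro e
        exact ht (h.lab_inj k' (e.symm.trans hi.symm))
      · intro hn
        exact absurd (Finset.mem_univ i) hn
    · rw [← hp]
      simp
  have w1 : ∑ i, X.co k y (X.lab k' i) = 1 := by
    unfold co
    rw [Finset.sum_comm, ← br_sum h k y]
    refine Finset.sum_congr rfl (fun j _ => ?_)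
    have := key (fun _ => 1) j 1 (fun _ _ _ _ => rfl)
    simpa using this
  have w2 : ∀ l, ∑ i, X.co k y (X.lab k' i) * (X.pos k' i l : ℝ) = X.sh y z l := by
    intro l
    unfold co
    rw [Finset.sum_congr rfl (fun i _ => Finset.sum_mul _ _ _), Finset.sum_comm]
    have e1 : ∀ j, ∑ i, (if X.lab k j = X.lab k' i then X.br k j y else 0) * (X.pos k' i l : ℝ)
        = X.br k j y * ((X.pos k j l : ℝ) - X.N * z l) := by
      intro j
      refine key (fun i => (X.pos k' i l : ℝ)) j _ (fun _ i _ hl => ?_)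
      have := hl l
      have h3 : (X.pos k' i l : ℝ) + X.N * z l = X.pos k j l := by exact_mod_cast this
      show (X.pos k' i l : ℝ) = _
      linarith
    rw [Finset.sum_congr rfl (fun j _ => e1 j)]
    simp only [mul_sub, Finset.sum_sub_distrib]
    rw [br_rep h, ← Finset.sum_mul, br_sum h, one_mul]
    rfl
  have w3 : ∀ i, X.br k' i (X.sh y z) = X.co k y (X.lab k' i) :=
    fun i => br_unique h k' (fun i => X.co k y (X.lab k' i)) _ w1 w2 i
  funext u
  by_cases hu : ∃ i, X.lab k' i = u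
  · obtain ⟨i, rfl⟩ := hu
    rw [← w3 i]
    unfold co
    rw [Finset.sum_eq_single i]
    · rw [if_pos rfl]
    · intro t _ ht
      rw [if_neg]
      intro e
      exact ht (h.lab_inj k' e)
    · intro hn
      exact absurd (Finset.mem_univ i) hn
  · have e1 : X.co k' (X.sh y z) u = 0 := by
      unfold co
      refine Finset.sum_eq_zero (fun i _ => ?_)
      rw [if_neg]
      intro e
      exact hu ⟨i, e⟩
    rw [e1]
    unfold co
    refine Finset.sum_eq_zero (fun j _ => ?_)
    split_ifs with hju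
    · rcases (h1 j).lt_or_eq with hp | hp
      · obtain ⟨i, hi, -⟩ := common h k k' z y h1 h2 j hp
        exact absurd ⟨i, hi.trans hju⟩ hu
      · exact hp.symm
    · rfl

end Pool.Agent.Helper39.KT.DD
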