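import Pool.Agent.Helper39.KT.DCheck

/-! # Packed simplices (project KT) -/

namespace Pool.Agent.Helper39.KT

/-- w bits of n from position i -/
def fl (n i w : ℕ) : ℕ := Nat.land (Nat.shiftRight n i) (Nat.sub (Nat.pow 2 w) 1)

/-- four fields of width w from position i -/
def fl4 (n i w : ℕ) : V4 :=
  ⟨fl n i w, fl n (Nat.add i w) w, fl n (Nat.add i (Nat.mul 2 w)) w,
   fl n (Nat.add i (Nat.mul 3 w)) w⟩

def ofPack (n : ℕ) : Rc where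
  v := ⟨fl n 0 8, fl n 8 8, fl n 16 8, fl n 24 8, fl n 32 8⟩
  z := ⟨fl4 n 40 8, fl4 n 72 8, fl4 n 104 8, fl4 n 136 8, fl4 n 168 8⟩
  o := ⟨fl n 200 8, fl n 208 8, fl n 216 8, fl n 224 8, fl n 232 8⟩
  w := ⟨fl4 n 240 8, fl4 n 272 8, fl4 n 304 8, fl4 n 336 8, fl4 n 368 8⟩
  lo := fl4 n 400 8
  hi := fl4 n 432 8
  D := fl n 464 24
  g := ⟨fl4 n 488 16, fl4 n 552 16, fl4 n 616 16, fl4 n 680 16, fl4 n 744 16⟩
  c := ⟨fl n 808 32, fl n 840 32, fl n 872 32, fl n 904 32, fl n 936 32⟩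
  A := fl4 n 968 32
  B := fl n 1096 48

end Pool.Agent.Helper39.KT
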