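import Pool.Agent.Helper39.KT.DPack

/-! # The Delaunay data given by a list of checked records (project KT) -/

namespace Pool.Agent.Helper39.KT

/-- the forms x0+x1+x2, x0+x3, x1+x3, x2 (Gram matrix of D_4) -/
def qf : Fin 4 → Fin 4 → ℤ
  | 0 => fun i => if i = 3 then 0 else 1
  | 1 => fun i => if i = 0 ∨ i = 3 then 1 else 0
  | 2 => fun i => if i = 1 ∨ i = 3 then 1 else 0
  | 3 => fun i => if i = 2 then 1 else 0

def mkDD (π : Par) (R : List Rc) : DD where
  m := R.length
  N := π.N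
  q := qf
  lab := fun k j => (R.get k).v.f j
  pos := fun k j l => ((((R.get k).x π).f j).f l : ℤ)
  D := fun k => ((R.get k).D : ℤ)
  g := fun k j i => ((((R.get k).g.f j).f i : ℕ) : ℤ) - π.M
  c := fun k j => (((R.get k).c.f j : ℕ) : ℤ) - π.Mc

/-- an integer vector with natural coordinates -/
def V4.z (x : V4) : Fin 4 → ℤ := fun l => (x.f l : ℤ)

theorem mkDD_pos (π : Par) (R : List Rc) (k : Fin R.length) (j : Fin 5) :
    (mkDD π R).pos k j = (((R.get k).x π).f j).z := rfl

theorem Qz_z (π : Par) (R : List Rc) (x : V4) : (mkDD π R).Qz x.z = (Qn x : ℤ) := by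
  simp only [DD.Qz, mkDD, qf, V4.z, V4.f, Qn, Fin.sum_univ_four]
  simp
  ring

theorem bz_z (π : Par) (R : List Rc) (k : Fin R.length) (j : Fin 5) (x : V4) :
    (mkDD π R).bz k j x.z
      = (ev ((R.get k).g.f j) ((R.get k).c.f j) x : ℤ) - (of π x : ℤ) := by
  simp only [DD.bz, mkDD, V4.z, V4.f, ev, of, V4.dot, V4.sum, Fin.sum_univ_four]
  simp
  ring

end Pool.Agent.Helper39.KT
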