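import Pool.Agent.Helper39.KT.DSpec

/-! # Algebraic conditions from the kernel check (project KT) -/

namespace Pool.Agent.Helper39.KT

open Finset

theorem natbeq {a b : ℕ} : Nat.beq a b = true ↔ a = b := by simp
theorem natblt {a b : ℕ} : Nat.blt a b = true ↔ a < b := by simp [Nat.blt_eq]
theorem natble {a b : ℕ} : Nat.ble a b = true ↔ a ≤ b := by simp [Nat.ble_eq]

theorem cDelta_spec {π : Par} {r : Rc} (h : cDelta π r = true) (j i : Fin 5) :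
    ev (r.g.f j) (r.c.f j) ((r.x π).f i) = of π ((r.x π).f i) + (if j = i then r.D else 0) := by
  simp only [cDelta, row, Bool.and_eq_true, natbeq] at h
  obtain ⟨⟨⟨⟨h0, h1⟩, h2⟩, h3⟩, h4⟩ := h
  obtain ⟨⟨⟨⟨h00, h01⟩, h02⟩, h03⟩, h04⟩ := h0
  obtain ⟨⟨⟨⟨h10, h11⟩, h12⟩, h13⟩, h14⟩ := h1
  obtain ⟨⟨⟨⟨h20, h21⟩, h22⟩, h23⟩, h24⟩ := h2
  obtain ⟨⟨⟨⟨h30, h31⟩, h32⟩, h33⟩, h34⟩ := h3
  obtain ⟨⟨⟨⟨h40, h41⟩, h42⟩, h43⟩, h44⟩ := h4
  fin_cases j <;> fin_cases i <;> simp [T5.f] <;> assumption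

theorem cSum_c {π : Par} {r : Rc} (h : cSum π r = true) :
    ∑ j, (((r.c.f j : ℕ) : ℤ) - π.Mc) = r.D := by
  simp only [cSum, s5, Bool.and_eq_true, natbeq] at h
  obtain ⟨⟨⟨⟨h0, h1⟩, h2⟩, h3⟩, h4⟩ := h
  simp only [Fin.sum_univ_five, T5.f]
  have := congrArg (fun n : ℕ => (n : ℤ)) h0
  simp only [Nat.add_eq, Nat.mul_eq] at this
  push_cast at this
  linarith

theorem cSum_g {π : Par} {r : Rc} (h : cSum π r = true) (i : Fin 4) :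
    ∑ j, ((((r.g.f j).f i : ℕ) : ℤ) - π.M) = 0 := by
  simp only [cSum, s5, Bool.and_eq_true, natbeq] at h
  obtain ⟨⟨⟨⟨h0, h1⟩, h2⟩, h3⟩, h4⟩ := h
  have c1 := congrArg (fun n : ℕ => (n : ℤ)) h1
  have c2 := congrArg (fun n : ℕ => (n : ℤ)) h2
  have c3 := congrArg (fun n : ℕ => (n : ℤ)) h3
  have c4 := congrArg (fun n : ℕ => (n : ℤ)) h4
  simp only [Nat.add_eq, Nat.mul_eq] at c1 c2 c3 c4
  push_cast at c1 c2 c3 c4
  simp only [Fin.sum_univ_five, T5.f]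
  fin_cases i <;> simp only [V4.f] <;> linarith

theorem rp_spec {m a0 a1 a2 a3 a4 x0 x1 x2 x3 x4 e : ℕ}
    (h : rp m a0 a1 a2 a3 a4 x0 x1 x2 x3 x4 e = true) :
    ((a0 : ℤ) - m) * x0 + ((a1 : ℤ) - m) * x1 + ((a2 : ℤ) - m) * x2 + ((a3 : ℤ) - m) * x3
      + ((a4 : ℤ) - m) * x4 = e := by
  simp only [rp, d5, s5, natbeq] at h
  have c := congrArg (fun n : ℕ => (n : ℤ)) h
  simp only [Nat.add_eq, Nat.mul_eq] at c
  push_cast at c
  linarith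

theorem cRep_c {π : Par} {r : Rc} (h : cRep π r = true) (l : Fin 4) :
    ∑ j, (((r.c.f j : ℕ) : ℤ) - π.Mc) * ((((r.x π).f j).f l : ℕ) : ℤ) = 0 := by
  simp only [cRep, rp4, Bool.and_eq_true] at h
  obtain ⟨⟨⟨⟨⟨⟨⟨h0, h1⟩, h2⟩, h3⟩, -⟩, -⟩, -⟩, -⟩ := h
  simp only [Fin.sum_univ_five, T5.f]
  fin_cases l <;> simp only [V4.f]
  · exact_mod_cast rp_spec h0
  · exact_mod_cast rp_spec h1
  · exact_mod_cast rp_spec h2
  · exact_mod_cast rp_spec h3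

theorem cRep_g {π : Par} {r : Rc} (h : cRep π r = true) (i l : Fin 4) :
    ∑ j, ((((r.g.f j).f i : ℕ) : ℤ) - π.M) * ((((r.x π).f j).f l : ℕ) : ℤ)
      = if i = l then (r.D : ℤ) else 0 := by
  simp only [cRep, rp4, Bool.and_eq_true] at h
  obtain ⟨⟨⟨⟨-, ⟨⟨⟨h00, h01⟩, h02⟩, h03⟩⟩, ⟨⟨⟨h10, h11⟩, h12⟩, h13⟩⟩,
    ⟨⟨⟨h20, h21⟩, h22⟩, h23⟩⟩, ⟨⟨⟨h30, h31⟩, h32⟩, h33⟩⟩ := h
  simp only [Fin.sum_univ_five, T5.f]
  fin_cases i <;> fin_cases l <;> simp only [V4.f] <;> simp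
  · exact_mod_cast rp_spec h00
  · exact_mod_cast rp_spec h01
  · exact_mod_cast rp_spec h02
  · exact_mod_cast rp_spec h03
  · exact_mod_cast rp_spec h10
  · exact_mod_cast rp_spec h11
  · exact_mod_cast rp_spec h12
  · exact_mod_cast rp_spec h13
  · exact_mod_cast rp_spec h20
  · exact_mod_cast rp_spec h21
  · exact_mod_cast rp_spec h22
  · exact_mod_cast rp_spec h23
  · exact_mod_cast rp_spec h30
  · exact_mod_cast rp_spec h31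
  · exact_mod_cast rp_spec h32
  · exact_mod_cast rp_spec h33

theorem ip_spec {m mA a0 a1 a2 a3 a4 x0 x1 x2 x3 x4 A : ℕ}
    (h : ip m mA a0 a1 a2 a3 a4 x0 x1 x2 x3 x4 A = true) :
    ((a0 : ℤ) - m) * x0 + ((a1 : ℤ) - m) * x1 + ((a2 : ℤ) - m) * x2 + ((a3 : ℤ) - m) * x3
      + ((a4 : ℤ) - m) * x4 = (A : ℤ) - mA := by
  simp only [ip, d5, s5, natbeq] at h
  have c := congrArg (fun n : ℕ => (n : ℤ)) h
  simp only [Nat.add_eq, Nat.mul_eq] at c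
  push_cast at c
  linarith

/-- pw says that the power is positive -/
theorem pw_iff {π : Par} {R : List Rc} (k : Fin R.length) (h : cIp π (R.get k) = true) (y : V4) :
    pw π (R.get k) y = true ↔ 0 < (mkDD π R).Ez k y.z := by
  set r := R.get k with hr
  simp only [cIp, cIp', Bool.and_eq_true] at h
  obtain ⟨⟨⟨⟨h0, h1⟩, h2⟩, h3⟩, h4⟩ := h
  have e0 := ip_spec h0
  have e1 := ip_spec h1
  have e2 := ip_spec h2
  have e3 := ip_spec h3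
  have e4 := ip_spec h4
  have hE : (mkDD π R).Ez k y.z = (r.D : ℤ) * Qn y
      - (((r.B : ℤ) - π.MB) + (((r.A.a : ℤ) - π.MA) * y.a + ((r.A.b : ℤ) - π.MA) * y.b
        + ((r.A.c : ℤ) - π.MA) * y.c + ((r.A.d : ℤ) - π.MA) * y.d)) := by
    rw [← e0, ← e1, ← e2, ← e3, ← e4]
    simp only [DD.Ez, Qz_z, mkDD_pos, bz_z, Fin.sum_univ_five, ← hr]
    simp only [mkDD, ev, of, V4.dot, V4.sum, T5.f, ← hr, Nat.add_eq, Nat.mul_eq]
    push_cast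
    ring
  rw [hE, pw, natblt]
  simp only [V4.dot, V4.sum, Nat.add_eq, Nat.mul_eq]
  zify
  constructor <;> intro hh <;> linarith

end Pool.Agent.Helper39.KT
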