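import Pool.Agent.Helper39.KT.DSpecA

/-! # Labels and displacements from the kernel check (project KT) -/

namespace Pool.Agent.Helper39.KT

open Finset

/-- base position of the label v -/
def bp (π : Par) (v : ℕ) : V4 := π.P.getD v ⟨0, 0, 0, 0⟩

theorem ps_f (π : Par) (v : ℕ) (z : V4) (l : Fin 4) :
    (ps π v z).f l = (bp π v).f l + π.N * z.f l := by
  fin_cases l <;> rfl

theorem x_f (π : Par) (r : Rc) (j : Fin 5) : (r.x π).f j = ps π (r.v.f j) (r.z.f j) := by
  fin_cases j <;> rfl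

theorem y_f (π : Par) (r : Rc) (j : Fin 5) : (r.y π).f j = ps π (r.o.f j) (r.w.f j) := by
  fin_cases j <;> rfl

/-- the field number l of a code -/
def dg (n : ℕ) : Fin 4 → ℕ
  | 0 => Nat.land n 3
  | 1 => Nat.land (Nat.shiftRight n 2) 3
  | 2 => Nat.land (Nat.shiftRight n 4) 3
  | 3 => Nat.land (Nat.shiftRight n 6) 3

theorem dz'_spec {n : ℕ} {z w : V4} (h : dz' n z w = true) (l : Fin 4) :
    z.f l + dg n l = w.f l + 1 := by
  simp only [dz', Bool.and_eq_true, natbeq] at h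
  obtain ⟨⟨⟨h0, h1⟩, h2⟩, h3⟩ := h
  fin_cases l
  · exact h0
  · exact h1
  · exact h2
  · exact h3

/-- displacement of the lattice part from label u to label v -/
def dsp (π : Par) (u v : ℕ) (l : Fin 4) : ℤ :=
  if u < v then (dg (code π u v) l : ℤ) - 1 else 1 - dg (code π v u) l

theorem dsp_neg {π : Par} {u v : ℕ} (h : u ≠ v) (l : Fin 4) : dsp π u v l = - dsp π v u l := by
  unfold dsp
  rcases lt_or_gt_of_ne h with h1 | h1
  · rw [if_pos h1, if_neg (by omega)]; ring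
  · rw [if_neg (by omega), if_pos h1]; ring

theorem dz_spec {π : Par} {u v : ℕ} {z w : V4} (huv : u < v) (h : dz π u z v w = true) (l : Fin 4) :
    (w.f l : ℤ) - z.f l = dsp π u v l := by
  have := dz'_spec h l
  rw [dsp, if_pos huv]
  omega

theorem dzs_spec {π : Par} {u v : ℕ} {z w : V4} (huv : u ≠ v) (h : dzs π u z v w = true)
    (l : Fin 4) : (w.f l : ℤ) - z.f l = dsp π u v l := by
  rcases lt_or_gt_of_ne huv with h1 | h1
  · have : Nat.blt u v = true := natblt.2 h1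
    rw [dzs, this] at h
    exact dz_spec h1 h l
  · have : Nat.blt u v = false := by
      cases hb : Nat.blt u v with
      | false => rfl
      | true => exact absurd (natblt.1 hb) (by omega)
    rw [dzs, this] at h
    have := dz_spec h1 h l
    rw [dsp_neg huv]
    linarith

theorem cLab_lt {π : Par} {r : Rc} (h : cLab π r = true) :
    r.v.p0 < r.v.p1 ∧ r.v.p1 < r.v.p2 ∧ r.v.p2 < r.v.p3 ∧ r.v.p3 < r.v.p4 ∧ r.v.p4 < 32 := by
  simp only [cLab, Bool.and_eq_true, natblt] at h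
  obtain ⟨⟨⟨⟨⟨⟨⟨⟨⟨⟨⟨⟨⟨⟨h1, h2⟩, h3⟩, h4⟩, h5⟩, -⟩, -⟩, -⟩, -⟩, -⟩, -⟩, -⟩, -⟩, -⟩, -⟩ := h
  exact ⟨h1, h2, h3, h4, h5⟩

theorem lab_lt {π : Par} {r : Rc} (h : cLab π r = true) (j : Fin 5) : r.v.f j < 32 := by
  obtain ⟨h1, h2, h3, h4, h5⟩ := cLab_lt h
  fin_cases j <;> simp only [T5.f] <;> omega

theorem lab_inj' {π : Par} {r : Rc} (h : cLab π r = true) : Function.Injective r.v.f := by
  obtain ⟨h1, h2, h3, h4, h5⟩ := cLab_lt h
  intro i j hij
  fin_cases i <;> fin_cases j <;> simp only [T5.f] at hij <;> first | rfl | omega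

theorem disp {π : Par} {r : Rc} (h : cLab π r = true) (i j : Fin 5) (hij : i ≠ j) (l : Fin 4) :
    ((r.z.f j).f l : ℤ) - (r.z.f i).f l = dsp π (r.v.f i) (r.v.f j) l := by
  have hi := lab_inj' h
  have hne : r.v.f i ≠ r.v.f j := fun e => hij (hi e)
  obtain ⟨h1, h2, h3, h4, h5⟩ := cLab_lt h
  simp only [cLab, Bool.and_eq_true] at h
  obtain ⟨⟨⟨⟨⟨⟨⟨⟨⟨⟨⟨⟨⟨⟨-, -⟩, -⟩, -⟩, -⟩, d01⟩, d02⟩, d03⟩, d04⟩, d12⟩, d13⟩, d14⟩, d23⟩, d24⟩,
    d34⟩ := h
  have key : ∀ (i j : Fin 5), i < j →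
      ((r.z.f j).f l : ℤ) - (r.z.f i).f l = dsp π (r.v.f i) (r.v.f j) l := by
    intro i j hij
    fin_cases i <;> fin_cases j <;> simp only [T5.f] <;>
      first
        | exact absurd hij (by decide)
        | exact dz_spec (by omega) d01 l
        | exact dz_spec (by omega) d02 l
        | exact dz_spec (by omega) d03 l
        | exact dz_spec (by omega) d04 l
        | exact dz_spec (by omega) d12 l
        | exact dz_spec (by omega) d13 l
        | exact dz_spec (by omega) d14 l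
        | exact dz_spec (by omega) d23 l
        | exact dz_spec (by omega) d24 l
        | exact dz_spec (by omega) d34 l
  rcases lt_or_gt_of_ne hij with hl | hl
  · exact key i j hl
  · rw [dsp_neg hne]
    have := key j i hl
    linarith

theorem pos_sub {π : Par} {r : Rc} (h : cLab π r = true) (i j : Fin 5) (l : Fin 4) :
    (((r.x π).f j).f l : ℤ) - ((r.x π).f i).f l
      = ((bp π (r.v.f j)).f l : ℤ) - (bp π (r.v.f i)).f l
        + π.N * (if r.v.f i = r.v.f j then 0 else dsp π (r.v.f i) (r.v.f j) l) := by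
  simp only [x_f, ps_f]
  by_cases hij : i = j
  · subst hij; simp
  · have hne : r.v.f i ≠ r.v.f j := fun e => hij (lab_inj' h e)
    rw [if_neg hne, ← disp h i j hij l]
    push_cast
    ring

theorem lat_spec {π : Par} {R : List Rc} (k : Fin R.length) (j : Fin 5) (k' : Fin R.length)
    (j' : Fin 5) (hl : (mkDD π R).lab k j = (mkDD π R).lab k' j') (l : Fin 4) :
    ((mkDD π R).N : ℤ) ∣ (mkDD π R).pos k j l - (mkDD π R).pos k' j' l := by
  simp only [mkDD, x_f, ps_f] at hl ⊢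
  rw [hl]
  refine ⟨((((R.get k).z.f j).f l : ℕ) : ℤ) - (((R.get k').z.f j').f l : ℕ), ?_⟩
  push_cast
  ring

theorem cons_spec {π : Par} {R : List Rc} (h : ∀ r ∈ R, cLab π r = true)
    (k : Fin R.length) (i j : Fin 5) (k' : Fin R.length) (i' j' : Fin 5)
    (h1 : (mkDD π R).lab k i = (mkDD π R).lab k' i')
    (h2 : (mkDD π R).lab k j = (mkDD π R).lab k' j') (l : Fin 4) :
    (mkDD π R).pos k j l - (mkDD π R).pos k i l
      = (mkDD π R).pos k' j' l - (mkDD π R).pos k' i' l := by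
  have e1 := pos_sub (h _ (List.get_mem R k)) i j l
  have e2 := pos_sub (h _ (List.get_mem R k')) i' j' l
  simp only [mkDD] at h1 h2 ⊢
  rw [e1, e2, h1, h2]

end Pool.Agent.Helper39.KT
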