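import Pool.Agent.Helper39.KT.DSpecB

/-! # Adjacency from the kernel check (project KT) -/

namespace Pool.Agent.Helper39.KT

open Finset

theorem exists_bit5 {a b c d e : ℕ}
    (h : Nat.land (Nat.land (Nat.land a b) (Nat.land c d)) e ≠ 0) :
    ∃ k, a.testBit k = true ∧ b.testBit k = true ∧ c.testBit k = true ∧ d.testBit k = true ∧
      e.testBit k = true := by
  obtain ⟨k, hk⟩ := Nat.exists_testBit_of_ne_zero h
  change ((((a &&& b) &&& (c &&& d)) &&& e)).testBit k = true at hk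
  simp only [Nat.testBit_land, Bool.and_eq_true] at hk
  obtain ⟨⟨⟨ha, hb⟩, hc, hd⟩, he⟩ := hk
  exact ⟨k, ha, hb, hc, hd, he⟩

theorem nb1_spec {π : Par} {r : Rc} {v1 v2 v3 v4 : ℕ} {z1 z2 z3 z4 : V4} {o : ℕ} {w y g : V4}
    {c : ℕ} (h : nb1 π r v1 v2 v3 v4 z1 z2 z3 z4 o w y g c = true) :
    o < 32 ∧ (∃ b, (π.I.getD v1 0).testBit b = true ∧ (π.I.getD v2 0).testBit b = true ∧
      (π.I.getD v3 0).testBit b = true ∧ (π.I.getD v4 0).testBit b = true ∧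
      (π.I.getD o 0).testBit b = true) ∧ o ≠ v1 ∧ o ≠ v2 ∧ o ≠ v3 ∧ o ≠ v4 ∧
      dzs π v1 z1 o w = true ∧ dzs π v2 z2 o w = true ∧ dzs π v3 z3 o w = true ∧
      dzs π v4 z4 o w = true ∧ ev g c y < of π y ∧ pw π r y = true := by
  simp only [nb1, Bool.and_eq_true, natblt, Bool.not_eq_true', ← Bool.not_eq_true, natbeq] at h
  obtain ⟨⟨⟨⟨⟨⟨⟨⟨⟨⟨⟨h0, h1⟩, h2⟩, h3⟩, h4⟩, h5⟩, h6⟩, h7⟩, h8⟩, h9⟩, h10⟩, h11⟩ := h
  exact ⟨h0, exists_bit5 h1, h2, h3, h4, h5, h6, h7, h8, h9, h10, h11⟩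

theorem cNb_spec {π : Par} {r : Rc} (h : cNb π r = true) (j : Fin 5) :
    r.o.f j < 32 ∧
    (∃ b, (∀ i, i ≠ j → (π.I.getD (r.v.f i) 0).testBit b = true) ∧
      (π.I.getD (r.o.f j) 0).testBit b = true) ∧
    (∀ i, i ≠ j → r.o.f j ≠ r.v.f i) ∧
    (∀ i, i ≠ j → dzs π (r.v.f i) (r.z.f i) (r.o.f j) (r.w.f j) = true) ∧
    ev (r.g.f j) (r.c.f j) ((r.y π).f j) < of π ((r.y π).f j) ∧
    pw π r ((r.y π).f j) = true := by
  simp only [cNb, Bool.and_eq_true] at h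
  obtain ⟨⟨⟨⟨h0, h1⟩, h2⟩, h3⟩, h4⟩ := h
  have k0 := nb1_spec h0
  have k1 := nb1_spec h1
  have k2 := nb1_spec h2
  have k3 := nb1_spec h3
  have k4 := nb1_spec h4
  fin_cases j
  · obtain ⟨a, ⟨b, b1, b2, b3, b4, b5⟩, n1, n2, n3, n4, d1, d2, d3, d4, e, p⟩ := k0
    refine ⟨a, ⟨b, ?_, b5⟩, ?_, ?_, e, p⟩ <;> intro i hi <;> fin_cases i <;>
      first | exact absurd rfl hi | assumption
  · obtain ⟨a, ⟨b, b1, b2, b3, b4, b5⟩, n1, n2, n3, n4, d1, d2, d3, d4, e, p⟩ := k1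
    refine ⟨a, ⟨b, ?_, b5⟩, ?_, ?_, e, p⟩ <;> intro i hi <;> fin_cases i <;>
      first | exact absurd rfl hi | assumption
  · obtain ⟨a, ⟨b, b1, b2, b3, b4, b5⟩, n1, n2, n3, n4, d1, d2, d3, d4, e, p⟩ := k2
    refine ⟨a, ⟨b, ?_, b5⟩, ?_, ?_, e, p⟩ <;> intro i hi <;> fin_cases i <;>
      first | exact absurd rfl hi | assumption
  · obtain ⟨a, ⟨b, b1, b2, b3, b4, b5⟩, n1, n2, n3, n4, d1, d2, d3, d4, e, p⟩ := k3
    refine ⟨a, ⟨b, ?_, b5⟩, ?_, ?_, e, p⟩ <;> intro i hi <;> fin_cases i <;>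
      first | exact absurd rfl hi | assumption
  · obtain ⟨a, ⟨b, b1, b2, b3, b4, b5⟩, n1, n2, n3, n4, d1, d2, d3, d4, e, p⟩ := k4
    refine ⟨a, ⟨b, ?_, b5⟩, ?_, ?_, e, p⟩ <;> intro i hi <;> fin_cases i <;>
      first | exact absurd rfl hi | assumption

/-- the incidence masks are right (one direction) -/
def IncProp (π : Par) (R : List Rc) : Prop :=
  ∀ u < 32, ∀ b, (π.I.getD u 0).testBit b = true →
    ∃ k : Fin R.length, (k : ℕ) = b ∧ ∃ j, (R.get k).v.f j = u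

theorem adj_spec {π : Par} {R : List Rc} (hI : IncProp π R) (hl : ∀ r ∈ R, cLab π r = true)
    (hip : ∀ r ∈ R, cIp π r = true) (hn : ∀ r ∈ R, cNb π r = true) (k : Fin R.length) (j : Fin 5) :
    ∃ k' j' z, (∀ i, i ≠ j → ∃ i', i' ≠ j' ∧
        (mkDD π R).tz ((mkDD π R).pos k' i') z = (mkDD π R).pos k i) ∧
      (mkDD π R).bz k j ((mkDD π R).tz ((mkDD π R).pos k' j') z) < 0 ∧
      0 < (mkDD π R).Ez k ((mkDD π R).tz ((mkDD π R).pos k' j') z) := by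
  have hk := List.get_mem R k
  obtain ⟨ho, ⟨b, hb, hbo⟩, hne, hd, he, hp⟩ := cNb_spec (hn _ hk) j
  obtain ⟨k', hk', j', hj'⟩ := hI _ ho b hbo
  have hl' := hl _ (List.get_mem R k')
  set r := R.get k with hr
  set r' := R.get k' with hr'
  let z : Fin 4 → ℤ := fun l => ((r.w.f j).f l : ℤ) - (r'.z.f j').f l
  have hy : (mkDD π R).tz ((mkDD π R).pos k' j') z = ((r.y π).f j).z := by
    funext l
    simp only [DD.tz, mkDD_pos, V4.z, x_f, y_f, ps_f, ← hr', hj', z]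
    simp only [mkDD]
    push_cast
    ring
  refine ⟨k', j', z, ?_, ?_, ?_⟩
  · intro i hi
    obtain ⟨k'', hk'', i', hi'⟩ := hI _ (lab_lt (hl _ hk) i) b (hb i hi)
    have hkk : k'' = k' := Fin.ext (by rw [hk'', hk'])
    subst hkk
    have hi2 : r'.v.f i' = r.v.f i := hi'
    have hij : i' ≠ j' := by
      intro e
      rw [e] at hi2
      exact hne i hi (by rw [← hj', ← hi2])
    refine ⟨i', hij, ?_⟩
    funext l
    have e1 := disp hl' i' j' hij l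
    have e2 := dzs_spec (Ne.symm (hne i hi)) (hd i hi) l
    rw [hi2, hj', ← e2] at e1
    simp only [DD.tz, mkDD_pos, V4.z, x_f, ps_f, ← hr', ← hr, hi2, z]
    simp only [mkDD]
    push_cast
    have : ((r.w.f j).f l : ℤ) - (r'.z.f j').f l = ((r.z.f i).f l : ℤ) - (r'.z.f i').f l := by
      linarith
    rw [this]
    ring
  · rw [hy, bz_z, ← hr]
    have : (ev (r.g.f j) (r.c.f j) ((r.y π).f j) : ℤ) < (of π ((r.y π).f j) : ℤ) := by
      exact_mod_cast he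
    linarith
  · rw [hy]
    exact (pw_iff k (hip _ hk) _).1 hp

end Pool.Agent.Helper39.KT
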