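import Pool.Agent.Helper39.KT.DSpecC

/-! # No vertex in a foreign simplex, from the kernel check (project KT) -/

namespace Pool.Agent.Helper39.KT

open Finset

theorem cPts_spec {π : Par} {r : Rc} : ∀ {l : List V4} {u : ℕ}, cPts π r u l = true →
    ∀ i < l.length, cPt π r (u + i) (l.getD i ⟨0, 0, 0, 0⟩) = true
  | [], _, _, i, hi => absurd hi (by simp)
  | p :: l, u, h, 0, _ => by
    simp only [cPts, Bool.and_eq_true] at h
    exact h.1
  | p :: l, u, h, i + 1, hi => by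
    simp only [cPts, Bool.and_eq_true] at h
    have := cPts_spec h.2 i (by simpa using hi)
    rw [show u + (i + 1) = u + 1 + i by ring]
    simpa using this

theorem le4_spec {x y : V4} (h : le4 x y = true) (l : Fin 4) : x.f l ≤ y.f l := by
  simp only [le4, Bool.and_eq_true, natble] at h
  obtain ⟨⟨⟨h0, h1⟩, h2⟩, h3⟩ := h
  fin_cases l <;> assumption

theorem beq4_spec {x y : V4} (h : beq4 x y = true) (l : Fin 4) : x.f l = y.f l := by
  simp only [beq4, Bool.and_eq_true, natbeq] at h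
  obtain ⟨⟨⟨h0, h1⟩, h2⟩, h3⟩ := h
  fin_cases l <;> assumption

theorem cBox_spec {π : Par} {r : Rc} (h : cBox π r = true) (l : Fin 4) :
    (∀ j, r.lo.f l ≤ ((r.x π).f j).f l ∧ ((r.x π).f j).f l ≤ r.hi.f l) ∧
      r.hi.f l < r.lo.f l + π.N ∧ r.lo.f l ≤ 4 * π.N := by
  simp only [cBox, Bool.and_eq_true, natblt, natble] at h
  obtain ⟨⟨⟨⟨⟨⟨⟨⟨⟨⟨⟨⟨⟨⟨⟨⟨⟨a0, a1⟩, a2⟩, a3⟩, a4⟩, b0⟩, b1⟩, b2⟩, b3⟩, b4⟩, c0⟩, c1⟩, c2⟩, c3⟩, d0⟩, d1⟩,
    d2⟩, d3⟩ := h
  refine ⟨?_, ?_, ?_⟩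
  · intro j
    fin_cases j
    · exact ⟨le4_spec a0 l, le4_spec b0 l⟩
    · exact ⟨le4_spec a1 l, le4_spec b1 l⟩
    · exact ⟨le4_spec a2 l, le4_spec b2 l⟩
    · exact ⟨le4_spec a3 l, le4_spec b3 l⟩
    · exact ⟨le4_spec a4 l, le4_spec b4 l⟩
  · fin_cases l <;> assumption
  · fin_cases l <;> assumption

theorem cn_spec {N p lo : ℕ} (hlo : lo ≤ 4 * N) {y : ℤ} {t : ℤ}
    (hy : y = p + N * t) (h1 : (lo : ℤ) ≤ y) (h2 : y < lo + N) : y = cn N p lo := by
  unfold cn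
  simp only [Nat.add_eq, Nat.mul_eq, Nat.sub_eq]
  have e : Nat.mod (p + 4 * N - lo) N = (p + 4 * N - lo) % N := rfl
  rw [e]
  push_cast
  have hsub : ((p + 4 * N - lo : ℕ) : ℤ) = p + 4 * N - lo := by
    rw [Nat.cast_sub (by omega)]; push_cast; ring
  rw [hsub]
  have hmod : ((p : ℤ) + 4 * N - lo) % N = y - lo := by
    have hh : ((p : ℤ) + 4 * N - lo) = (y - lo) + N * (4 - t) := by rw [hy]; ring
    rw [hh, Int.add_mul_emod_self_left]
    exact Int.emod_eq_of_lt (by linarith) (by linarith)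
  rw [hmod]; ring

theorem cvx (D : ℤ) (b s : Fin 5 → ℤ) (t : ℤ) (hb : ∀ j, 0 ≤ b j) (h1 : ∑ j, b j = D)
    (h2 : ∑ j, b j * s j = D * t) : D * t ^ 2 ≤ ∑ j, b j * s j ^ 2 := by
  have h0 : 0 ≤ ∑ j, b j * (s j - t) ^ 2 :=
    Finset.sum_nonneg fun j _ => mul_nonneg (hb j) (sq_nonneg _)
  have : ∑ j, b j * (s j - t) ^ 2
      = ∑ j, b j * s j ^ 2 - 2 * t * ∑ j, b j * s j + t ^ 2 * ∑ j, b j := by
    rw [Finset.mul_sum, Finset.mul_sum, ← Finset.sum_sub_distrib, ← Finset.sum_add_distrib]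
    exact Finset.sum_congr rfl fun j _ => by ring
  rw [this, h1, h2] at h0
  nlinarith

theorem rep (π : Par) {R : List Rc} (k : Fin R.length) (hs : cSum π (R.get k) = true)
    (hr : cRep π (R.get k) = true) (y : Fin 4 → ℤ) :
    ∑ j, (mkDD π R).bz k j y = (mkDD π R).D k ∧
      ∀ l, ∑ j, (mkDD π R).bz k j y * (mkDD π R).pos k j l = (mkDD π R).D k * y l := by
  have e1 := cSum_c hs
  have e2 := cSum_g hs
  have e3 := cRep_c hr
  have e4 := cRep_g hr
  constructor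
  · have : ∑ j, (mkDD π R).bz k j y
        = ∑ j, ((((R.get k).c.f j : ℕ) : ℤ) - π.Mc)
          + ∑ i, (∑ j, (((((R.get k).g.f j).f i : ℕ) : ℤ) - π.M)) * y i := by
      simp only [DD.bz, mkDD, Finset.sum_add_distrib]
      congr 1
      rw [Finset.sum_comm]
      exact Finset.sum_congr rfl fun i _ => by rw [Finset.sum_mul]
    rw [this, e1]
    simp only [e2, zero_mul, Finset.sum_const_zero, add_zero]
    rfl
  · intro l
    have : ∑ j, (mkDD π R).bz k j y * (mkDD π R).pos k j l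
        = ∑ j, ((((R.get k).c.f j : ℕ) : ℤ) - π.Mc) * (((((R.get k).x π).f j).f l : ℕ) : ℤ)
          + ∑ i, (∑ j, (((((R.get k).g.f j).f i : ℕ) : ℤ) - π.M)
              * (((((R.get k).x π).f j).f l : ℕ) : ℤ)) * y i := by
      simp only [DD.bz, mkDD, add_mul, Finset.sum_add_distrib]
      congr 1
      simp only [Finset.sum_mul]
      rw [Finset.sum_comm]
      exact Finset.sum_congr rfl fun i _ => Finset.sum_congr rfl fun j _ => by ring
    rw [this, e3]
    simp only [e4, ite_mul, zero_mul, Finset.sum_ite_eq', Finset.mem_univ, if_true, zero_add]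
    rfl

theorem Ez_nonpos (π : Par) {R : List Rc} (k : Fin R.length) (hs : cSum π (R.get k) = true)
    (hr : cRep π (R.get k) = true) (y : Fin 4 → ℤ) (hy : ∀ j, 0 ≤ (mkDD π R).bz k j y) :
    (mkDD π R).Ez k y ≤ 0 := by
  obtain ⟨h1, h2⟩ := rep π k hs hr y
  have key : ∀ a : Fin 4, (mkDD π R).D k * (∑ i, (mkDD π R).q a i * y i) ^ 2
      ≤ ∑ j, (mkDD π R).bz k j y * (∑ i, (mkDD π R).q a i * (mkDD π R).pos k j i) ^ 2 := by
    intro a
    refine cvx _ _ _ _ hy h1 ?_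
    have : ∑ j, (mkDD π R).bz k j y * ∑ i, (mkDD π R).q a i * (mkDD π R).pos k j i
        = ∑ i, (mkDD π R).q a i * ∑ j, (mkDD π R).bz k j y * (mkDD π R).pos k j i := by
      simp only [Finset.mul_sum]
      rw [Finset.sum_comm]
      exact Finset.sum_congr rfl fun i _ => Finset.sum_congr rfl fun j _ => by ring
    rw [this, Finset.mul_sum]
    exact Finset.sum_congr rfl fun i _ => by rw [h2 i]; ring
  unfold DD.Ez
  have e : ∑ j, (mkDD π R).bz k j y * (mkDD π R).Qz ((mkDD π R).pos k j)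
      = ∑ a, ∑ j, (mkDD π R).bz k j y * (∑ i, (mkDD π R).q a i * (mkDD π R).pos k j i) ^ 2 := by
    simp only [DD.Qz, Finset.mul_sum]
    rw [Finset.sum_comm]
  rw [e]
  unfold DD.Qz
  rw [Finset.mul_sum]
  have := Finset.sum_le_sum fun (a : Fin 4) (_ : a ∈ Finset.univ) => key a
  linarith

theorem inF_spec {π : Par} {r : Rc} {u : ℕ} {y : V4} (h : inF π r u y = true) :
    ∃ j, u = r.v.f j ∧ ∀ l, y.f l = ((r.x π).f j).f l := by
  simp only [inF, Bool.or_eq_true, Bool.and_eq_true, natbeq] at h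
  obtain ((((h | h) | h) | h) | h) := h
  · exact ⟨0, h.1, beq4_spec h.2⟩
  · exact ⟨1, h.1, beq4_spec h.2⟩
  · exact ⟨2, h.1, beq4_spec h.2⟩
  · exact ⟨3, h.1, beq4_spec h.2⟩
  · exact ⟨4, h.1, beq4_spec h.2⟩

theorem chk_spec {π : Par} {R : List Rc} (hP : π.P.length = 32)
    (hc : ∀ r ∈ R, chk π r = true) (k k' : Fin R.length) (j' : Fin 5) (z : Fin 4 → ℤ)
    (hy : ∀ j, 0 ≤ (mkDD π R).bz k j ((mkDD π R).tz ((mkDD π R).pos k' j') z)) :
    ∃ j, (mkDD π R).lab k j = (mkDD π R).lab k' j' ∧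
      (mkDD π R).pos k j = (mkDD π R).tz ((mkDD π R).pos k' j') z := by
  have hk := hc _ (List.get_mem R k)
  have hk2 := hc _ (List.get_mem R k')
  simp only [chk, Bool.and_eq_true, natblt] at hk hk2
  obtain ⟨⟨⟨⟨⟨⟨⟨⟨hD, hLab⟩, hDel⟩, hSum⟩, hRep⟩, hIp⟩, hNb⟩, hBox⟩, hPts⟩ := hk
  obtain ⟨⟨⟨⟨⟨⟨⟨⟨-, hLab2⟩, -⟩, -⟩, -⟩, -⟩, -⟩, -⟩, -⟩ := hk2
  set y := (mkDD π R).tz ((mkDD π R).pos k' j') z with hydef
  obtain ⟨h1, h2⟩ := rep π k hSum hRep y
  have hDz : (0 : ℤ) < (mkDD π R).D k := by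
    show (0 : ℤ) < ((R.get k).D : ℤ)
    exact_mod_cast hD
  set u := (R.get k').v.f j' with hu
  have hu32 : u < 32 := lab_lt hLab2 j'
  have hyl : ∀ l, y l = ((bp π u).f l : ℤ) + π.N * ((((R.get k').z.f j').f l : ℤ) + z l) := by
    intro l
    simp only [hydef, DD.tz, mkDD_pos, V4.z, x_f, ps_f, ← hu]
    simp only [mkDD]
    push_cast
    ring
  have hb : ∀ l, ((R.get k).lo.f l : ℤ) ≤ y l ∧ y l ≤ ((R.get k).hi.f l : ℤ) := by
    intro l
    obtain ⟨hx, -, -⟩ := cBox_spec hBox l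
    have e := h2 l
    constructor
    · have : (mkDD π R).D k * ((R.get k).lo.f l : ℤ) ≤ (mkDD π R).D k * y l := by
        rw [← e, ← h1, Finset.sum_mul]
        refine Finset.sum_le_sum fun j _ => mul_le_mul_of_nonneg_left ?_ (hy j)
        have h9 := (hx j).1
        show ((R.get k).lo.f l : ℤ) ≤ (((((R.get k).x π).f j).f l : ℕ) : ℤ)
        exact_mod_cast h9
      exact le_of_mul_le_mul_left this hDz
    · have : (mkDD π R).D k * y l ≤ (mkDD π R).D k * ((R.get k).hi.f l : ℤ) := by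
        rw [← e, ← h1, Finset.sum_mul]
        refine Finset.sum_le_sum fun j _ => mul_le_mul_of_nonneg_left ?_ (hy j)
        have h9 := (hx j).2
        show (((((R.get k).x π).f j).f l : ℕ) : ℤ) ≤ ((R.get k).hi.f l : ℤ)
        exact_mod_cast h9
      exact le_of_mul_le_mul_left this hDz
  have hcn : ∀ l, y l = (cn π.N ((bp π u).f l) ((R.get k).lo.f l) : ℕ) := by
    intro l
    obtain ⟨-, h3, h4⟩ := cBox_spec hBox l
    refine cn_spec h4 (hyl l) (hb l).1 ?_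
    have : ((R.get k).hi.f l : ℤ) < (R.get k).lo.f l + π.N := by exact_mod_cast h3
    linarith [(hb l).2]
  have hpt := cPts_spec hPts u (by rw [hP]; exact hu32)
  rw [Nat.zero_add] at hpt
  change cPt π (R.get k) u (bp π u) = true at hpt
  have hnot : ∀ l : Fin 4, ¬ (R.get k).hi.f l < cn π.N ((bp π u).f l) ((R.get k).lo.f l) := by
    intro l hlt
    have h5 := (hb l).2
    rw [hcn l] at h5
    have : cn π.N ((bp π u).f l) ((R.get k).lo.f l) ≤ (R.get k).hi.f l := by exact_mod_cast h5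
    omega
  simp only [cPt, Bool.or_eq_true, natblt] at hpt
  rcases hpt with (((h | h) | h) | h) | h
  · exact absurd h (hnot 0)
  · exact absurd h (hnot 1)
  · exact absurd h (hnot 2)
  · exact absurd h (hnot 3)
  · set Y : V4 := ⟨cn π.N (bp π u).a (R.get k).lo.a, cn π.N (bp π u).b (R.get k).lo.b,
      cn π.N (bp π u).c (R.get k).lo.c, cn π.N (bp π u).d (R.get k).lo.d⟩ with hY
    have hYy : Y.z = y := by
      funext l
      rw [hcn l]
      fin_cases l <;> rfl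
    simp only [cPt', Bool.or_eq_true] at h
    rcases h with h | h
    · have := (pw_iff k hIp Y).1 h
      rw [hYy] at this
      have h6 := Ez_nonpos π k hSum hRep y hy
      omega
    · obtain ⟨j, hj1, hj2⟩ := inF_spec h
      refine ⟨j, hj1.symm, ?_⟩
      rw [mkDD_pos, ← hYy]
      funext l
      simp only [V4.z, hj2 l]

end Pool.Agent.Helper39.KT
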