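import Mathlib

/-!
# Triangulated 4-tori: definitions (project KT, MP_24de9c_co)

A complex is given by its finite set of facets (finite sets of natural numbers).
-/

namespace Pool.Agent.Helper39.KT

open Finset

/-- geometric realisation of the simplicial complex whose facets are the members of F:
barycentric coordinates, nonnegative, of sum one, supported in a facet. -/
def Rl (F : Finset (Finset ℕ)) : Set (ℕ → ℝ) :=
  {x | (∀ v, 0 ≤ x v) ∧ ∃ σ ∈ F, (∀ v, v ∉ σ → x v = 0) ∧ ∑ v ∈ σ, x v = 1}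

/-- number of faces with i + 1 vertices of the complex whose facets are the members of F. -/
def fv (F : Finset (Finset ℕ)) (i : ℕ) : ℕ :=
  ((F.biUnion Finset.powerset).filter (fun s => s.card = i + 1)).card

/-- every ridge (facet minus a vertex) lies in exactly two facets. -/
def PM (F : Finset (Finset ℕ)) : Prop :=
  ∀ σ ∈ F, ∀ y ∈ σ, (F.filter (fun τ => σ.erase y ⊆ τ)).card = 2

/-- F' arises from F by the bistellar flip which replaces A * boundary(B) by boundary(A) * B. -/
structure IsFlip (F F' : Finset (Finset ℕ)) (A B : Finset ℕ) : Prop where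
  disj : Disjoint A B
  hA : A.Nonempty
  hB : B.Nonempty
  star : ∀ σ ∈ F, A ⊆ σ → ∃ b ∈ B, σ = A ∪ B.erase b
  mem : ∀ b ∈ B, A ∪ B.erase b ∈ F
  link : ∀ σ ∈ F, ¬ B ⊆ σ
  eq : ∀ σ, σ ∈ F' ↔ (σ ∈ F ∧ ¬ A ⊆ σ) ∨ ∃ a ∈ A, σ = B ∪ A.erase a

/-- number of faces with i + 1 vertices of A * boundary(B) which contain A (a = |A|, b = |B|). -/
def cnt (a b i : ℕ) : ℕ := if a ≤ i + 1 ∧ i + 1 < a + b then b.choose (i + 1 - a) else 0

/-- F is (the facet set of) a triangulated 4-torus with n vertices 0, ..., n-1 and e edges,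
with the f-vector given by the Dehn-Sommerville equations. -/
structure Tor (F : Finset (Finset ℕ)) (n e : ℕ) : Prop where
  homeo : Nonempty (Rl F ≃ₜ (Fin 4 → AddCircle (1 : ℝ)))
  nonempty : F.Nonempty
  pure5 : ∀ σ ∈ F, σ.card = 5
  pm : PM F
  range : ∀ σ ∈ F, ∀ v ∈ σ, v < n
  f0 : fv F 0 = n
  f1 : fv F 1 = e
  f2 : fv F 2 + 10 * n = 4 * e
  f3 : fv F 3 + 15 * n = 5 * e
  f4 : fv F 4 + 6 * n = 2 * e

/-- list of tetrahedra (latest first) forming a stacked 3-ball: each new one has exactly one new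
vertex x and the triangle opposite to x lies in an earlier tetrahedron. -/
inductive Stk : List (Finset ℕ) → Prop
  | one (T : Finset ℕ) (h : T.card = 4) : Stk [T]
  | cons (T : Finset ℕ) (L : List (Finset ℕ)) (h : T.card = 4) (hL : Stk L) (x : ℕ) (hx : x ∈ T)
      (hn : ∀ T' ∈ L, x ∉ T') (hp : ∃ T' ∈ L, T.erase x ⊆ T') : Stk (T :: L)

/-- the link of w in F contains the stacked 3-ball L, and L has n - 1 vertices. -/
structure Marked (F : Finset (Finset ℕ)) (n w : ℕ) (L : List (Finset ℕ)) : Prop where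
  stk : Stk L
  notMem : ∀ T ∈ L, w ∉ T
  mem : ∀ T ∈ L, insert w T ∈ F
  len : L.length + 4 = n

end Pool.Agent.Helper39.KT
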