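import Pool.Agent.Helper39.KT.Grow

/-!
# KT-6: the infinite family from the base case

PROOF.  Induction on n ≥ N0 for the statement
 (∀ e, 5 n + X ≤ e → 2 e ≤ n (n-1) → ∃ F, Tor F n e)  and  ∃ F w L e, 2 e = n (n-1), Tor F n e, Marked F n w L.
Step: let 5 (n+1) + X ≤ e and 2 e ≤ (n+1) n.  If 2 (e - 5) ≤ n (n-1), use the hypothesis with
e - 5 and Tor.stack (F.Nonempty).  Otherwise e = C(n,2) + 4 + j with 2 ≤ j ≤ n - 4 = L.length:
grow.  The marked one: grow_full, C(n,2) + n = C(n+1,2).  (Use n.choose 2 or products, as you like.)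
-/

namespace Pool.Agent.Helper39.KT

open Finset

private theorem family_aux {N0 X : ℕ} (hN : 5 ≤ N0)
    (hb : ∀ e, 5 * N0 + X ≤ e → 2 * e ≤ N0 * (N0 - 1) → ∃ F, Tor F N0 e)
    (hm : ∃ F w L e, 2 * e = N0 * (N0 - 1) ∧ Tor F N0 e ∧ Marked F N0 w L) (n : ℕ) (hn : N0 ≤ n) :
    (∀ e, 5 * n + X ≤ e → 2 * e ≤ n * (n - 1) → ∃ F, Tor F n e) ∧
      ∃ F w L e, 2 * e = n * (n - 1) ∧ Tor F n e ∧ Marked F n w L := by
  induction n, hn using Nat.le_induction with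
  | base => exact ⟨hb, hm⟩
  | succ n hn ih =>
    obtain ⟨ih1, F, w, L, e0, he0, hT, hM⟩ := ih
    have h5 : 5 ≤ n := hN.trans hn
    have hprod : (n + 1) * (n + 1 - 1) = n * (n - 1) + 2 * n := by
      obtain ⟨m, rfl⟩ : ∃ m, n = m + 1 := ⟨n - 1, by omega⟩
      simp only [Nat.add_sub_cancel]
      ring
    refine ⟨fun e h1 h2 => ?_, ?_⟩
    · rw [hprod] at h2
      by_cases hc : 2 * (e - 5) ≤ n * (n - 1)
      · obtain ⟨F1, hF1⟩ := ih1 (e - 5) (by omega) hc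
        obtain ⟨σ, hσ⟩ := hF1.nonempty
        have h3 := hF1.stack hσ
        have h4 : e - 5 + 5 = e := by omega
        rw [h4] at h3
        exact ⟨_, h3⟩
      · have hlen := hM.len
        obtain ⟨F', hF'⟩ := grow hT hM (j := e - e0 - 4) (by omega) (by omega)
        have h4 : e0 + 4 + (e - e0 - 4) = e := by omega
        rw [h4] at hF'
        exact ⟨F', hF'⟩
    · obtain ⟨F', L', hF', hM'⟩ := grow_full hT hM
      exact ⟨F', n, L', e0 + n, by rw [hprod]; omega, hF', hM'⟩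

theorem family {N0 X : ℕ} (hN : 5 ≤ N0)
    (hb : ∀ e, 5 * N0 + X ≤ e → 2 * e ≤ N0 * (N0 - 1) → ∃ F, Tor F N0 e)
    (hm : ∃ F w L e, 2 * e = N0 * (N0 - 1) ∧ Tor F N0 e ∧ Marked F N0 w L) :
    ∀ n, N0 ≤ n → ∀ e, 5 * n + X ≤ e → 2 * e ≤ n * (n - 1) → ∃ F, Tor F n e :=
  fun n hn => (family_aux hN hb hm n hn).1

end Pool.Agent.Helper39.KT
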