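import Pool.Agent.Helper39.KT.Defs

/-!
# KT-1: a bistellar flip does not change the realisation

PROOF.  Put m(x) = min of x over A (Finset.inf' A hA x) and
  phi(x) = x + m(x) * ( - 1_A + (|A| / |B|) 1_B ),
psi(x) the same with A and B exchanged.  Both are continuous on ℕ → ℝ (Continuous.finset_inf'
or similar; coordinatewise continuity).
(1) phi maps Rl F to Rl F'.  Let x in Rl F with facet σ.  If m(x) = 0 then phi(x) = x; if not
A ⊆ σ then σ ∈ F'; if A ⊆ σ then σ = A ∪ B.erase b and x a = 0 for some a in A, so x is supported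
in B ∪ A.erase a, a member of F' (sum over A ∪ B of x is 1 as well).  If m(x) > 0 then all
x a > 0 (a in A), so A ⊆ σ, σ = A ∪ B.erase b; phi(x) ≥ 0, it is supported in A ∪ B and vanishes
at the a in A where the minimum is attained, and its sum over A ∪ B is
1 + m (-|A| + |A|/|B| |B|) = 1.  So the facet B ∪ A.erase a of F' works.
(2) psi(phi(x)) = x for x in Rl F: by link, x b = 0 for some b in B (σ does not contain B), so
min over B of phi(x) is (|A|/|B|) m(x).
(3) IsFlip.symm: IsFlip F' F B A (for F' the members containing B are exactly the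
B ∪ A.erase a by link and eq; none contains A by star, eq and disjointness; F is obtained from F'
in the same way).  So psi maps Rl F' to Rl F and phi(psi(x)) = x there.
(A helper lemma: if x vanishes outside σ, σ ⊆ S then the sums over σ and S agree.)
-/

namespace Pool.Agent.Helper39.KT

open Finset

theorem IsFlip.symm {F F' : Finset (Finset ℕ)} {A B : Finset ℕ} (h : IsFlip F F' A B) :
    IsFlip F' F B A := by
  have hl : ∀ a ∈ A, ¬ A ⊆ B ∪ A.erase a := by
    intro a ha hs
    have h1 := hs ha
    rw [mem_union] at h1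
    rcases h1 with h1 | h1
    · exact (Finset.disjoint_left.mp h.disj) ha h1
    · exact (Finset.notMem_erase a A) h1
  refine ⟨h.disj.symm, h.hB, h.hA, ?_, ?_, ?_, ?_⟩
  · intro σ hσ hB
    rcases (h.eq σ).mp hσ with h1 | h1
    · exact absurd hB (h.link σ h1.1)
    · exact h1
  · intro a ha
    exact (h.eq _).mpr (Or.inr ⟨a, ha, rfl⟩)
  · intro σ hσ hA
    rcases (h.eq σ).mp hσ with h1 | ⟨a, ha, rfl⟩
    · exact h1.2 hA
    · exact hl a ha hA
  · intro σ
    constructor
    · intro hσ
      by_cases hA : A ⊆ σ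
      · exact Or.inr (h.star σ hσ hA)
      · exact Or.inl ⟨(h.eq σ).mpr (Or.inl ⟨hσ, hA⟩), h.link σ hσ⟩
    · rintro (⟨h1, h2⟩ | ⟨b, hb, rfl⟩)
      · rcases (h.eq σ).mp h1 with h3 | ⟨a, ha, rfl⟩
        · exact h3.1
        · exact absurd subset_union_left h2
      · exact h.mem b hb

/-- the piecewise linear map of the flip. -/
private noncomputable def phi (A B : Finset ℕ) (hA : A.Nonempty) (x : ℕ → ℝ) : ℕ → ℝ :=
  fun v => x v - (if v ∈ A then A.inf' hA x else 0) +
    (if v ∈ B then ((A.card : ℝ) / B.card) * A.inf' hA x else 0)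

private theorem phi_cont (A B : Finset ℕ) (hA : A.Nonempty) : Continuous (phi A B hA) := by
  have hc : Continuous (fun x : ℕ → ℝ => A.inf' hA x) := by
    have := Continuous.finset_inf'_apply (s := A) (f := fun (i : ℕ) (x : ℕ → ℝ) => x i) hA
      (fun i _ => continuous_apply i)
    exact this
  apply continuous_pi
  intro v
  unfold phi
  refine ((continuous_apply v).sub ?_).add ?_
  · by_cases h : v ∈ A
    · simpa [h] using hc
    · simpa [h] using continuous_const
  · by_cases h : v ∈ B
    · simpa [h] using hc.const_mul ((A.card : ℝ) / B.card)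
    · simpa [h] using continuous_const

private theorem inf_nonneg (A : Finset ℕ) (hA : A.Nonempty) (x : ℕ → ℝ) (hx : ∀ v, 0 ≤ x v) :
    0 ≤ A.inf' hA x := Finset.le_inf' hA x (fun v _ => hx v)

private theorem phi_eq_self (A B : Finset ℕ) (hA : A.Nonempty) (x : ℕ → ℝ)
    (h : A.inf' hA x = 0) : phi A B hA x = x := by
  funext v
  unfold phi
  rw [h]
  simp

private theorem sum_big (x : ℕ → ℝ) (σ S : Finset ℕ) (h : σ ⊆ S) (hx : ∀ v, v ∉ σ → x v = 0) :
    ∑ v ∈ σ, x v = ∑ v ∈ S, x v :=
  Finset.sum_subset h (fun v _ hv => hx v hv)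

private theorem phi_mem {F F' : Finset (Finset ℕ)} {A B : Finset ℕ} (h : IsFlip F F' A B)
    (x : ℕ → ℝ) (hx : x ∈ Rl F) : phi A B h.hA x ∈ Rl F' := by
  obtain ⟨h0, σ, hσ, hs, h1⟩ := hx
  have hm := inf_nonneg A h.hA x h0
  by_cases hAσ : A ⊆ σ
  · obtain ⟨b, hb, rfl⟩ := h.star σ hσ hAσ
    obtain ⟨a, ha, hma⟩ := Finset.exists_mem_eq_inf' h.hA x
    have hB0 : (B.card : ℝ) ≠ 0 := by
      exact_mod_cast (Finset.card_pos.mpr h.hB).ne'
    have hdis : ∀ v, v ∈ A → v ∉ B := fun v hv => Finset.disjoint_left.mp h.disj hv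
    have hdis' : ∀ v, v ∈ B → v ∉ A := fun v hv hA => hdis v hA hv
    have hc : 0 ≤ ((A.card : ℝ) / B.card) * A.inf' h.hA x := by positivity
    refine ⟨?_, B ∪ A.erase a, (h.eq _).mpr (Or.inr ⟨a, ha, rfl⟩), ?_, ?_⟩
    · intro v
      unfold phi
      by_cases hv : v ∈ A
      · have := Finset.inf'_le x hv
        simp only [hv, hdis v hv, if_true, if_false]
        linarith
      · by_cases hv' : v ∈ B
        · simp only [hv, hv', if_true, if_false]
          linarith [h0 v]
        · simp only [hv, hv', if_false]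
          linarith [h0 v]
    · intro v hv
      rw [mem_union, not_or, Finset.mem_erase, not_and_or, not_not] at hv
      unfold phi
      rcases hv with ⟨hvB, hva | hvA⟩
      · subst hva
        simp only [ha, hvB, if_true, if_false]
        rw [hma]; ring
      · simp only [hvA, hvB, if_false]
        have : v ∉ A ∪ B.erase b := by
          rw [mem_union, not_or]
          exact ⟨hvA, fun h' => hvB (Finset.mem_of_mem_erase h')⟩
        rw [hs v this]; ring
    · have hsup : ∀ v, v ∉ B ∪ A.erase a → phi A B h.hA x v = 0 := by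
        intro v hv
        rw [mem_union, not_or, Finset.mem_erase, not_and_or, not_not] at hv
        unfold phi
        rcases hv with ⟨hvB, hva | hvA⟩
        · subst hva
          simp only [ha, hvB, if_true, if_false]
          rw [hma]; ring
        · simp only [hvA, hvB, if_false]
          have : v ∉ A ∪ B.erase b := by
            rw [mem_union, not_or]
            exact ⟨hvA, fun h' => hvB (Finset.mem_of_mem_erase h')⟩
          rw [hs v this]; ring
      rw [sum_big _ (B ∪ A.erase a) (A ∪ B) ?_ hsup]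
      · have hx1 : ∑ v ∈ A ∪ B, x v = 1 := by
          rw [← sum_big x (A ∪ B.erase b) (A ∪ B) ?_ hs, h1]
          exact Finset.union_subset_union_right (Finset.erase_subset b B)
        have e1 : ∑ v ∈ A ∪ B, (if v ∈ A then A.inf' h.hA x else 0) =
            (A.card : ℝ) * A.inf' h.hA x := by
          rw [← Finset.sum_filter]
          have : (A ∪ B).filter (fun v => v ∈ A) = A := by
            ext v; simp only [mem_filter, mem_union]; tauto
          rw [this, Finset.sum_const, nsmul_eq_mul]
        have e2 : ∑ v ∈ A ∪ B, (if v ∈ B then ((A.card : ℝ) / B.card) * A.inf' h.hA x else 0) =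
            (A.card : ℝ) * A.inf' h.hA x := by
          rw [← Finset.sum_filter]
          have : (A ∪ B).filter (fun v => v ∈ B) = B := by
            ext v; simp only [mem_filter, mem_union]; tauto
          rw [this, Finset.sum_const, nsmul_eq_mul]
          field_simp
        unfold phi
        rw [Finset.sum_add_distrib, Finset.sum_sub_distrib, e1, e2, hx1]
        ring
      · exact Finset.union_subset Finset.subset_union_right
          ((Finset.erase_subset a A).trans Finset.subset_union_left)
  · obtain ⟨a, ha, haσ⟩ := Finset.not_subset.mp hAσ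
    have hle := Finset.inf'_le x ha
    rw [hs a haσ] at hle
    rw [phi_eq_self A B h.hA x (le_antisymm hle hm)]
    exact ⟨h0, σ, (h.eq σ).mpr (Or.inl ⟨hσ, hAσ⟩), hs, h1⟩

private theorem phi_phi {F F' : Finset (Finset ℕ)} {A B : Finset ℕ} (h : IsFlip F F' A B)
    (x : ℕ → ℝ) (hx : x ∈ Rl F) : phi B A h.hB (phi A B h.hA x) = x := by
  obtain ⟨h0, σ, hσ, hs, h1⟩ := hx
  have hm := inf_nonneg A h.hA x h0
  have hB0 : (B.card : ℝ) ≠ 0 := by exact_mod_cast (Finset.card_pos.mpr h.hB).ne'
  have hA0 : (A.card : ℝ) ≠ 0 := by exact_mod_cast (Finset.card_pos.mpr h.hA).ne'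
  have hdis : ∀ v, v ∈ A → v ∉ B := fun v hv => Finset.disjoint_left.mp h.disj hv
  have hdis' : ∀ v, v ∈ B → v ∉ A := fun v hv hA => hdis v hA hv
  obtain ⟨b, hb, hbσ⟩ := Finset.not_subset.mp (h.link σ hσ)
  have hval : ∀ v ∈ B, phi A B h.hA x v = x v + ((A.card : ℝ) / B.card) * A.inf' h.hA x := by
    intro v hv
    unfold phi
    simp only [hv, hdis' v hv, if_true, if_false]
    ring
  have hinf : B.inf' h.hB (phi A B h.hA x) = ((A.card : ℝ) / B.card) * A.inf' h.hA x := by
    apply le_antisymm
    · have := Finset.inf'_le (phi A B h.hA x) hb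
      rw [hval b hb, hs b hbσ, zero_add] at this
      exact this
    · apply Finset.le_inf'
      intro v hv
      rw [hval v hv]
      linarith [h0 v]
  funext v
  have hP : ∀ y : ℕ → ℝ, phi B A h.hB y v = y v - (if v ∈ B then B.inf' h.hB y else 0) +
    (if v ∈ A then ((B.card : ℝ) / A.card) * B.inf' h.hB y else 0) := fun y => rfl
  have hQ : phi A B h.hA x v = x v - (if v ∈ A then A.inf' h.hA x else 0) +
    (if v ∈ B then ((A.card : ℝ) / B.card) * A.inf' h.hA x else 0) := rfl
  rw [hP, hinf, hQ]
  by_cases hv : v ∈ A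
  · simp only [hv, hdis v hv, if_true, if_false]
    field_simp
    ring
  · by_cases hv' : v ∈ B
    · simp only [hv, hv', if_true, if_false]
      ring
    · simp only [hv, hv', if_false]
      ring

theorem IsFlip.homeo {F F' : Finset (Finset ℕ)} {A B : Finset ℕ} (h : IsFlip F F' A B) :
    Nonempty (Rl F ≃ₜ Rl F') := by
  refine ⟨⟨⟨fun x => ⟨phi A B h.hA x.1, phi_mem h x.1 x.2⟩,
    fun y => ⟨phi B A h.hB y.1, phi_mem h.symm y.1 y.2⟩, ?_, ?_⟩, ?_, ?_⟩⟩
  · intro x
    exact Subtype.ext (phi_phi h x.1 x.2)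
  · intro y
    exact Subtype.ext (phi_phi h.symm y.1 y.2)
  · exact ((phi_cont A B h.hA).comp continuous_subtype_val).subtype_mk _
  · exact ((phi_cont B A h.hB).comp continuous_subtype_val).subtype_mk _

end Pool.Agent.Helper39.KT
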