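import Pool.Agent.Helper39.KT.Defs

/-!
# KT-2: the f-vector under a bistellar flip

PROOF.  Let fa(F) = F.biUnion powerset.  For τ not containing A: τ ∈ fa(F) implies τ ∈ fa(F')
(if τ ⊆ σ ∈ F and not A ⊆ σ, then σ ∈ F'; if σ = A ∪ B.erase b, some a in A is not in τ, so
τ ⊆ B ∪ A.erase a ∈ F').  For τ not containing B: τ ∈ fa(F') implies τ ∈ fa(F) (if τ ⊆ σ with
σ ∈ F fine; if τ ⊆ B ∪ A.erase a, some b in B is not in τ, so τ ⊆ A ∪ B.erase b ∈ F).
So fa(F') = (fa(F) without the τ containing A) disjoint union {τ : B ⊆ τ ⊆ A ∪ B, not A ⊆ τ}, and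
the τ ∈ fa(F) containing A are exactly {τ : A ⊆ τ ⊆ A ∪ B, not B ⊆ τ} (star, mem).  The number of
τ with A ⊆ τ ⊆ A ∪ B, not B ⊆ τ, |τ| = i + 1 is cnt |A| |B| i (τ = A ∪ C, C a proper subset of B
with i + 1 - |A| elements; bijection with (B.powersetCard (i+1-|A|)) minus B itself).
-/

namespace Pool.Agent.Helper39.KT

open Finset

/-- the faces with i + 1 vertices between A and A ∪ B which do not contain B. -/
def btw (A B : Finset ℕ) (i : ℕ) : Finset (Finset ℕ) :=
  (A ∪ B).powerset.filter (fun s => A ⊆ s ∧ ¬ B ⊆ s ∧ s.card = i + 1)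

theorem card_btw {A B : Finset ℕ} (hAB : Disjoint A B) (i : ℕ) :
    (btw A B i).card = cnt A.card B.card i := by
  unfold cnt
  split_ifs with hc
  · obtain ⟨h1, h2⟩ := hc
    rw [← card_powersetCard]
    symm
    refine card_bij (fun C _ => A ∪ C) ?_ ?_ ?_
    · intro C hC
      rw [mem_powersetCard] at hC
      have hd : Disjoint A C := disjoint_of_subset_right hC.1 hAB
      simp only [btw, mem_filter, mem_powerset]
      refine ⟨union_subset_union_right hC.1, subset_union_left, ?_, ?_⟩
      · intro hB
        have hBC : B ⊆ C := by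
          intro x hx
          rcases mem_union.1 (hB hx) with h | h
          · exact absurd hx (disjoint_left.1 hAB h)
          · exact h
        have := card_le_card hBC
        omega
      · rw [card_union_of_disjoint hd, hC.2]
        omega
    · intro C hC D hD hEq
      rw [mem_powersetCard] at hC hD
      have key : ∀ C' D' : Finset ℕ, C' ⊆ B → A ∪ C' = A ∪ D' → C' ⊆ D' := by
        intro C' D' h1' h2' x hx
        have hx' : x ∈ A ∪ D' := by
          rw [← h2']
          exact mem_union_right _ hx
        rcases mem_union.1 hx' with h | h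
        · exact absurd (h1' hx) (disjoint_left.1 hAB h)
        · exact h
      exact Subset.antisymm (key C D hC.1 hEq) (key D C hD.1 hEq.symm)
    · intro τ hτ
      simp only [btw, mem_filter, mem_powerset] at hτ
      obtain ⟨hs, hA, _, hcard⟩ := hτ
      refine ⟨τ \ A, ?_, ?_⟩
      · rw [mem_powersetCard]
        refine ⟨?_, ?_⟩
        · intro x hx
          rw [mem_sdiff] at hx
          rcases mem_union.1 (hs hx.1) with h | h
          · exact absurd h hx.2
          · exact h
        · rw [card_sdiff_of_subset hA, hcard]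
      · exact union_sdiff_of_subset hA
  · rw [card_eq_zero, eq_empty_iff_forall_notMem]
    intro τ hτ
    simp only [btw, mem_filter, mem_powerset] at hτ
    obtain ⟨hs, hA, hB, hcard⟩ := hτ
    apply hc
    refine ⟨?_, ?_⟩
    · have := card_le_card hA
      omega
    · have hlt : τ ⊂ A ∪ B := by
        refine Finset.ssubset_iff_subset_ne.2 ⟨hs, ?_⟩
        intro h
        exact hB (h ▸ subset_union_right)
      have := card_lt_card hlt
      rw [card_union_of_disjoint hAB] at this
      omega

/-- the faces not containing A. -/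
theorem fv_split {F : Finset (Finset ℕ)} {A B : Finset ℕ} (i : ℕ)
    (P : Finset (Finset ℕ))
    (hP : ∀ τ, τ ∈ (F.biUnion Finset.powerset).filter (fun s => s.card = i + 1) ↔
      τ ∈ P ∨ τ ∈ btw A B i)
    (hd : Disjoint P (btw A B i)) (hAB : Disjoint A B) :
    fv F i = P.card + cnt A.card B.card i := by
  have : (F.biUnion Finset.powerset).filter (fun s => s.card = i + 1) = P ∪ btw A B i := by
    ext τ
    rw [hP τ, mem_union]
  rw [fv, this, card_union_of_disjoint hd, card_btw hAB]

theorem IsFlip.fv {F F' : Finset (Finset ℕ)} {A B : Finset ℕ} (h : IsFlip F F' A B) (i : ℕ) :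
    fv F' i + cnt A.card B.card i = fv F i + cnt B.card A.card i := by
  set P : Finset (Finset ℕ) :=
    ((F.biUnion Finset.powerset).filter (fun s => s.card = i + 1)).filter (fun s => ¬ A ⊆ s)
    with hPdef
  have hdAB : ∀ x ∈ A, x ∉ B := fun x hx => disjoint_left.1 h.disj hx
  have hdBA : ∀ x ∈ B, x ∉ A := fun x hx => disjoint_right.1 h.disj hx
  have e1 : KT.fv F i = P.card + cnt A.card B.card i := by
    refine fv_split i P ?_ ?_ h.disj
    · intro τ
      simp only [hPdef, mem_filter, mem_biUnion, mem_powerset, btw]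
      constructor
      · rintro ⟨⟨σ, hσ, hτ⟩, hc⟩
        by_cases hA : A ⊆ τ
        · right
          obtain ⟨b, hb, rfl⟩ := h.star σ hσ (hA.trans hτ)
          refine ⟨hτ.trans (union_subset_union_right (erase_subset _ _)), hA, ?_, hc⟩
          intro hB
          rcases mem_union.1 (hτ (hB hb)) with h' | h'
          · exact hdBA b hb h'
          · exact notMem_erase _ _ h'
        · left
          exact ⟨⟨⟨σ, hσ, hτ⟩, hc⟩, hA⟩
      · rintro (⟨⟨⟨σ, hσ, hτ⟩, hc⟩, -⟩ | ⟨hs, hA, hB, hc⟩)
        · exact ⟨⟨σ, hσ, hτ⟩, hc⟩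
        · obtain ⟨b, hb, hbτ⟩ := not_subset.1 hB
          refine ⟨⟨A ∪ B.erase b, h.mem b hb, ?_⟩, hc⟩
          intro x hx
          rcases mem_union.1 (hs hx) with h' | h'
          · exact mem_union_left _ h'
          · refine mem_union_right _ (mem_erase.2 ⟨?_, h'⟩)
            rintro rfl
            exact hbτ hx
    · rw [disjoint_left]
      intro τ h1 h2
      simp only [hPdef, mem_filter, btw] at h1 h2
      exact h1.2 h2.2.1
  have e2 : KT.fv F' i = P.card + cnt B.card A.card i := by
    refine fv_split i P ?_ ?_ h.disj.symm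
    · intro τ
      simp only [hPdef, mem_filter, mem_biUnion, mem_powerset, btw]
      constructor
      · rintro ⟨⟨σ, hσ, hτ⟩, hc⟩
        rcases (h.eq σ).1 hσ with ⟨hF, hA⟩ | ⟨a, ha, rfl⟩
        · left
          exact ⟨⟨⟨σ, hF, hτ⟩, hc⟩, fun hA' => hA (hA'.trans hτ)⟩
        · have haτ : a ∉ τ := by
            intro h'
            rcases mem_union.1 (hτ h') with h'' | h''
            · exact hdAB a ha h''
            · exact notMem_erase _ _ h''
          have hAτ : ¬ A ⊆ τ := fun hA => haτ (hA ha)
          by_cases hB : B ⊆ τ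
          · right
            exact ⟨hτ.trans (union_subset_union_right (erase_subset _ _)), hB, hAτ, hc⟩
          · left
            obtain ⟨b, hb, hbτ⟩ := not_subset.1 hB
            refine ⟨⟨⟨A ∪ B.erase b, h.mem b hb, ?_⟩, hc⟩, hAτ⟩
            intro x hx
            rcases mem_union.1 (hτ hx) with h' | h'
            · refine mem_union_right _ (mem_erase.2 ⟨?_, h'⟩)
              rintro rfl
              exact hbτ hx
            · exact mem_union_left _ (mem_of_mem_erase h')
      · rintro (⟨⟨⟨σ, hσ, hτ⟩, hc⟩, hA⟩ | ⟨hs, hB, hA, hc⟩)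
        · refine ⟨?_, hc⟩
          by_cases hAσ : A ⊆ σ
          · obtain ⟨b, hb, rfl⟩ := h.star σ hσ hAσ
            obtain ⟨a, ha, haτ⟩ := not_subset.1 hA
            refine ⟨B ∪ A.erase a, (h.eq _).2 (Or.inr ⟨a, ha, rfl⟩), ?_⟩
            intro x hx
            rcases mem_union.1 (hτ hx) with h' | h'
            · refine mem_union_right _ (mem_erase.2 ⟨?_, h'⟩)
              rintro rfl
              exact haτ hx
            · exact mem_union_left _ (mem_of_mem_erase h')
          · exact ⟨σ, (h.eq σ).2 (Or.inl ⟨hσ, hAσ⟩), hτ⟩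
        · obtain ⟨a, ha, haτ⟩ := not_subset.1 hA
          refine ⟨⟨B ∪ A.erase a, (h.eq _).2 (Or.inr ⟨a, ha, rfl⟩), ?_⟩, hc⟩
          intro x hx
          rcases mem_union.1 (hs hx) with h' | h'
          · exact mem_union_left _ h'
          · refine mem_union_right _ (mem_erase.2 ⟨?_, h'⟩)
            rintro rfl
            exact haτ hx
    · rw [disjoint_left]
      intro τ h1 h2
      simp only [hPdef, mem_filter, mem_biUnion, mem_powerset, btw] at h1 h2
      obtain ⟨⟨⟨σ, hσ, hτ⟩, -⟩, -⟩ := h1
      exact h.link σ hσ (h2.2.1.trans hτ)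
  rw [e1, e2]
  omega

end Pool.Agent.Helper39.KT
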