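import Pool.Agent.Helper39.KT.Defs

/-!
# KT-3: the ridge condition under a bistellar flip

PROOF.  Let r = σ.erase y with σ ∈ F', y ∈ σ (so |r| = 4; all members of F and F' have 5 elements:
|A| + |B| = 6).
For any r with |r| = 4 let others(r) = {τ ∈ F : not A ⊆ τ, r ⊆ τ}.  Then
#{τ ∈ F : r ⊆ τ} = others(r) + #{b ∈ B : r ⊆ A ∪ B.erase b} and
#{τ ∈ F' : r ⊆ τ} = others(r) + #{a ∈ A : r ⊆ B ∪ A.erase a} (the sets B ∪ A.erase a are distinct
and not in F by link).  If r is not contained in A ∪ B both extra terms are 0 and r is a ridge of a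
facet of F.  If r ⊆ A ∪ B, then r = (A ∪ B) minus {p, q}; the two extra terms are the numbers of
elements of {p,q} in B resp. in A.
 * one in A, one in B: both 1, so the count in F' equals the count in F, which is 2 as r is a ridge
   of A ∪ B.erase b.
 * both in A: B ⊆ r, others(r) = 0 by link, count in F' is 2.
 * both in B: A ⊆ r and r is a ridge of F (r = (A ∪ B.erase p).erase q); the count in F is 2 =
   others + 2, so others = 0; then r would not lie in any member of F': no such case.
-/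

namespace Pool.Agent.Helper39.KT

open Finset

private theorem union_erase_eq {A B : Finset ℕ} (hd : Disjoint A B) {b : ℕ} (hb : b ∈ B) :
    A ∪ B.erase b = (A ∪ B).erase b := by
  ext v
  have hbA : b ∉ A := fun h => (Finset.disjoint_left.mp hd) h hb
  simp only [mem_union, mem_erase]
  constructor
  · rintro (h | ⟨h1, h2⟩)
    · exact ⟨fun e => hbA (e ▸ h), Or.inl h⟩
    · exact ⟨h1, Or.inr h2⟩
  · rintro ⟨h1, h2 | h2⟩
    · exact Or.inl h2
    · exact Or.inr ⟨h1, h2⟩

private theorem card_union_erase {A B : Finset ℕ} (hd : Disjoint A B) {b : ℕ} (hb : b ∈ B) :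
    (A ∪ B.erase b).card + 1 = A.card + B.card := by
  rw [union_erase_eq hd hb, Finset.card_erase_add_one (mem_union_right A hb),
    Finset.card_union_of_disjoint hd]

theorem IsFlip.card5 {F F' : Finset (Finset ℕ)} {A B : Finset ℕ} (h : IsFlip F F' A B)
    (h5 : ∀ σ ∈ F, σ.card = 5) : (∀ σ ∈ F', σ.card = 5) ∧ A.card + B.card = 6 := by
  obtain ⟨b, hb⟩ := h.hB
  have h1 := card_union_erase h.disj hb
  have h2 := h5 _ (h.mem b hb)
  refine ⟨?_, by omega⟩
  intro σ hσ
  rcases (h.eq σ).mp hσ with h3 | ⟨a, ha, rfl⟩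
  · exact h5 σ h3.1
  · have h4 := card_union_erase h.disj.symm ha
    omega

private theorem count_eq (F G : Finset (Finset ℕ)) (X S r : Finset ℕ) (hS : S ⊆ X)
    (hF : ∀ τ, τ ∈ F ↔ τ ∈ G ∨ ∃ s ∈ S, τ = X.erase s) (hd : ∀ s ∈ S, X.erase s ∉ G) :
    (F.filter (fun τ => r ⊆ τ)).card =
      (G.filter (fun τ => r ⊆ τ)).card + (S.filter (fun s => r ⊆ X.erase s)).card := by
  have e : F.filter (fun τ => r ⊆ τ) = G.filter (fun τ => r ⊆ τ) ∪
      (S.filter (fun s => r ⊆ X.erase s)).image (fun s => X.erase s) := by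
    ext τ
    simp only [mem_filter, mem_union, mem_image]
    constructor
    · rintro ⟨h1, h2⟩
      rcases (hF τ).mp h1 with h3 | ⟨s, hs, rfl⟩
      · exact Or.inl ⟨h3, h2⟩
      · exact Or.inr ⟨s, ⟨hs, h2⟩, rfl⟩
    · rintro (⟨h1, h2⟩ | ⟨s, ⟨h1, h2⟩, rfl⟩)
      · exact ⟨(hF τ).mpr (Or.inl h1), h2⟩
      · exact ⟨(hF _).mpr (Or.inr ⟨s, h1, rfl⟩), h2⟩
  rw [e, Finset.card_union_of_disjoint, Finset.card_image_of_injOn]
  · intro s hs t ht hst
    have hs' := (mem_filter.mp (Finset.mem_coe.mp hs)).1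
    by_contra hne
    have h1 : s ∈ X.erase t := mem_erase.mpr ⟨hne, hS hs'⟩
    have h2 : X.erase s = X.erase t := hst
    rw [← h2] at h1
    exact Finset.notMem_erase s X h1
  · rw [Finset.disjoint_left]
    intro τ h1 h2
    obtain ⟨s, hs, rfl⟩ := mem_image.mp h2
    exact hd s (mem_filter.mp hs).1 (mem_filter.mp h1).1

private theorem filter_erase_card {X S r : Finset ℕ} (hr : r ⊆ X) :
    (S.filter (fun s => r ⊆ X.erase s)).card = (S \ r).card := by
  congr 1
  ext s
  simp only [mem_filter, mem_sdiff]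
  constructor
  · rintro ⟨h1, h2⟩
    exact ⟨h1, fun h3 => Finset.notMem_erase s X (h2 h3)⟩
  · rintro ⟨h1, h2⟩
    exact ⟨h1, fun v hv => mem_erase.mpr ⟨fun e => h2 (e ▸ hv), hr hv⟩⟩

private theorem filter_erase_card' {X S r : Finset ℕ} (hr : ¬ r ⊆ X) :
    (S.filter (fun s => r ⊆ X.erase s)).card = 0 := by
  rw [Finset.card_eq_zero, Finset.filter_eq_empty_iff]
  intro s _ h2
  exact hr (h2.trans (Finset.erase_subset s X))

theorem IsFlip.pm {F F' : Finset (Finset ℕ)} {A B : Finset ℕ} (h : IsFlip F F' A B)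
    (h5 : ∀ σ ∈ F, σ.card = 5) (hpm : PM F) : PM F' := by
  obtain ⟨h5', hAB⟩ := h.card5 h5
  have hX : (A ∪ B).card = 6 := by rw [Finset.card_union_of_disjoint h.disj]; exact hAB
  set G : Finset (Finset ℕ) := F.filter (fun τ => ¬ A ⊆ τ) with hG
  have hBe : ∀ b ∈ B, A ∪ B.erase b = (A ∪ B).erase b := fun b hb => union_erase_eq h.disj hb
  have hAe : ∀ a ∈ A, B ∪ A.erase a = (A ∪ B).erase a := by
    intro a ha
    rw [union_erase_eq h.disj.symm ha, Finset.union_comm]
  have hAsub : ∀ b ∈ B, A ⊆ (A ∪ B).erase b := by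
    intro b hb
    rw [← hBe b hb]
    exact subset_union_left
  have hBsub : ∀ a ∈ A, B ⊆ (A ∪ B).erase a := by
    intro a ha
    rw [← hAe a ha]
    exact subset_union_left
  intro σ hσ y hy
  have hσ5 := h5' σ hσ
  generalize hrdef : σ.erase y = r
  have hr4 : r.card = 4 := by
    rw [← hrdef, Finset.card_erase_of_mem hy, hσ5]
  have hrσ : r ⊆ σ := by rw [← hrdef]; exact Finset.erase_subset y σ
  have cF : (F.filter (fun τ => r ⊆ τ)).card =
      (G.filter (fun τ => r ⊆ τ)).card + (B.filter (fun s => r ⊆ (A ∪ B).erase s)).card := by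
    apply count_eq F G (A ∪ B) B r subset_union_right
    · intro τ
      constructor
      · intro hτ
        by_cases hA : A ⊆ τ
        · obtain ⟨b, hb, hb'⟩ := h.star τ hτ hA
          exact Or.inr ⟨b, hb, by rw [hb', hBe b hb]⟩
        · exact Or.inl (mem_filter.mpr ⟨hτ, hA⟩)
      · rintro (h1 | ⟨b, hb, rfl⟩)
        · exact (mem_filter.mp h1).1
        · rw [← hBe b hb]; exact h.mem b hb
    · intro b hb h1
      exact (mem_filter.mp h1).2 (hAsub b hb)
  have cF' : (F'.filter (fun τ => r ⊆ τ)).card =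
      (G.filter (fun τ => r ⊆ τ)).card + (A.filter (fun s => r ⊆ (A ∪ B).erase s)).card := by
    apply count_eq F' G (A ∪ B) A r subset_union_left
    · intro τ
      rw [h.eq τ]
      constructor
      · rintro (h1 | ⟨a, ha, rfl⟩)
        · exact Or.inl (mem_filter.mpr h1)
        · exact Or.inr ⟨a, ha, hAe a ha⟩
      · rintro (h1 | ⟨a, ha, rfl⟩)
        · exact Or.inl (mem_filter.mp h1)
        · exact Or.inr ⟨a, ha, (hAe a ha).symm⟩
    · intro a ha h1
      exact h.link _ (mem_filter.mp h1).1 (hBsub a ha)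
  by_cases hrX : r ⊆ A ∪ B
  · rw [filter_erase_card hrX] at cF cF'
    have hsum : (A \ r).card + (B \ r).card = 2 := by
      have e1 : (A \ r).card + (B \ r).card = ((A ∪ B) \ r).card := by
        rw [Finset.union_sdiff_distrib, Finset.card_union_of_disjoint]
        exact Finset.disjoint_of_subset_left Finset.sdiff_subset
          (Finset.disjoint_of_subset_right Finset.sdiff_subset h.disj)
      rw [e1, Finset.card_sdiff_of_subset hrX, hX, hr4]
    rcases Nat.eq_zero_or_pos (B \ r).card with hB0 | hB1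
    · -- B ⊆ r
      have hBr : B ⊆ r := Finset.sdiff_eq_empty_iff_subset.mp (Finset.card_eq_zero.mp hB0)
      have hG0 : (G.filter (fun τ => r ⊆ τ)).card = 0 := by
        rw [Finset.card_eq_zero, Finset.filter_eq_empty_iff]
        intro τ hτ h2
        exact h.link τ (mem_filter.mp hτ).1 (hBr.trans h2)
      omega
    · rcases Nat.eq_zero_or_pos (A \ r).card with hA0 | hA1
      · exfalso
        have hAr : A ⊆ r := Finset.sdiff_eq_empty_iff_subset.mp (Finset.card_eq_zero.mp hA0)
        rcases (h.eq σ).mp hσ with h1 | ⟨a, ha, rfl⟩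
        · exact h1.2 (hAr.trans hrσ)
        · have h2 := hrσ (hAr ha)
          rw [hAe a ha] at h2
          exact Finset.notMem_erase a _ h2
      · obtain ⟨b, hb⟩ := Finset.card_pos.mp hB1
        obtain ⟨a, ha⟩ := Finset.card_pos.mp hA1
        rw [mem_sdiff] at hb ha
        have hab : a ≠ b := fun e => Finset.disjoint_left.mp h.disj ha.1 (e ▸ hb.1)
        have haX : a ∈ (A ∪ B).erase b := mem_erase.mpr ⟨hab, mem_union_left B ha.1⟩
        have hreq : r = ((A ∪ B).erase b).erase a := by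
          apply Finset.eq_of_subset_of_card_le
          · intro v hv
            exact mem_erase.mpr ⟨fun e => ha.2 (e ▸ hv),
              mem_erase.mpr ⟨fun e => hb.2 (e ▸ hv), hrX hv⟩⟩
          · rw [Finset.card_erase_of_mem haX,
              Finset.card_erase_of_mem (mem_union_right A hb.1), hX, hr4]
        have h2 := hpm ((A ∪ B).erase b) (by rw [← hBe b hb.1]; exact h.mem b hb.1) a haX
        rw [← hreq] at h2
        omega
  · rw [filter_erase_card' hrX] at cF cF'
    rcases (h.eq σ).mp hσ with h1 | ⟨a, ha, rfl⟩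
    · have h2 := hpm σ h1.1 y hy
      rw [hrdef] at h2
      omega
    · exfalso
      apply hrX
      rw [hAe a ha] at hrσ
      exact hrσ.trans (Finset.erase_subset a _)

end Pool.Agent.Helper39.KT
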