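import Pool.Agent.Helper39.KT.Moves

/-!
# KT-5: new vertex with j + 4 neighbours, from a stacked ball in the link of w

Setting: Tor F n e, Marked F n w L.  For a list K of tetrahedra (a suffix of L, latest first) put
  bd w [T] = {(insert w T).erase y : y ∈ insert w T},
  bd w (T :: K) = (bd w K minus ρ) ∪ {(insert w T).erase y : y ∈ insert w T, y ≠ x},
                  x the new vertex of T, ρ = (insert w T).erase x,
  G w F v K = (F minus {insert w T : T ∈ K}) ∪ {insert v ρ : ρ ∈ bd w K}     (v = n the new vertex).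
(Definition by an inductive predicate Bd w K B  <->  B is the boundary, or by recursion with x
chosen; your choice.)

PROOF that Tor (G K) (n+1) (e + 4 + |K|) for every suffix K ≠ [] of L, by induction:
 * K = [T]: G = stackF F (insert w T) n, Tor.stack.
 * K -> T :: K: Tor.move1 with A = ρ = (insert w T).erase x, B = {v, x}.  The IsFlip conditions:
   mem: A ∪ B.erase v = ρ ∪ {x} = insert w T ∈ F and it is not removed (x is not in the earlier T');
        A ∪ B.erase x = insert v ρ with ρ ∈ bd w K: T.erase x ⊆ T' for some T' ∈ K, so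
        ρ = (insert w T').erase y for some y, and by lemma U below ρ ∈ bd w K, as a second T'' ∈ K
        with ρ ⊆ insert w T'' would give three members of F containing ρ: insert w T,
        insert w T', insert w T'' (PM F for the ridge ρ = (insert w T).erase x).
   star: a member of G containing ρ: if it is in F, PM F (ρ lies in exactly two members of F:
        insert w T and insert w T', the second removed); if it is insert v ρ' with ρ' ∈ bd w K then
        ρ ⊆ ρ' (v ∉ ρ), both have 4 elements, equal.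
   link: members of F do not contain v; for insert v ρ', ρ' ⊆ insert w T'' for a T'' ∈ K and x is in
        no earlier tetrahedron (and x ≠ w).
   The new facets insert v x (ρ.erase a) = insert v ((insert w T).erase a), a ∈ ρ: matches bd.
LEMMA U: if T ∈ K, y ∈ insert w T and no other T' ∈ K has (insert w T).erase y ⊆ insert w T', then
 (insert w T).erase y ∈ bd w K.  Induction on K (when ρ is removed, ρ ⊆ insert w T for the newest
 T and ρ = (insert w T').erase y' contradicts the uniqueness for T').
All members of bd w K have 4 elements and are contained in some insert w T, T ∈ K.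

FULL STEP (grow_full): K = L.  F' = G L, v = n, new marking list
  L' = (T.erase y ∪ {w}) :: L  where L = T :: K, y ∈ T, y ≠ x (if K = [] any y ∈ T)  [so L' has new
  vertex w, and its triangle T.erase y lies in T].
 Marked F' (n+1) n L':  stk: w is in no member of L, T.erase y ⊆ T.  notMem: n is not in any T
 (range).  mem: insert n T' ∈ F' for T' ∈ L: T' = (insert w T').erase w ∈ bd w L by lemma U
 (T' ⊆ insert w T'' gives T' ⊆ T'', equal cardinalities, T'' = T'; L has no repetitions as the new
 vertex of a later one is not in the earlier ones);  and (insert w T).erase y ∈ bd w L by lemma U, as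
 it contains x, which is in no other member of L.  len: clear.
 The number of edges is e + 4 + |L| = e + n.
-/

namespace Pool.Agent.Helper39.KT

open Finset

/-- the facets after the new vertex v has been put over the ball K with boundary B -/
private def Gf (w v : ℕ) (F : Finset (Finset ℕ)) (K : List (Finset ℕ)) (B : Finset (Finset ℕ)) :
    Finset (Finset ℕ) :=
  F.filter (fun σ => ∀ T ∈ K, σ ≠ insert w T) ∪ B.image (fun ρ => insert v ρ)

private theorem mem_Gf {w v : ℕ} {F : Finset (Finset ℕ)} {K : List (Finset ℕ)}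
    {B : Finset (Finset ℕ)} {σ : Finset ℕ} :
    σ ∈ Gf w v F K B ↔ (σ ∈ F ∧ ∀ T ∈ K, σ ≠ insert w T) ∨ ∃ ρ ∈ B, σ = insert v ρ := by
  unfold Gf
  rw [Finset.mem_union, Finset.mem_filter, Finset.mem_image]
  constructor
  · rintro (h | ⟨ρ, h1, h2⟩)
    · exact Or.inl h
    · exact Or.inr ⟨ρ, h1, h2.symm⟩
  · rintro (h | ⟨ρ, h1, h2⟩)
    · exact Or.inl h
    · exact Or.inr ⟨ρ, h1, h2.symm⟩

private theorem three {S : Finset (Finset ℕ)} (hS : S.card = 2) {a b c : Finset ℕ} (ha : a ∈ S)
    (hb : b ∈ S) (hc : c ∈ S) (hab : a ≠ b) (hac : a ≠ c) (hbc : b ≠ c) : False := by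
  have h1 : ({a, b, c} : Finset (Finset ℕ)) ⊆ S := by
    intro t ht
    simp only [Finset.mem_insert, Finset.mem_singleton] at ht
    rcases ht with rfl | rfl | rfl
    · exact ha
    · exact hb
    · exact hc
  have h2 := Finset.card_le_card h1
  rw [Finset.card_eq_three.2 ⟨a, b, c, hab, hac, hbc, rfl⟩] at h2
  omega

private theorem stk_card {L : List (Finset ℕ)} (h : Stk L) : ∀ T ∈ L, T.card = 4 := by
  induction h with
  | one T h =>
    intro T' hT'
    rw [List.mem_singleton] at hT'
    rw [hT', h]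
  | cons T L h hL x hx hn hp ih =>
    intro T' hT'
    rcases List.mem_cons.1 hT' with h1 | h1
    · rw [h1, h]
    · exact ih T' h1

private theorem stk_suffix {L : List (Finset ℕ)} (h : Stk L) : ∀ j, 1 ≤ j → j ≤ L.length →
    ∃ K, Stk K ∧ K.length = j ∧ ∀ T ∈ K, T ∈ L := by
  induction h with
  | one T h =>
    intro j h1 h2
    exact ⟨[T], Stk.one T h, by simpa using le_antisymm h1 (by simpa using h2), fun T' h' => h'⟩
  | cons T L h hL x hx hn hp ih =>
    intro j h1 h2
    rw [List.length_cons] at h2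
    by_cases h3 : j ≤ L.length
    · obtain ⟨K, k1, k2, k3⟩ := ih j h1 h3
      exact ⟨K, k1, k2, fun T' h' => List.mem_cons_of_mem _ (k3 T' h')⟩
    · exact ⟨T :: L, Stk.cons T L h hL x hx hn hp, by rw [List.length_cons]; omega,
        fun T' h' => h'⟩

private theorem key {F : Finset (Finset ℕ)} {n e w : ℕ} (h : Tor F n e) {K : List (Finset ℕ)}
    (hK : Stk K) : (∀ T ∈ K, w ∉ T) → (∀ T ∈ K, insert w T ∈ F) →
    ∃ B : Finset (Finset ℕ), (∀ ρ ∈ B, ρ.card = 4 ∧ ∃ T ∈ K, ρ ⊆ insert w T) ∧
      (∀ T ∈ K, ∀ y ∈ insert w T, (∀ T' ∈ K, T' ≠ T → ¬ (insert w T).erase y ⊆ insert w T') →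
        (insert w T).erase y ∈ B) ∧
      Tor (Gf w n F K B) (n + 1) (e + 4 + K.length) := by
  induction hK with
  | one T hT =>
    intro hw hF
    have hTF := hF T (List.mem_singleton.2 rfl)
    have h5 : (insert w T).card = 5 := h.pure5 _ hTF
    refine ⟨(insert w T).image (fun y => (insert w T).erase y), ?_, ?_, ?_⟩
    · intro ρ hρ
      obtain ⟨y, hy, rfl⟩ := Finset.mem_image.1 hρ
      refine ⟨by rw [Finset.card_erase_of_mem hy, h5], T, List.mem_singleton.2 rfl,
        Finset.erase_subset _ _⟩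
    · intro T' hT' y hy _
      rw [List.mem_singleton] at hT'
      subst hT'
      exact Finset.mem_image.2 ⟨y, hy, rfl⟩
    · have h1 := h.stack hTF
      have h2 : Gf w n F [T] ((insert w T).image (fun y => (insert w T).erase y)) =
          stackF F (insert w T) n := by
        ext σ
        rw [mem_Gf]
        unfold stackF
        simp only [List.mem_singleton, forall_eq, Finset.mem_union, Finset.mem_erase,
          Finset.mem_image]
        constructor
        · rintro (⟨h3, h4⟩ | ⟨ρ, ⟨y, hy, rfl⟩, rfl⟩)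
          · exact Or.inl ⟨h4, h3⟩
          · exact Or.inr ⟨y, hy, rfl⟩
        · rintro (⟨h3, h4⟩ | ⟨y, hy, rfl⟩)
          · exact Or.inl ⟨h4, h3⟩
          · exact Or.inr ⟨_, ⟨y, hy, rfl⟩, rfl⟩
      rw [h2]
      exact h1
  | cons T K hT hK x hx hn hp ih =>
    intro hw hF
    obtain ⟨B, hB1, hB2, hG⟩ := ih (fun T' h' => hw T' (List.mem_cons_of_mem _ h'))
      (fun T' h' => hF T' (List.mem_cons_of_mem _ h'))
    have hwT := hw T List.mem_cons_self
    have hTF := hF T List.mem_cons_self
    have hxw : x ≠ w := by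
      rintro rfl
      exact hwT hx
    have hxm : x ∈ insert w T := Finset.mem_insert_of_mem hx
    have hxn : x < n := h.range _ hTF x hxm
    have h5 : (insert w T).card = 5 := h.pure5 _ hTF
    set ρ := (insert w T).erase x with hρ
    have hρ4 : ρ.card = 4 := by rw [hρ, Finset.card_erase_of_mem hxm, h5]
    have hρT : ρ ⊆ insert w T := Finset.erase_subset _ _
    have hnρ : n ∉ ρ := fun h1 => lt_irrefl _ (h.range _ hTF n (hρT h1))
    obtain ⟨T₁, hT₁, hT₁s⟩ := hp
    have hT₁F := hF T₁ (List.mem_cons_of_mem _ hT₁)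
    have hwT₁ := hw T₁ (List.mem_cons_of_mem _ hT₁)
    have hρT₁ : ρ ⊆ insert w T₁ := by
      intro y hy
      rw [hρ, Finset.mem_erase, Finset.mem_insert] at hy
      rcases hy.2 with h1 | h1
      · rw [h1]
        exact Finset.mem_insert_self _ _
      · exact Finset.mem_insert_of_mem (hT₁s (Finset.mem_erase.2 ⟨hy.1, h1⟩))
    have hxT' : ∀ T' ∈ K, x ∉ insert w T' := by
      intro T' hT' h1
      rcases Finset.mem_insert.1 h1 with h2 | h2
      · exact hxw h2
      · exact hn T' hT' h2
    have hpm := h.pm _ hTF x hxm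
    rw [← hρ] at hpm
    have m1 : insert w T ∈ F.filter (fun τ => ρ ⊆ τ) := Finset.mem_filter.2 ⟨hTF, hρT⟩
    have m2 : insert w T₁ ∈ F.filter (fun τ => ρ ⊆ τ) := Finset.mem_filter.2 ⟨hT₁F, hρT₁⟩
    have hne1 : insert w T ≠ insert w T₁ := by
      intro h1
      exact hxT' T₁ hT₁ (h1 ▸ hxm)
    have hρB : ρ ∈ B := by
      have hc1 : (insert w T₁).card = 5 := h.pure5 _ hT₁F
      obtain ⟨y, hy, hy'⟩ : ∃ y ∈ insert w T₁, y ∉ ρ := by
        by_contra hcon
        push Not at hcon
        have := Finset.card_le_card (fun y hy => hcon y hy : insert w T₁ ⊆ ρ)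
        omega
      have he : ρ = (insert w T₁).erase y := by
        refine Finset.eq_of_subset_of_card_le (fun z hz => ?_) ?_
        · refine Finset.mem_erase.2 ⟨?_, hρT₁ hz⟩
          rintro rfl
          exact hy' hz
        · rw [Finset.card_erase_of_mem hy, hc1, hρ4]
      rw [he]
      refine hB2 T₁ hT₁ y hy ?_
      intro T₂ hT₂ hne hsub
      rw [← he] at hsub
      have hT₂F := hF T₂ (List.mem_cons_of_mem _ hT₂)
      have hwT₂ := hw T₂ (List.mem_cons_of_mem _ hT₂)
      refine three hpm m1 m2 (Finset.mem_filter.2 ⟨hT₂F, hsub⟩) hne1 ?_ ?_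
      · intro h1
        exact hxT' T₂ hT₂ (h1 ▸ hxm)
      · intro h1
        apply hne
        rw [← Finset.erase_insert hwT₂, ← Finset.erase_insert hwT₁, h1]
    have hG_of : ∀ σ, σ ∈ F → (∀ T' ∈ K, σ ≠ insert w T') → ρ ⊆ σ → σ = insert w T := by
      intro σ hσ hσK hsub
      by_contra hne
      exact three hpm (Finset.mem_filter.2 ⟨hσ, hsub⟩) m1 m2 hne (hσK T₁ hT₁) hne1
    have hB_of : ∀ ρ' ∈ B, ρ ⊆ insert n ρ' → ρ' = ρ := by
      intro ρ' hρ' hsub
      symm
      refine Finset.eq_of_subset_of_card_le (fun z hz => ?_) ?_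
      · rcases Finset.mem_insert.1 (hsub hz) with h1 | h1
        · exact absurd (h1 ▸ hz) hnρ
        · exact h1
      · rw [(hB1 ρ' hρ').1, hρ4]
    have hnx : n ≠ x := fun h1 => lt_irrefl _ (h1 ▸ hxn)
    have e1 : ({n, x} : Finset ℕ).erase n = {x} := by
      rw [Finset.erase_insert]
      rw [Finset.mem_singleton]
      exact hnx
    have e2 : ({n, x} : Finset ℕ).erase x = {n} := by
      rw [Finset.pair_comm, Finset.erase_insert]
      rw [Finset.mem_singleton]
      exact hnx.symm
    have e3 : ρ ∪ ({n, x} : Finset ℕ).erase n = insert w T := by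
      rw [e1, hρ, Finset.union_comm, ← Finset.insert_eq, Finset.insert_erase hxm]
    have e4 : ρ ∪ ({n, x} : Finset ℕ).erase x = insert n ρ := by
      rw [e2, Finset.union_comm, ← Finset.insert_eq]
    have e5 : ∀ y ∈ ρ, ({n, x} : Finset ℕ) ∪ ρ.erase y = insert n ((insert w T).erase y) := by
      intro y hy
      have hyx : y ≠ x := (Finset.mem_erase.1 (hρ ▸ hy)).1
      ext z
      simp only [Finset.mem_union, Finset.mem_insert, Finset.mem_singleton, Finset.mem_erase, hρ]
      constructor
      · rintro ((h1 | h1) | ⟨h1, h2, h3⟩)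
        · exact Or.inl h1
        · right
          rw [h1]
          exact ⟨hyx.symm, Or.inr hx⟩
        · exact Or.inr ⟨h1, h3⟩
      · rintro (h1 | ⟨h1, h2⟩)
        · exact Or.inl (Or.inl h1)
        · by_cases h3 : z = x
          · exact Or.inl (Or.inr h3)
          · exact Or.inr ⟨h1, h3, h2⟩
    let B' : Finset (Finset ℕ) := B.erase ρ ∪ ρ.image (fun y => (insert w T).erase y)
    have hB' : ∀ τ, τ ∈ B' ↔ (τ ≠ ρ ∧ τ ∈ B) ∨ ∃ y ∈ ρ, τ = (insert w T).erase y := by
      intro τ
      show τ ∈ B.erase ρ ∪ ρ.image (fun y => (insert w T).erase y) ↔ _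
      rw [Finset.mem_union, Finset.mem_erase, Finset.mem_image]
      constructor
      · rintro (h1 | ⟨y, h1, h2⟩)
        · exact Or.inl h1
        · exact Or.inr ⟨y, h1, h2.symm⟩
      · rintro (h1 | ⟨y, h1, h2⟩)
        · exact Or.inl h1
        · exact Or.inr ⟨y, h1, h2.symm⟩
    have hflip : IsFlip (Gf w n F K B) (Gf w n F (T :: K) B') ρ {n, x} := by
      refine ⟨?_, ?_, ?_, ?_, ?_, ?_, ?_⟩
      · rw [Finset.disjoint_left]
        intro z hz h1
        rw [Finset.mem_insert, Finset.mem_singleton] at h1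
        rcases h1 with h1 | h1
        · exact hnρ (h1 ▸ hz)
        · rw [hρ, Finset.mem_erase] at hz
          exact hz.1 h1
      · rw [← Finset.card_pos, hρ4]
        norm_num
      · exact ⟨n, Finset.mem_insert_self _ _⟩
      · intro σ hσ hsub
        rcases mem_Gf.1 hσ with ⟨h1, h2⟩ | ⟨ρ', h1, rfl⟩
        · exact ⟨n, Finset.mem_insert_self _ _, by rw [e3, hG_of σ h1 h2 hsub]⟩
        · exact ⟨x, Finset.mem_insert_of_mem (Finset.mem_singleton.2 rfl),
            by rw [e4, hB_of ρ' h1 hsub]⟩
      · intro b hb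
        rw [Finset.mem_insert, Finset.mem_singleton] at hb
        rcases hb with rfl | rfl
        · rw [e3]
          refine mem_Gf.2 (Or.inl ⟨hTF, fun T' hT' h1 => hxT' T' hT' (h1 ▸ hxm)⟩)
        · rw [e4]
          exact mem_Gf.2 (Or.inr ⟨ρ, hρB, rfl⟩)
      · intro σ hσ hsub
        rcases mem_Gf.1 hσ with ⟨h1, h2⟩ | ⟨ρ', h1, rfl⟩
        · exact lt_irrefl _ (h.range _ h1 n (hsub (Finset.mem_insert_self _ _)))
        · have h3 : x ∈ insert n ρ' := hsub (Finset.mem_insert_of_mem (Finset.mem_singleton.2 rfl))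
          rcases Finset.mem_insert.1 h3 with h4 | h4
          · exact hnx h4.symm
          · obtain ⟨T', hT', h5'⟩ := (hB1 ρ' h1).2
            exact hxT' T' hT' (h5' h4)
      · intro σ
        rw [mem_Gf, mem_Gf]
        constructor
        · rintro (⟨h1, h2⟩ | ⟨ρ', h1, rfl⟩)
          · left
            refine ⟨Or.inl ⟨h1, fun T' hT' => h2 T' (List.mem_cons_of_mem _ hT')⟩, ?_⟩
            intro hsub
            exact h2 T List.mem_cons_self
              (hG_of σ h1 (fun T' hT' => h2 T' (List.mem_cons_of_mem _ hT')) hsub)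
          · rcases (hB' ρ').1 h1 with ⟨h2, h3⟩ | ⟨y, hy, rfl⟩
            · left
              refine ⟨Or.inr ⟨ρ', h3, rfl⟩, fun hsub => h2 (hB_of ρ' h3 hsub)⟩
            · right
              exact ⟨y, hy, (e5 y hy).symm⟩
        · rintro (⟨⟨h1, h2⟩ | ⟨ρ', h1, rfl⟩, hsub⟩ | ⟨a, ha, rfl⟩)
          · left
            refine ⟨h1, fun T' hT' => ?_⟩
            rcases List.mem_cons.1 hT' with h3 | h3
            · rw [h3]
              rintro rfl
              exact hsub hρT
            · exact h2 T' h3
          · right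
            refine ⟨ρ', (hB' ρ').2 (Or.inl ⟨?_, h1⟩), rfl⟩
            rintro rfl
            exact hsub (Finset.subset_insert _ _)
          · right
            exact ⟨_, (hB' _).2 (Or.inr ⟨a, ha, rfl⟩), e5 a ha⟩
    refine ⟨B', ?_, ?_, ?_⟩
    · intro τ hτ
      rcases (hB' τ).1 hτ with ⟨_, h2⟩ | ⟨y, hy, rfl⟩
      · obtain ⟨h3, T', hT', h4⟩ := hB1 τ h2
        exact ⟨h3, T', List.mem_cons_of_mem _ hT', h4⟩
      · refine ⟨?_, T, List.mem_cons_self, Finset.erase_subset _ _⟩
        rw [Finset.card_erase_of_mem (hρT hy), h5]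
    · intro T' hT' y hy hu
      rcases List.mem_cons.1 hT' with h1 | h1
      · subst h1
        by_cases hyx : y = x
        · subst hyx
          exact absurd hρT₁ (hu T₁ (List.mem_cons_of_mem _ hT₁)
            (fun h2 => hne1 (by rw [h2])))
        · exact (hB' _).2 (Or.inr ⟨y, by rw [hρ]; exact Finset.mem_erase.2 ⟨hyx, hy⟩, rfl⟩)
      · refine (hB' _).2 (Or.inl ⟨?_, ?_⟩)
        · intro h2
          refine hu T List.mem_cons_self ?_ (by rw [h2]; exact hρT)
          rintro rfl
          exact hxT' _ h1 hxm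
        · exact hB2 T' h1 y hy (fun T₂ hT₂ => hu T₂ (List.mem_cons_of_mem _ hT₂))
    · have h1 := hG.move1 hflip hnx (Nat.lt_succ_self n) (Nat.lt_succ_of_lt hxn)
      rw [List.length_cons]
      exact h1

theorem grow {F : Finset (Finset ℕ)} {n e w : ℕ} {L : List (Finset ℕ)} (h : Tor F n e)
    (hM : Marked F n w L) {j : ℕ} (h1 : 1 ≤ j) (h2 : j ≤ L.length) :
    ∃ F', Tor F' (n + 1) (e + 4 + j) := by
  obtain ⟨K, k1, k2, k3⟩ := stk_suffix hM.stk j h1 h2
  obtain ⟨B, _, _, hG⟩ := key h k1 (fun T hT => hM.notMem T (k3 T hT))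
    (fun T hT => hM.mem T (k3 T hT))
  rw [k2] at hG
  exact ⟨_, hG⟩

private theorem exists_top {w : ℕ} {L : List (Finset ℕ)} (h : Stk L) (hw : ∀ T ∈ L, w ∉ T) :
    ∃ T ∈ L, ∃ y ∈ T, ∀ T' ∈ L, T' ≠ T → ¬ (insert w T).erase y ⊆ insert w T' := by
  cases h with
  | one T hT =>
    obtain ⟨y, hy⟩ : T.Nonempty := by
      rw [← Finset.card_pos, hT]
      norm_num
    refine ⟨T, List.mem_singleton.2 rfl, y, hy, fun T' hT' hne => ?_⟩
    exact absurd (List.mem_singleton.1 hT') hne
  | cons T K hT hK x hx hn hp =>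
    obtain ⟨y, hy, hyx⟩ : ∃ y ∈ T, y ≠ x := by
      by_contra hcon
      push Not at hcon
      have : T ⊆ {x} := fun y hy => Finset.mem_singleton.2 (hcon y hy)
      have := Finset.card_le_card this
      rw [Finset.card_singleton] at this
      omega
    refine ⟨T, List.mem_cons_self, y, hy, fun T' hT' hne hsub => ?_⟩
    have hT'K : T' ∈ K := (List.mem_cons.1 hT').resolve_left hne
    have hxm : x ∈ (insert w T).erase y :=
      Finset.mem_erase.2 ⟨hyx.symm, Finset.mem_insert_of_mem hx⟩
    rcases Finset.mem_insert.1 (hsub hxm) with h1 | h1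
    · exact hw T List.mem_cons_self (h1 ▸ hx)
    · exact hn T' hT'K h1

theorem grow_full {F : Finset (Finset ℕ)} {n e w : ℕ} {L : List (Finset ℕ)} (h : Tor F n e)
    (hM : Marked F n w L) :
    ∃ F' L', Tor F' (n + 1) (e + n) ∧ Marked F' (n + 1) n L' := by
  obtain ⟨B, hB1, hB2, hG⟩ := key h hM.stk hM.notMem hM.mem
  obtain ⟨T, hT, y, hy, hu⟩ := exists_top hM.stk hM.notMem
  have hcard := stk_card hM.stk
  have hwT := hM.notMem T hT
  have hyw : w ≠ y := by
    rintro rfl
    exact hwT hy
  have he : (insert w T).erase y = insert w (T.erase y) := by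
    rw [Finset.erase_insert_of_ne hyw]
  have hwe : w ∉ T.erase y := fun h1 => hwT (Finset.mem_of_mem_erase h1)
  refine ⟨Gf w n F L B, insert w (T.erase y) :: L, ?_, ?_, ?_, ?_, ?_⟩
  · have h1 := hM.len
    have h2 : e + n = e + 4 + L.length := by omega
    rw [h2]
    exact hG
  · refine Stk.cons _ L ?_ hM.stk w (Finset.mem_insert_self _ _) hM.notMem ⟨T, hT, ?_⟩
    · rw [Finset.card_insert_of_notMem hwe, Finset.card_erase_of_mem hy, hcard T hT]
    · rw [Finset.erase_insert hwe]
      exact Finset.erase_subset _ _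
  · intro T' hT' h1
    rcases List.mem_cons.1 hT' with h2 | h2
    · rw [h2, ← he] at h1
      exact lt_irrefl _ (h.range _ (hM.mem T hT) n (Finset.mem_of_mem_erase h1))
    · exact lt_irrefl _ (h.range _ (hM.mem T' h2) n (Finset.mem_insert_of_mem h1))
  · intro T' hT'
    rcases List.mem_cons.1 hT' with h2 | h2
    · rw [h2, ← he]
      exact mem_Gf.2 (Or.inr ⟨_, hB2 T hT y (Finset.mem_insert_of_mem hy) hu, rfl⟩)
    · have h3 := hM.notMem T' h2
      have h4 : (insert w T').erase w = T' := Finset.erase_insert h3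
      refine mem_Gf.2 (Or.inr ⟨T', ?_, rfl⟩)
      rw [← h4]
      refine hB2 T' h2 w (Finset.mem_insert_self _ _) ?_
      intro T'' h5 hne hsub
      rw [h4] at hsub
      apply hne
      symm
      refine Finset.eq_of_subset_of_card_le (fun z hz => ?_) (by rw [hcard T'' h5, hcard T' h2])
      rcases Finset.mem_insert.1 (hsub hz) with h6 | h6
      · exact absurd (h6 ▸ hz) h3
      · exact h6
  · have h1 := hM.len
    rw [List.length_cons]
    omega

end Pool.Agent.Helper39.KT
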