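import Pool.Agent.Helper39.KT.Base
import Pool.Agent.Helper39.KT.Chain
import Pool.Agent.Helper39.KT.Family

/-! # All pairs (n, e) with n ≥ 32 and 5 n + 288 ≤ e ≤ n (n-1)/2 (project KT) -/

namespace Pool.Agent.Helper39.KT

open Finset

set_option maxRecDepth 100000 in
theorem ch0_ok : chainOK L0 ch0 = true := by decide +kernel

set_option maxRecDepth 100000 in
theorem mark0 : markOK (chainL L0 ch0) w0 K0 = true := by decide +kernel

theorem ch0_len : ch0.length = 48 := by decide +kernel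

theorem K0_len : K0.length + 4 = 32 := by decide +kernel

theorem base_all (e : ℕ) (h1 : 5 * 32 + 288 ≤ e) (h2 : 2 * e ≤ 32 * (32 - 1)) :
    ∃ F, Tor F 32 e := by
  have := chain_all inc0.lt tor0 ch0_ok (i := e - 448) (by rw [ch0_len]; omega)
  rwa [show 448 + (e - 448) = e by omega] at this

theorem base_marked : ∃ F w L e, 2 * e = 32 * (32 - 1) ∧ Tor F 32 e ∧ Marked F 32 w L := by
  refine ⟨decF (chainL L0 ch0), w0, _, 448 + ch0.length, ?_, chain_final inc0.lt tor0 ch0_ok,
    markOK_spec mark0 K0_len⟩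
  rw [ch0_len]

theorem all_tor (n : ℕ) (hn : 32 ≤ n) (e : ℕ) (h1 : 5 * n + 288 ≤ e) (h2 : 2 * e ≤ n * (n - 1)) :
    ∃ F, Tor F n e :=
  family (by norm_num) base_all base_marked n hn e h1 h2

end Pool.Agent.Helper39.KT
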