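import Pool.Agent.Helper39.KT.Moves

/-!
# KT-12: bit masks

Facets are coded by bit masks below 2^32.  flipOK checks the conditions of a flip, flipL performs it.
PROOF: dec is injective on masks below 2^32 (Nat.eq_of_testBit_eq, testBit of numbers < 2^32
vanishes from 32 on); A &&& s = A iff dec A ⊆ dec s; dec (a ||| b) = dec a ∪ dec b;
dec (A ^^^ 2^i) = (dec A).erase i if i ∈ dec A; dec (2^i) = {i} for i < 32;
dec m nonempty iff m ≠ 0 (m < 2^32); bitsOf A = the 2^i, i ∈ dec A.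
-/

namespace Pool.Agent.Helper39.KT

open Finset

/-- decoding of a bit mask -/
def dec (m : ℕ) : Finset ℕ := (Finset.range 32).filter (fun i => m.testBit i = true)

def decF (L : List ℕ) : Finset (Finset ℕ) := (L.map dec).toFinset

def bitsOf (m : ℕ) : List ℕ :=
  ((List.range 32).filter (fun i => m.testBit i)).map (fun i => 2 ^ i)

/-- s contains A -/
def sub (A s : ℕ) : Bool := Nat.beq (Nat.land s A) A

def flipL (L : List ℕ) (A B : ℕ) : List ℕ :=
  L.filter (fun s => !(sub A s)) ++ (bitsOf A).map (fun a => Nat.lor B (Nat.xor A a))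

def flipOK (L : List ℕ) (A B : ℕ) : Bool :=
  Nat.beq (Nat.land A B) 0 && Nat.blt A (2 ^ 32) && Nat.blt B (2 ^ 32) && !(Nat.beq A 0) &&
  !(Nat.beq B 0) &&
  L.all (fun s => !(sub B s) &&
    (!(sub A s) || (bitsOf B).any (fun b => Nat.beq s (Nat.lor A (Nat.xor B b))))) &&
  (bitsOf B).all (fun b => L.any (fun s => Nat.beq s (Nat.lor A (Nat.xor B b))))

theorem mem_dec {m i : ℕ} : i ∈ dec m ↔ i < 32 ∧ m.testBit i = true := by
  unfold dec
  rw [Finset.mem_filter, Finset.mem_range]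

theorem testBit_ge {m i : ℕ} (hm : m < 2 ^ 32) (hi : 32 ≤ i) : m.testBit i = false :=
  Nat.testBit_lt_two_pow (lt_of_lt_of_le hm (Nat.pow_le_pow_right (by norm_num) hi))

theorem mem_dec_of_lt {m i : ℕ} (hm : m < 2 ^ 32) : i ∈ dec m ↔ m.testBit i = true := by
  rw [mem_dec]
  constructor
  · exact fun h => h.2
  · intro h
    refine ⟨?_, h⟩
    by_contra hi
    rw [testBit_ge hm (not_lt.mp hi)] at h
    exact Bool.noConfusion h

theorem sub_iff {A s : ℕ} (hA : A < 2 ^ 32) : sub A s = true ↔ dec A ⊆ dec s := by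
  have h1 : sub A s = true ↔ s &&& A = A := by
    unfold sub
    constructor
    · exact Nat.eq_of_beq_eq_true
    · intro h
      have h2 : Nat.land s A = A := h
      rw [h2]
      exact Nat.beq_refl A
  rw [h1]
  constructor
  · intro h i hi
    rw [mem_dec] at hi ⊢
    refine ⟨hi.1, ?_⟩
    have h2 : (s &&& A).testBit i = true := by rw [h]; exact hi.2
    rw [Nat.testBit_and, Bool.and_eq_true] at h2
    exact h2.1
  · intro h
    refine Nat.eq_of_testBit_eq fun i => ?_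
    rw [Nat.testBit_and]
    by_cases hi : A.testBit i = true
    · have h2 : i ∈ dec A := (mem_dec_of_lt hA).mpr hi
      rw [hi, (mem_dec.mp (h h2)).2]
      rfl
    · rw [Bool.not_eq_true] at hi
      rw [hi, Bool.and_false]

theorem dec_inj {A B : ℕ} (hA : A < 2 ^ 32) (hB : B < 2 ^ 32) (h : dec A = dec B) : A = B := by
  refine Nat.eq_of_testBit_eq fun i => ?_
  have h1 : A.testBit i = true ↔ B.testBit i = true := by
    rw [← mem_dec_of_lt hA, ← mem_dec_of_lt hB, h]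
  exact Bool.eq_iff_iff.mpr h1

theorem dec_pow {i : ℕ} (hi : i < 32) : dec (2 ^ i) = {i} := by
  ext j
  rw [mem_dec, Finset.mem_singleton, Nat.testBit_two_pow, decide_eq_true_iff]
  constructor
  · exact fun h => h.2.symm
  · rintro rfl
    exact ⟨hi, rfl⟩

theorem dec_lor (a b : ℕ) : dec (Nat.lor a b) = dec a ∪ dec b := by
  ext j
  have h1 : Nat.lor a b = a ||| b := rfl
  rw [h1, Finset.mem_union, mem_dec, mem_dec, mem_dec, Nat.testBit_or, Bool.or_eq_true]
  tauto

theorem dec_card (a : ℕ) : (dec a).card = (bitsOf a).length := by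
  unfold bitsOf dec
  rw [List.length_map, ← List.toFinset_card_of_nodup (List.nodup_range.filter _)]
  congr 1
  ext i
  simp

theorem mem_decF {L : List ℕ} {s : Finset ℕ} : s ∈ decF L ↔ ∃ m ∈ L, dec m = s := by
  unfold decF
  rw [List.mem_toFinset, List.mem_map]

theorem mem_bitsOf {m b : ℕ} : b ∈ bitsOf m ↔ ∃ i ∈ dec m, b = 2 ^ i := by
  unfold bitsOf
  rw [List.mem_map]
  constructor
  · rintro ⟨i, hi, rfl⟩
    rw [List.mem_filter, List.mem_range] at hi
    exact ⟨i, mem_dec.mpr hi, rfl⟩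
  · rintro ⟨i, hi, rfl⟩
    refine ⟨i, ?_, rfl⟩
    rw [List.mem_filter, List.mem_range]
    exact mem_dec.mp hi

theorem dec_xor {m i : ℕ} (hi : i ∈ dec m) : dec (Nat.xor m (2 ^ i)) = (dec m).erase i := by
  ext j
  have h1 : Nat.xor m (2 ^ i) = m ^^^ (2 ^ i) := rfl
  have hi2 := (mem_dec.mp hi).2
  rw [h1, Finset.mem_erase, mem_dec, mem_dec, Nat.testBit_xor, Nat.testBit_two_pow]
  by_cases hij : i = j
  · subst hij
    rw [hi2, decide_eq_true rfl]
    simp
  · rw [decide_eq_false hij, Bool.xor_false]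
    constructor
    · exact fun h => ⟨fun e => hij e.symm, h⟩
    · exact fun h => h.2

theorem dec_nonempty {m : ℕ} (hm : m < 2 ^ 32) (h0 : m ≠ 0) : (dec m).Nonempty := by
  rw [Finset.nonempty_iff_ne_empty]
  intro h
  apply h0
  refine dec_inj hm (by norm_num) ?_
  rw [h]
  symm
  rw [Finset.eq_empty_iff_forall_notMem]
  intro i hi
  rw [mem_dec, Nat.zero_testBit] at hi
  exact Bool.noConfusion hi.2

theorem lt_of_mem_bitsOf {m b : ℕ} (h : b ∈ bitsOf m) : b < 2 ^ 32 := by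
  obtain ⟨i, hi, rfl⟩ := mem_bitsOf.mp h
  exact Nat.pow_lt_pow_right (by norm_num) (mem_dec.mp hi).1

theorem flipOK_iff {L : List ℕ} {A B : ℕ} : flipOK L A B = true ↔
    Nat.land A B = 0 ∧ A < 2 ^ 32 ∧ B < 2 ^ 32 ∧ A ≠ 0 ∧ B ≠ 0 ∧
    (∀ s ∈ L, ¬ sub B s = true ∧
      (sub A s = true → ∃ b ∈ bitsOf B, s = Nat.lor A (Nat.xor B b))) ∧
    (∀ b ∈ bitsOf B, ∃ s ∈ L, s = Nat.lor A (Nat.xor B b)) := by
  have hb : ∀ x y : ℕ, Nat.beq x y = true ↔ x = y := fun x y => by
    constructor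
    · exact Nat.eq_of_beq_eq_true
    · rintro rfl
      exact Nat.beq_refl x
  have hl : ∀ x y : ℕ, Nat.blt x y = true ↔ x < y := fun x y => by
    rw [Nat.blt_eq]
  unfold flipOK
  rw [Bool.and_eq_true, Bool.and_eq_true, Bool.and_eq_true, Bool.and_eq_true, Bool.and_eq_true,
    Bool.and_eq_true, hb, hl, hl, List.all_eq_true, List.all_eq_true]
  constructor
  · rintro ⟨⟨⟨⟨⟨⟨h1, h2⟩, h3⟩, h4⟩, h5⟩, h6⟩, h7⟩
    refine ⟨h1, h2, h3, ?_, ?_, ?_, ?_⟩
    · intro h0
      rw [h0] at h4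
      exact Bool.noConfusion h4
    · intro h0
      rw [h0] at h5
      exact Bool.noConfusion h5
    · intro s hs
      have h8 := h6 s hs
      rw [Bool.and_eq_true, Bool.or_eq_true] at h8
      refine ⟨?_, ?_⟩
      · intro h9
        rw [h9] at h8
        exact Bool.noConfusion h8.1
      · intro h9
        rcases h8.2 with h10 | h10
        · rw [h9] at h10
          exact Bool.noConfusion h10
        · rw [List.any_eq_true] at h10
          obtain ⟨b, hb1, hb2⟩ := h10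
          exact ⟨b, hb1, (hb _ _).mp hb2⟩
    · intro b hb1
      have h8 := h7 b hb1
      rw [List.any_eq_true] at h8
      obtain ⟨s, hs1, hs2⟩ := h8
      exact ⟨s, hs1, (hb _ _).mp hs2⟩
  · rintro ⟨h1, h2, h3, h4, h5, h6, h7⟩
    refine ⟨⟨⟨⟨⟨⟨h1, h2⟩, h3⟩, ?_⟩, ?_⟩, ?_⟩, ?_⟩
    · rw [Bool.not_eq_true', ← Bool.not_eq_true, hb]
      exact h4
    · rw [Bool.not_eq_true', ← Bool.not_eq_true, hb]
      exact h5
    · intro s hs
      obtain ⟨h8, h9⟩ := h6 s hs
      rw [Bool.and_eq_true, Bool.or_eq_true, Bool.not_eq_true', ← Bool.not_eq_true,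
        Bool.not_eq_true', ← Bool.not_eq_true]
      refine ⟨h8, ?_⟩
      by_cases h10 : sub A s = true
      · right
        rw [List.any_eq_true]
        obtain ⟨b, hb1, hb2⟩ := h9 h10
        exact ⟨b, hb1, (hb _ _).mpr hb2⟩
      · exact Or.inl h10
    · intro b hb1
      rw [List.any_eq_true]
      obtain ⟨s, hs1, hs2⟩ := h7 b hb1
      exact ⟨s, hs1, (hb _ _).mpr hs2⟩

theorem flipL_lt {L : List ℕ} {A B : ℕ} (hL : ∀ s ∈ L, s < 2 ^ 32) (h : flipOK L A B = true) :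
    ∀ s ∈ flipL L A B, s < 2 ^ 32 := by
  rw [flipOK_iff] at h
  intro s hs
  unfold flipL at hs
  rw [List.mem_append, List.mem_filter, List.mem_map] at hs
  rcases hs with hs | ⟨a, ha, rfl⟩
  · exact hL s hs.1
  · exact Nat.or_lt_two_pow h.2.2.1 (Nat.xor_lt_two_pow h.2.1 (lt_of_mem_bitsOf ha))

theorem flipOK_spec {L : List ℕ} {A B : ℕ} (hL : ∀ s ∈ L, s < 2 ^ 32) (h : flipOK L A B = true) :
    IsFlip (decF L) (decF (flipL L A B)) (dec A) (dec B) := by
  have _ := hL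
  rw [flipOK_iff] at h
  obtain ⟨h1, hA, hB, hA0, hB0, h6, h7⟩ := h
  have hx : ∀ {P Q i : ℕ}, i ∈ dec Q →
      dec (Nat.lor P (Nat.xor Q (2 ^ i))) = dec P ∪ (dec Q).erase i := fun {P Q i} hi => by
    rw [dec_lor, dec_xor hi]
  refine ⟨?_, dec_nonempty hA hA0, dec_nonempty hB hB0, ?_, ?_, ?_, ?_⟩
  · rw [Finset.disjoint_left]
    intro i hi hj
    have h2 : (A &&& B).testBit i = true := by
      rw [Nat.testBit_and, (mem_dec.mp hi).2, (mem_dec.mp hj).2]
      rfl
    have h3 : A &&& B = 0 := h1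
    rw [h3, Nat.zero_testBit] at h2
    exact Bool.noConfusion h2
  · intro σ hσ hs
    obtain ⟨m, hm, rfl⟩ := mem_decF.mp hσ
    obtain ⟨b, hb, hmb⟩ := (h6 m hm).2 ((sub_iff hA).mpr hs)
    obtain ⟨i, hi, rfl⟩ := mem_bitsOf.mp hb
    exact ⟨i, hi, by rw [hmb, hx hi]⟩
  · intro i hi
    obtain ⟨s, hs, hsb⟩ := h7 (2 ^ i) (mem_bitsOf.mpr ⟨i, hi, rfl⟩)
    exact mem_decF.mpr ⟨s, hs, by rw [hsb, hx hi]⟩
  · intro σ hσ hs
    obtain ⟨m, hm, rfl⟩ := mem_decF.mp hσ
    exact (h6 m hm).1 ((sub_iff hB).mpr hs)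
  · intro σ
    rw [mem_decF]
    constructor
    · rintro ⟨m, hm, rfl⟩
      unfold flipL at hm
      rw [List.mem_append, List.mem_filter, List.mem_map] at hm
      rcases hm with ⟨hm1, hm2⟩ | ⟨a, ha, rfl⟩
      · left
        refine ⟨mem_decF.mpr ⟨m, hm1, rfl⟩, ?_⟩
        intro hs
        rw [(sub_iff hA).mpr hs] at hm2
        exact Bool.noConfusion hm2
      · right
        obtain ⟨i, hi, rfl⟩ := mem_bitsOf.mp ha
        exact ⟨i, hi, hx hi⟩
    · rintro (⟨hσ, hs⟩ | ⟨a, ha, rfl⟩)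
      · obtain ⟨m, hm, rfl⟩ := mem_decF.mp hσ
        refine ⟨m, ?_, rfl⟩
        unfold flipL
        rw [List.mem_append, List.mem_filter]
        left
        refine ⟨hm, ?_⟩
        rw [Bool.not_eq_true', ← Bool.not_eq_true, sub_iff hA]
        exact hs
      · refine ⟨Nat.lor B (Nat.xor A (2 ^ a)), ?_, hx ha⟩
        unfold flipL
        rw [List.mem_append, List.mem_map]
        right
        exact ⟨2 ^ a, mem_bitsOf.mpr ⟨a, ha, rfl⟩, rfl⟩

end Pool.Agent.Helper39.KT
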