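import Pool.Agent.Helper39.KT.Mask

/-!
# KT-14: ridge condition and f-vector of a concrete complex, checked by the kernel

V = list of the facets as increasing lists of 5 vertices < 32, L = list of their masks (strictly
increasing, so without repetitions), I = list of the 32 incidence masks: bit k of I_v says that the
facet number k contains v (incOK), NB = list of the neighbours: NB_k = the five numbers of the
facets which contain facet k minus its j-th vertex.

For a set t of vertices the AND of full = 2^m - 1 (m = number of facets) and of the I_v, v ∈ t, has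
bit k iff k < m and the facet number k contains t.
 pmI checks that the facets containing facet k minus its j-th vertex are exactly k and nb_j ≠ k
 (in pmC, acc = AND over the vertices before the j-th, the foldl = AND over those after it).
 cs p i acc ls = number of i-subsets t of the list ls of incidence masks with
 (acc AND t) mod p = 0; with p = 2^k: no facet number < k contains t.  So cntI counts each
 face with i + 1 vertices once, at the first facet which contains it.
Useful: incM v L has bit k iff k < L.length and bit v of L_k (Nat.testBit lemmas for 2 * x + b);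
x mod 2^k = 0 iff no bit j < k (Nat.testBit_mod_two_pow or Nat.dvd);
fv (decF L) i = card of the union of (dec L_k).powersetCard (i+1), a disjoint union over k of the
subsets of facet k not contained in an earlier one.
-/

namespace Pool.Agent.Helper39.KT

open Finset

def msk (l : List ℕ) : ℕ := l.foldr (fun v m => Nat.lor (2 ^ v) m) 0

def vOK (V : List (List ℕ)) : Bool :=
  V.all (fun l => Nat.beq l.length 5 && l.all (fun v => Nat.blt v 32) &&
    (l.zip l.tail).all (fun p => Nat.blt p.1 p.2))

def incr (L : List ℕ) : Bool := (L.zip L.tail).all (fun p => Nat.blt p.1 p.2)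

def incM (v : ℕ) : List ℕ → ℕ
  | [] => 0
  | s :: L => Nat.add (Nat.land (Nat.shiftRight s v) 1) (Nat.mul 2 (incM v L))

def incOK (L : List ℕ) : ℕ → List ℕ → Bool
  | _, [] => true
  | v, i :: I => Nat.beq (incM v L) i && incOK L (v + 1) I

def cs (p : ℕ) : ℕ → ℕ → List ℕ → ℕ
  | 0, acc, _ => cond (Nat.beq (Nat.mod acc p) 0) 1 0
  | _ + 1, _, [] => 0
  | i + 1, acc, b :: r => Nat.add (cs p i (Nat.land acc b) r) (cs p (i + 1) acc r)

def cntI (I : List ℕ) (full : ℕ) (i : ℕ) : ℕ → List (List ℕ) → ℕ
  | _, [] => 0
  | p, l :: V => Nat.add (cs p (i + 1) full (l.map (fun v => I.getD v 0)))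
      (cntI I full i (Nat.mul 2 p) V)

def pmC (full : ℕ) (p : ℕ) : ℕ → List ℕ → List ℕ → Bool
  | acc, b :: r, nb :: rn =>
    Nat.beq (Nat.land acc (List.foldl Nat.land full r)) (Nat.lor p (Nat.pow 2 nb)) &&
      !(Nat.beq p (Nat.pow 2 nb)) && pmC full p (Nat.land acc b) r rn
  | _, [], [] => true
  | _, _, _ => false

def pmI (I : List ℕ) (full : ℕ) : ℕ → List (List ℕ) → List (List ℕ) → Bool
  | p, l :: V, nb :: NB =>
    pmC full p full (l.map (fun v => I.getD v 0)) nb && pmI I full (Nat.mul 2 p) V NB
  | _, [], [] => true
  | _, _, _ => false

/-- everything which is checked about V, L, I -/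
structure Inc (V : List (List ℕ)) (L I : List ℕ) : Prop where
  v : vOK V = true
  l : V.map msk = L
  incr : incr L = true
  len : I.length = 32
  inc : incOK L 0 I = true

end Pool.Agent.Helper39.KT
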