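import Pool.Agent.Helper39.KT.Flip
import Pool.Agent.Helper39.KT.FlipF
import Pool.Agent.Helper39.KT.FlipPM

/-!
# KT-4: the two moves used, for triangulated 4-tori

(1) Tor.stack: subdivide the facet σ by the new vertex n: flip with A = σ, B = {n}.
(2) Tor.move1: a flip with |A| = 4, B = {v, x}, v ≠ x.
PROOF: homeo from IsFlip.homeo (compose), pure5 from IsFlip.card5, pm from IsFlip.pm, range from
IsFlip.eq (members of F' are members of F or B ∪ A.erase a, and A ⊆ members of F by mem), nonempty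
clear, f0 .. f4 from IsFlip.fv and cnt (evaluate cnt 5 1 i, cnt 1 5 i, cnt 4 2 i, cnt 2 4 i by
simp / decide: differences (1,5,10,10,4) and (0,1,4,5,2)).
-/

namespace Pool.Agent.Helper39.KT

open Finset

/-- facet set after subdividing σ by the new vertex v -/
def stackF (F : Finset (Finset ℕ)) (σ : Finset ℕ) (v : ℕ) : Finset (Finset ℕ) :=
  F.erase σ ∪ σ.image (fun a => insert v (σ.erase a))

theorem stackF_flip {F : Finset (Finset ℕ)} {σ : Finset ℕ} {v : ℕ} (h5 : ∀ τ ∈ F, τ.card = 5)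
    (hσ : σ ∈ F) (hv : ∀ τ ∈ F, v ∉ τ) : IsFlip F (stackF F σ v) σ {v} := by
  have hsub : ∀ τ ∈ F, σ ⊆ τ → τ = σ := fun τ hτ h =>
    (Finset.eq_of_subset_of_card_le h (by rw [h5 τ hτ, h5 σ hσ])).symm
  refine ⟨?_, ?_, Finset.singleton_nonempty v, ?_, ?_, ?_, ?_⟩
  · rw [Finset.disjoint_singleton_right]
    exact hv σ hσ
  · rw [← Finset.card_pos, h5 σ hσ]
    norm_num
  · intro τ hτ h
    refine ⟨v, Finset.mem_singleton_self v, ?_⟩
    rw [hsub τ hτ h]
    simp
  · intro b hb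
    rw [Finset.mem_singleton] at hb
    subst hb
    simpa using hσ
  · intro τ hτ h
    exact hv τ hτ (h (Finset.mem_singleton_self v))
  · intro τ
    unfold stackF
    rw [Finset.mem_union, Finset.mem_erase, Finset.mem_image]
    refine or_congr ?_ ?_
    · constructor
      · rintro ⟨h1, h2⟩
        exact ⟨h2, fun h => h1 (hsub τ h2 h)⟩
      · rintro ⟨h1, h2⟩
        exact ⟨fun h => h2 (by rw [h]), h1⟩
    · constructor
      · rintro ⟨a, ha, rfl⟩
        exact ⟨a, ha, Finset.insert_eq _ _⟩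
      · rintro ⟨a, ha, rfl⟩
        exact ⟨a, ha, Finset.insert_eq _ _⟩

theorem Tor.stack {F : Finset (Finset ℕ)} {n e : ℕ} (h : Tor F n e) {σ : Finset ℕ} (hσ : σ ∈ F) :
    Tor (stackF F σ n) (n + 1) (e + 5) := by
  have hf : IsFlip F (stackF F σ n) σ {n} := stackF_flip h.pure5 hσ fun τ hτ hn =>
    lt_irrefl n (h.range τ hτ n hn)
  have hcard : σ.card = 5 := h.pure5 σ hσ
  have hfv : ∀ i, fv (stackF F σ n) i + cnt 5 1 i = fv F i + cnt 1 5 i := by
    intro i
    have := hf.fv i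
    rwa [hcard, Finset.card_singleton] at this
  obtain ⟨e1⟩ := h.homeo
  obtain ⟨e2⟩ := hf.homeo
  refine ⟨⟨e2.symm.trans e1⟩, ?_, (hf.card5 h.pure5).1, hf.pm h.pure5 h.pm, ?_, ?_, ?_, ?_, ?_, ?_⟩
  · obtain ⟨a, ha⟩ := hf.hA
    exact ⟨{n} ∪ σ.erase a, (hf.eq _).2 (Or.inr ⟨a, ha, rfl⟩)⟩
  · intro τ hτ v hv
    rcases (hf.eq τ).1 hτ with h1 | ⟨a, _, rfl⟩
    · exact (h.range τ h1.1 v hv).trans (Nat.lt_succ_self n)
    · rw [Finset.mem_union, Finset.mem_singleton] at hv
      rcases hv with hv | hv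
      · omega
      · exact (h.range σ hσ v (Finset.mem_of_mem_erase hv)).trans (Nat.lt_succ_self n)
  · have h1 := hfv 0
    have h2 : cnt 5 1 0 = 0 := by decide
    have h3 : cnt 1 5 0 = 1 := by decide
    rw [h2, h3, h.f0] at h1
    omega
  · have h1 := hfv 1
    have h2 : cnt 5 1 1 = 0 := by decide
    have h3 : cnt 1 5 1 = 5 := by decide
    rw [h2, h3, h.f1] at h1
    omega
  · have h1 := hfv 2
    have h2 : cnt 5 1 2 = 0 := by decide
    have h3 : cnt 1 5 2 = 10 := by decide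
    have h4 := h.f2
    rw [h2, h3] at h1
    omega
  · have h1 := hfv 3
    have h2 : cnt 5 1 3 = 0 := by decide
    have h3 : cnt 1 5 3 = 10 := by decide
    have h4 := h.f3
    rw [h2, h3] at h1
    omega
  · have h1 := hfv 4
    have h2 : cnt 5 1 4 = 1 := by decide
    have h3 : cnt 1 5 4 = 5 := by decide
    have h4 := h.f4
    rw [h2, h3] at h1
    omega

theorem Tor.move1 {F F' : Finset (Finset ℕ)} {n e : ℕ} (h : Tor F n e) {A : Finset ℕ} {v x : ℕ}
    (hf : IsFlip F F' A {v, x}) (hvx : v ≠ x) (hv : v < n) (hx : x < n) : Tor F' n (e + 1) := by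
  have hB : ({v, x} : Finset ℕ).card = 2 := Finset.card_pair hvx
  have hcard : A.card = 4 := by
    have := (hf.card5 h.pure5).2
    omega
  have hfv : ∀ i, fv F' i + cnt 4 2 i = fv F i + cnt 2 4 i := by
    intro i
    have := hf.fv i
    rwa [hcard, hB] at this
  obtain ⟨e1⟩ := h.homeo
  obtain ⟨e2⟩ := hf.homeo
  have hA : ∀ a ∈ A, a < n := by
    intro a ha
    exact h.range _ (hf.mem v (by simp)) a (Finset.mem_union_left _ ha)
  refine ⟨⟨e2.symm.trans e1⟩, ?_, (hf.card5 h.pure5).1, hf.pm h.pure5 h.pm, ?_, ?_, ?_, ?_, ?_, ?_⟩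
  · obtain ⟨a, ha⟩ := hf.hA
    exact ⟨{v, x} ∪ A.erase a, (hf.eq _).2 (Or.inr ⟨a, ha, rfl⟩)⟩
  · intro τ hτ u hu
    rcases (hf.eq τ).1 hτ with h1 | ⟨a, _, rfl⟩
    · exact h.range τ h1.1 u hu
    · rw [Finset.mem_union, Finset.mem_insert, Finset.mem_singleton] at hu
      rcases hu with (hu | hu) | hu
      · omega
      · omega
      · exact hA u (Finset.mem_of_mem_erase hu)
  · have h1 := hfv 0
    have h2 : cnt 4 2 0 = 0 := by decide
    have h3 : cnt 2 4 0 = 0 := by decide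
    rw [h2, h3, h.f0] at h1
    omega
  · have h1 := hfv 1
    have h2 : cnt 4 2 1 = 0 := by decide
    have h3 : cnt 2 4 1 = 1 := by decide
    rw [h2, h3, h.f1] at h1
    omega
  · have h1 := hfv 2
    have h2 : cnt 4 2 2 = 0 := by decide
    have h3 : cnt 2 4 2 = 4 := by decide
    have h4 := h.f2
    rw [h2, h3] at h1
    omega
  · have h1 := hfv 3
    have h2 : cnt 4 2 3 = 1 := by decide
    have h3 : cnt 2 4 3 = 6 := by decide
    have h4 := h.f3
    rw [h2, h3] at h1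
    omega
  · have h1 := hfv 4
    have h2 : cnt 4 2 4 = 2 := by decide
    have h3 : cnt 2 4 4 = 4 := by decide
    have h4 := h.f4
    rw [h2, h3] at h1
    omega

end Pool.Agent.Helper39.KT
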